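import Pool.Agent.J4H24.D3.Gr
import Pool.Agent.J4H24.NS.Main

/-!
# The formula: lifted Tseitin contradiction with pointers
-/

namespace Pool.Agent.J4H24.D3

open Finset Pool.Agent.J4H24.NS

/-- the bits of the edges -/
abbrev Lab (E : Type*) := E × Bool × Fin 12

/-- the variables: for every bit the threshold encoding of a pointer, and the cells to which the
pointers point -/
abbrev Var (E : Type*) (M : ℕ) := (Lab E × Fin M) ⊕ Fin (M + 1)

section

variable {V E : Type*} [Fintype V] [DecidableEq V] [Fintype E] [DecidableEq E] (a b : E → V)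
variable {M : ℕ} {T : Type*} [DecidableEq T] (e : Var E M → T)

/-- the clause that is false iff the pointer of the bit `l` is `p` and the cell `p` is not `c` -/
def cel (l : Lab E) (c : Bool) (p : Fin (M + 1)) : Finset (T × Bool) :=
  insert (e (Sum.inr p), c) ((thr M p).image fun q => (e (Sum.inl (l, q.1)), q.2))

omit [Fintype E] [DecidableEq E] in
lemma card_cel_le (l : Lab E) (c : Bool) (p : Fin (M + 1)) : (cel e l c p).card ≤ 3 := by
  refine (Finset.card_insert_le _ _).trans ?_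
  have h1 := card_thr_le M p
  have h2 : ((thr M p).image fun q => (e (Sum.inl (l, q.1)), q.2)).card ≤ (thr M p).card :=
    Finset.card_image_le
  omega

omit [Fintype E] [DecidableEq E] in
lemma fals_cel {l : Lab E} {c : Bool} {p : Fin (M + 1)} {x : T → Bool} :
    Fals (cel e l c p) x ↔ x (e (Sum.inr p)) ≠ c ∧
      Fals (thr M p) (fun j => x (e (Sum.inl (l, j)))) := by
  unfold cel Fals
  rw [Finset.forall_mem_insert, Finset.forall_mem_image]

/-- a clause of the formula -/
def clw (w : V) (ξ : Bool → E → B) (P : Lab E → Fin (M + 1)) : Finset (T × Bool) :=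
  (bd a b {w}).biUnion fun f => univ.biUnion fun s : Bool => univ.biUnion fun i : Fin 12 =>
    cel e (f, s, i) (!(ξ s f i)) (P (f, s, i))

omit [Fintype V] [DecidableEq E] in
lemma card_clw_le {k : ℕ} (hk : ∀ w, (bd a b {w}).card ≤ k) (w : V) (ξ : Bool → E → B)
    (P : Lab E → Fin (M + 1)) : (clw a b e w ξ P).card ≤ k * 72 := by
  have h1 : ∀ f s, ((univ : Finset (Fin 12)).biUnion fun i => cel e (f, s, i) (!(ξ s f i))
      (P (f, s, i))).card ≤ 36 := fun f s =>
    (Finset.card_biUnion_le_card_mul _ _ 3 (fun i _ => card_cel_le e _ _ _)).trans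
      (by rw [Finset.card_univ, Fintype.card_fin])
  have h2 : ∀ f, ((univ : Finset Bool).biUnion fun s => (univ : Finset (Fin 12)).biUnion fun i =>
      cel e (f, s, i) (!(ξ s f i)) (P (f, s, i))).card ≤ 72 := fun f =>
    (Finset.card_biUnion_le_card_mul _ _ 36 (fun s _ => h1 f s)).trans (by simp)
  exact (Finset.card_biUnion_le_card_mul _ _ 72 (fun f _ => h2 f)).trans
    (Nat.mul_le_mul_right _ (hk w))

omit [Fintype V] [DecidableEq E] in
lemma fals_clw {w : V} {ξ : Bool → E → B} {P : Lab E → Fin (M + 1)} {x : T → Bool} :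
    Fals (clw a b e w ξ P) x ↔ ∀ f ∈ bd a b {w}, ∀ s i,
      x (e (Sum.inr (P (f, s, i)))) = ξ s f i ∧
        Fals (thr M (P (f, s, i))) (fun j => x (e (Sum.inl ((f, s, i), j)))) := by
  have hb : ∀ c d : Bool, c ≠ !d ↔ c = d := by decide
  constructor
  · intro hf f hf' s i
    rw [← hb, ← fals_cel]
    intro l hl
    exact hf l (Finset.mem_biUnion.mpr ⟨f, hf', Finset.mem_biUnion.mpr ⟨s, mem_univ _,
      Finset.mem_biUnion.mpr ⟨i, mem_univ _, hl⟩⟩⟩)
  · intro hf l hl
    obtain ⟨f, hf', hl⟩ := Finset.mem_biUnion.mp hl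
    obtain ⟨s, -, hl⟩ := Finset.mem_biUnion.mp hl
    obtain ⟨i, -, hl⟩ := Finset.mem_biUnion.mp hl
    have h1 := hf f hf' s i
    rw [← hb] at h1
    exact (fals_cel e).mpr h1 l hl

/-- the values violate the vertex `w` -/
def vio (w0 : V) (ξ : Bool → E → B) (w : V) : Prop :=
  ts a b w0 (fun f => (hh (ξ false f) (ξ true f) : ℤ)) {w} = -1

open Classical in
/-- the formula -/
noncomputable def fml (w0 : V) : Finset (Finset (T × Bool)) :=
  ((univ : Finset (V × (Bool → E → B) × (Lab E → Fin (M + 1)))).filter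
    fun i => vio a b w0 i.2.1 i.1).image fun i => clw a b e i.1 i.2.1 i.2.2

lemma mem_fml {w0 : V} {C : Finset (T × Bool)} : C ∈ fml a b e w0 ↔
    ∃ (w : V) (ξ : Bool → E → B) (P : Lab E → Fin (M + 1)),
      vio a b w0 ξ w ∧ clw a b e w ξ P = C := by
  classical
  unfold fml
  rw [Finset.mem_image]
  constructor
  · rintro ⟨⟨w, ξ, P⟩, h1, h2⟩
    exact ⟨w, ξ, P, (Finset.mem_filter.mp h1).2, h2⟩
  · rintro ⟨w, ξ, P, h1, h2⟩
    exact ⟨⟨w, ξ, P⟩, Finset.mem_filter.mpr ⟨mem_univ _, h1⟩, h2⟩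

lemma fml_width {k : ℕ} (hk : ∀ w, (bd a b {w}).card ≤ k) {w0 : V} {C : Finset (T × Bool)}
    (hC : C ∈ fml a b e w0) : C.card ≤ k * 72 := by
  obtain ⟨w, ξ, P, -, rfl⟩ := (mem_fml a b e).mp hC
  exact card_clw_le a b e hk w ξ P

lemma fml_unsat (w0 : V) (x : T → Bool) : ∃ C ∈ fml a b e w0, Fals C x := by
  classical
  choose P hP using fun l : Lab E => exists_thr (fun j => x (e (Sum.inl (l, j))))
  obtain ⟨w, hw⟩ := exists_viol a b w0
    (s := fun f => hh (fun i => x (e (Sum.inr (P (f, false, i)))))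
      (fun i => x (e (Sum.inr (P (f, true, i)))))) (fun f => hh_sq _ _)
  refine ⟨clw a b e w (fun s f i => x (e (Sum.inr (P (f, s, i))))) P,
    (mem_fml a b e).mpr ⟨w, fun s f i => x (e (Sum.inr (P (f, s, i)))), P, hw, rfl⟩,
    (fals_clw a b e).mpr ?_⟩
  intro f _ s i
  exact ⟨rfl, hP _⟩

/-- the assignment with the pointers `π` and the values `x`, `y` -/
noncomputable def Zg (π : Lab E → Fin (M + 1)) (x y : E → B) (v : T) : Bool :=
  open Classical in
  decide ((∃ l j, e (Sum.inl (l, j)) = v ∧ (j : ℕ) < π l) ∨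
    (∃ f i, e (Sum.inr (π (f, false, i))) = v ∧ x f i = true) ∨
    (∃ f i, e (Sum.inr (π (f, true, i))) = v ∧ y f i = true))

lemma Zg_inl (he : Function.Injective e) {π : Lab E → Fin (M + 1)} {x y : E → B} (l : Lab E)
    (j : Fin M) : Zg e π x y (e (Sum.inl (l, j))) = decide ((j : ℕ) < π l) := by
  unfold Zg
  rw [decide_eq_decide]
  constructor
  · rintro (⟨l', j', h1, h2⟩ | ⟨v, i, h1, -⟩ | ⟨v, i, h1, -⟩)
    · have h3 := Sum.inl_injective (he h1)
      rw [Prod.mk.injEq] at h3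
      rw [← h3.1, ← h3.2]
      exact h2
    · exact absurd (he h1) (by simp)
    · exact absurd (he h1) (by simp)
  · intro h1
    exact Or.inl ⟨l, j, rfl, h1⟩

lemma Zg_inr (he : Function.Injective e) {π : Lab E → Fin (M + 1)} (hπ : Function.Injective π)
    {x y : E → B} (f : E) (s : Bool) (i : Fin 12) :
    Zg e π x y (e (Sum.inr (π (f, s, i)))) = (bif s then y else x) f i := by
  have h0 : ∀ c : Bool, c = decide (c = true) := by decide
  rw [h0 ((bif s then y else x) f i)]
  unfold Zg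
  rw [decide_eq_decide]
  constructor
  · rintro (⟨l', j', h1, h2⟩ | ⟨v', i', h1, h2⟩ | ⟨v', i', h1, h2⟩)
    · exact absurd (he h1) (by simp)
    · have h3 := hπ (Sum.inr_injective (he h1))
      simp only [Prod.mk.injEq] at h3
      rw [← h3.1, ← h3.2.1, ← h3.2.2]
      exact h2
    · have h3 := hπ (Sum.inr_injective (he h1))
      simp only [Prod.mk.injEq] at h3
      rw [← h3.1, ← h3.2.1, ← h3.2.2]
      exact h2
  · intro h1
    cases s
    · exact Or.inr (Or.inl ⟨f, i, rfl, h1⟩)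
    · exact Or.inr (Or.inr ⟨f, i, rfl, h1⟩)

/-- a clause is false on a rectangle -/
lemma fals_Zg (he : Function.Injective e) {π : Lab E → Fin (M + 1)} (hπ : Function.Injective π)
    {x y : E → B} {w : V} {ξ : Bool → E → B} {P : Lab E → Fin (M + 1)} :
    Fals (clw a b e w ξ P) (Zg e π x y) ↔
      ((∀ f ∈ bd a b {w}, ∀ s i, P (f, s, i) = π (f, s, i)) ∧
        ∀ f ∈ bd a b {w}, ξ false f = x f) ∧ ∀ f ∈ bd a b {w}, ξ true f = y f := by
  rw [fals_clw]
  simp only [Zg_inl e he]
  constructor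
  · intro hf
    have hP : ∀ f ∈ bd a b {w}, ∀ s i, P (f, s, i) = π (f, s, i) :=
      fun f hf' s i => thr_eq (hf f hf' s i).2
    have hv : ∀ f ∈ bd a b {w}, ∀ s, ξ s f = (bif s then y else x) f := by
      intro f hf' s
      funext i
      have h1 := (hf f hf' s i).1
      rw [hP f hf' s i, Zg_inr e he hπ] at h1
      exact h1.symm
    exact ⟨⟨hP, fun f hf' => hv f hf' false⟩, fun f hf' => hv f hf' true⟩
  · rintro ⟨⟨hP, hx⟩, hy⟩ f hf s i
    rw [hP f hf s i, Zg_inr e he hπ]
    refine ⟨?_, thr_self⟩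
    cases s
    · rw [hx f hf]
      rfl
    · rw [hy f hf]
      rfl

/-- the cells of the bits of one side -/
def liv (π : Lab E → Fin (M + 1)) (s : Bool) : Finset T :=
  (univ : Finset (E × Fin 12)).image fun p => e (Sum.inr (π (p.1, s, p.2)))

omit [Fintype V] [DecidableEq E] in
lemma ts_congr {R : Type*} [CommRing R] {w0 w : V} {s s' : E → R}
    (h : ∀ f ∈ bd a b {w}, s f = s' f) : ts a b w0 s {w} = ts a b w0 s' {w} := by
  unfold ts
  rw [Finset.prod_congr rfl h]

omit [Fintype V] [DecidableEq E] in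
lemma ts_cast {R : Type*} [CommRing R] {w0 : V} {U : Finset V} (x y : E → B) :
    ((ts a b w0 (fun f => (hh (x f) (y f) : ℤ)) U : ℤ) : R) =
      ts a b w0 (fun f => (hh (x f) (y f) : R)) U := by
  unfold ts
  push_cast
  congr 1
  exact Finset.prod_congr rfl fun f _ => hh_cast _ _

theorem fml_lower (he : Function.Injective e) {K : Type*} [Field K] (h2 : (2 : K) ≠ 0)
    {w0 : V} {r t : ℕ} (ht : ∀ U : Finset V, U.card = r → ((bd a b U)ᶜ).card ≤ t)
    (hc : ∀ U : Finset V, U.Nonempty → U.card ≤ r → (bd a b U).Nonempty)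
    {π : Lab E → Fin (M + 1)} (hπ : Function.Injective π) (N : ℕ)
    (g : Finset (T × Bool) → (T → Bool) → K)
    (hr : ∀ Z : (E → B) → (E → B) → T → Bool,
      (∀ v ∉ liv e π false, ∀ x x' y, Z x y v = Z x' y v) →
      (∀ v ∉ liv e π true, ∀ x y y', Z x y v = Z x y' v) →
      ∀ C ∈ fml a b e w0, Rk N (fun x y => g C (Z x y)))
    (hsum : ∀ x, (∀ v ∉ Set.range e, x v = false) →
      ∑ C ∈ fml a b e w0 with Fals C x, g C x = 1) :
    4095 ^ Fintype.card E ≤ (fml a b e w0).card * (N * (2 ^ Fintype.card V * 4096 ^ t)) := by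
  classical
  have hex : ∀ C : Finset (T × Bool), ∃ i : V × (Bool → E → B) × (Lab E → Fin (M + 1)),
      C ∈ fml a b e w0 → vio a b w0 i.2.1 i.1 ∧ clw a b e i.1 i.2.1 i.2.2 = C := by
    intro C
    by_cases hC : C ∈ fml a b e w0
    · obtain ⟨w, ξ, P, h1, h2⟩ := (mem_fml a b e).mp hC
      exact ⟨⟨w, ξ, P⟩, fun _ => ⟨h1, h2⟩⟩
    · exact ⟨⟨w0, fun _ _ _ => false, fun _ => 0⟩, fun hc => absurd hc hC⟩
  choose φ hφ using hex
  refine core (K := K) a b h2 (w0 := w0) ht hc (fml a b e w0)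
    (fun C x => if ((∀ f ∈ bd a b {(φ C).1}, ∀ s i, (φ C).2.2 (f, s, i) = π (f, s, i)) ∧
      ∀ f ∈ bd a b {(φ C).1}, (φ C).2.1 false f = x f) then 1 else 0)
    (fun C y => if ∀ f ∈ bd a b {(φ C).1}, (φ C).2.1 true f = y f then 1 else 0)
    (fun C x y => g C (Zg e π x y)) N ?_ ?_ ?_
  · refine fun C hC => hr (Zg e π) ?_ ?_ C hC
    · intro v hv x x' y
      unfold Zg
      rw [decide_eq_decide]
      have h1 : ∀ x'' : E → B,
          ¬ ∃ f i, e (Sum.inr (π (f, false, i))) = v ∧ x'' f i = true := by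
        rintro x'' ⟨f, i, rfl, -⟩
        exact hv (Finset.mem_image.mpr ⟨(f, i), mem_univ _, rfl⟩)
      simp only [h1, false_or]
    · intro v hv x y y'
      unfold Zg
      rw [decide_eq_decide]
      have h1 : ∀ x'' : E → B,
          ¬ ∃ f i, e (Sum.inr (π (f, true, i))) = v ∧ x'' f i = true := by
        rintro x'' ⟨f, i, rfl, -⟩
        exact hv (Finset.mem_image.mpr ⟨(f, i), mem_univ _, rfl⟩)
      simp only [h1, or_false]
  · intro C hC
    obtain ⟨h1, -⟩ := hφ C hC
    refine ⟨(φ C).1, fun x y hne => ?_⟩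
    have hx : ∀ f ∈ bd a b {(φ C).1}, (φ C).2.1 false f = x f := by
      by_contra hc
      refine hne ?_
      rw [if_neg (fun h3 => hc h3.2), zero_mul]
    have hy : ∀ f ∈ bd a b {(φ C).1}, (φ C).2.1 true f = y f := by
      by_contra hc
      refine hne ?_
      rw [if_neg hc, mul_zero]
    unfold vio at h1
    have h4 := congrArg (fun z : ℤ => (z : K)) h1
    simp only [Int.cast_neg, Int.cast_one] at h4
    rw [ts_cast] at h4
    rw [← h4]
    refine ts_congr a b fun f hf => ?_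
    rw [hx f hf, hy f hf]
  · intro x y
    have h0 := hsum (Zg e π x y) (fun v hv => by
      unfold Zg
      rw [decide_eq_false_iff_not]
      rintro (⟨l, j, h1, -⟩ | ⟨f, i, h1, -⟩ | ⟨f, i, h1, -⟩)
      · exact hv ⟨_, h1⟩
      · exact hv ⟨_, h1⟩
      · exact hv ⟨_, h1⟩)
    rw [Finset.sum_filter] at h0
    refine Eq.trans ?_ h0
    refine Finset.sum_congr rfl fun C hC => ?_
    obtain ⟨-, h1⟩ := hφ C hC
    have h2 := fals_Zg a b e he hπ (x := x) (y := y) (w := (φ C).1) (ξ := (φ C).2.1)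
      (P := (φ C).2.2)
    rw [h1] at h2
    simp only [ite_mul, one_mul, zero_mul]
    rw [← ite_and]
    by_cases h3 : Fals C (Zg e π x y)
    · rw [if_pos h3, if_pos (h2.mp h3)]
    · rw [if_neg h3, if_neg (fun hc => h3 (h2.mpr hc))]

end

end Pool.Agent.J4H24.D3
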