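import Mathlib

/-!
# A graph of bounded degree all of whose bisections cut almost half of the edges
-/

namespace Pool.Agent.J4H24.D3

open Finset

variable {v : ℕ}

/-- the number of elements of `U` that are mapped to `U` -/
def jj (σ : Equiv.Perm (Fin v)) (U : Finset (Fin v)) : ℕ := (U.filter fun w => σ w ∈ U).card

lemma jj_eq (σ : Equiv.Perm (Fin v)) (U : Finset (Fin v)) :
    jj σ U = (U.map σ.toEmbedding ∩ U).card := by
  unfold jj
  rw [← Finset.card_map σ.toEmbedding]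
  congr 1
  ext w
  simp only [Finset.mem_map, Finset.mem_filter, Finset.mem_inter, Equiv.coe_toEmbedding]
  constructor
  · rintro ⟨u, ⟨h1, h2⟩, rfl⟩
    exact ⟨⟨u, h1, rfl⟩, h2⟩
  · rintro ⟨⟨u, h1, rfl⟩, h2⟩
    exact ⟨u, ⟨h1, h2⟩, rfl⟩

lemma exists_perm {U T : Finset (Fin v)} (h : T.card = U.card) :
    ∃ τ : Equiv.Perm (Fin v), U.map τ.toEmbedding = T := by
  have hc : Fintype.card {x // x ∈ U} = Fintype.card {x // x ∈ T} := by
    rw [Fintype.card_coe, Fintype.card_coe, h]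
  obtain ⟨e⟩ : Nonempty ({x // x ∈ U} ≃ {x // x ∈ T}) := Fintype.card_eq.mp hc
  refine ⟨e.extendSubtype, Finset.eq_of_subset_of_card_le ?_ (by rw [Finset.card_map, h])⟩
  intro w hw
  obtain ⟨u, hu, rfl⟩ := Finset.mem_map.mp hw
  exact e.extendSubtype_mem u hu

lemma sum_symm {U T : Finset (Fin v)} (h : T.card = U.card) (F : Finset (Fin v) → ℝ) :
    ∑ σ : Equiv.Perm (Fin v), F (T.map σ.toEmbedding) =
      ∑ σ : Equiv.Perm (Fin v), F (U.map σ.toEmbedding) := by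
  obtain ⟨τ, rfl⟩ := exists_perm h
  rw [← Equiv.sum_comp (Equiv.mulRight τ) fun σ => F (U.map σ.toEmbedding)]
  refine Finset.sum_congr rfl fun σ _ => ?_
  rw [Finset.map_map]
  rfl

lemma sum_map (σ : Equiv.Perm (Fin v)) (r : ℕ) (F : Finset (Fin v) → ℝ) :
    ∑ T ∈ powersetCard r univ, F (T.map σ.toEmbedding) = ∑ T ∈ powersetCard r univ, F T := by
  refine Finset.sum_equiv (Equiv.finsetCongr σ) ?_ fun T _ => rfl
  intro T
  rw [Finset.mem_powersetCard, Finset.mem_powersetCard, Equiv.finsetCongr_apply, Finset.card_map]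
  simp

lemma sum_inter (U : Finset (Fin v)) (l : ℝ) :
    ∑ T : Finset (Fin v), l ^ (T ∩ U).card = 2 ^ (v - U.card) * (1 + l) ^ U.card := by
  have h1 : ∀ T : Finset (Fin v), l ^ (T ∩ U).card = ∏ w ∈ T, (if w ∈ U then l else 1) := by
    intro T
    rw [Finset.prod_ite, Finset.prod_const_one, mul_one, Finset.prod_const,
      Finset.filter_mem_eq_inter]
  simp only [h1]
  rw [← Finset.powerset_univ, ← Finset.prod_one_add]
  have h2 : ∀ w : Fin v, (1 + if w ∈ U then l else 1 : ℝ) = if w ∈ U then 1 + l else 2 := by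
    intro w
    split_ifs <;> norm_num
  simp only [h2]
  rw [Finset.prod_ite, Finset.prod_const, Finset.prod_const, Finset.filter_mem_eq_inter,
    Finset.univ_inter, mul_comm]
  congr 2
  have h3 : (univ.filter fun w => w ∉ U) = Uᶜ := by
    ext w
    simp
  rw [h3, Finset.card_compl, Fintype.card_fin]

lemma choose_ge {r : ℕ} (hr : 0 < r) : 4 ^ r ≤ 2 * r * (2 * r + 1).choose r := by
  have h1 := Nat.four_pow_le_two_mul_self_mul_centralBinom r hr
  refine h1.trans (Nat.mul_le_mul_left _ ?_)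
  rw [Nat.centralBinom_eq_two_mul_choose]
  exact Nat.choose_le_choose r (by omega)

/-- the exponential moment for one permutation -/
lemma moment {r : ℕ} (hr : 0 < r) {l : ℝ} (hl : 0 ≤ l) (U : Finset (Fin (2 * r + 1)))
    (hU : U.card = r) : ∑ σ : Equiv.Perm (Fin (2 * r + 1)), l ^ jj σ U ≤
      (Fintype.card (Equiv.Perm (Fin (2 * r + 1))) : ℝ) * (4 * r * ((1 + l) / 2) ^ r) := by
  obtain ⟨N, hN⟩ : ∃ N : ℝ, N = ∑ σ : Equiv.Perm (Fin (2 * r + 1)), l ^ jj σ U := ⟨_, rfl⟩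
  rw [← hN]
  have h1 : ∀ T : Finset (Fin (2 * r + 1)), T.card = r →
      ∑ σ : Equiv.Perm (Fin (2 * r + 1)), l ^ (T.map σ.toEmbedding ∩ U).card = N := by
    intro T hT
    rw [hN, sum_symm (hT.trans hU.symm) fun T => l ^ (T ∩ U).card]
    exact Finset.sum_congr rfl fun σ _ => by rw [jj_eq]
  have h2 : ((2 * r + 1).choose r : ℝ) * N = (Fintype.card (Equiv.Perm (Fin (2 * r + 1))) : ℝ) *
      ∑ T ∈ powersetCard r univ, l ^ (T ∩ U).card := by
    have h3 : ∑ T ∈ powersetCard r (univ : Finset (Fin (2 * r + 1))),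
        ∑ σ : Equiv.Perm (Fin (2 * r + 1)), l ^ (T.map σ.toEmbedding ∩ U).card =
        ((2 * r + 1).choose r : ℝ) * N := by
      rw [Finset.sum_congr rfl fun T hT => h1 T (Finset.mem_powersetCard.mp hT).2,
        Finset.sum_const, Finset.card_powersetCard, Finset.card_univ, Fintype.card_fin,
        nsmul_eq_mul]
    rw [← h3, Finset.sum_comm,
      Finset.sum_congr rfl fun σ _ => sum_map σ r fun T => l ^ (T ∩ U).card,
      Finset.sum_const, Finset.card_univ, nsmul_eq_mul]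
  have h4 : ∑ T ∈ powersetCard r (univ : Finset (Fin (2 * r + 1))), l ^ (T ∩ U).card ≤
      2 ^ (r + 1) * (1 + l) ^ r := by
    have h5 := sum_inter U l
    rw [hU, show 2 * r + 1 - r = r + 1 by omega] at h5
    rw [← h5]
    exact Finset.sum_le_sum_of_subset_of_nonneg (Finset.subset_univ _) fun T _ _ => by positivity
  have h5 : (4 : ℝ) ^ r ≤ 2 * r * (2 * r + 1).choose r := by exact_mod_cast choose_ge hr
  have hN0 : 0 ≤ N := by rw [hN]; positivity
  have h6 : (4 : ℝ) ^ r * N ≤ 2 * r * ((Fintype.card (Equiv.Perm (Fin (2 * r + 1))) : ℝ) *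
      (2 ^ (r + 1) * (1 + l) ^ r)) := by
    calc (4 : ℝ) ^ r * N ≤ 2 * r * (2 * r + 1).choose r * N := by gcongr
      _ = 2 * r * ((Fintype.card (Equiv.Perm (Fin (2 * r + 1))) : ℝ) *
          ∑ T ∈ powersetCard r univ, l ^ (T ∩ U).card) := by rw [← h2]; ring
      _ ≤ _ := by gcongr
  have e1 : (4 : ℝ) ^ r * ((Fintype.card (Equiv.Perm (Fin (2 * r + 1))) : ℝ) *
      (4 * r * ((1 + l) / 2) ^ r)) = 2 * r * ((Fintype.card (Equiv.Perm (Fin (2 * r + 1))) : ℝ) *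
      (2 ^ (r + 1) * (1 + l) ^ r)) := by
    rw [div_pow, show (4 : ℝ) = 2 * 2 by norm_num, mul_pow, pow_succ]
    field_simp
  rw [← e1] at h6
  exact le_of_mul_le_mul_left h6 (by positivity)

lemma exists_perms {r D : ℕ} (hr : 0 < r) {l : ℝ} (hl : 0 < l) :
    ∃ σ : Fin D → Equiv.Perm (Fin (2 * r + 1)), ∀ U : Finset (Fin (2 * r + 1)), U.card = r →
      l ^ (∑ i, jj (σ i) U) ≤ 2 ^ (2 * r + 1) * (4 * r * ((1 + l) / 2) ^ r) ^ D := by
  obtain ⟨N, hN⟩ : ∃ N : ℝ, N = (Fintype.card (Equiv.Perm (Fin (2 * r + 1))) : ℝ) := ⟨_, rfl⟩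
  have hN0 : 0 < N := by rw [hN]; exact_mod_cast Fintype.card_pos
  have h1 : ∑ σ : Fin D → Equiv.Perm (Fin (2 * r + 1)),
      ∑ U ∈ powersetCard r (univ : Finset (Fin (2 * r + 1))), l ^ (∑ i, jj (σ i) U) ≤
      ∑ _σ : Fin D → Equiv.Perm (Fin (2 * r + 1)),
        2 ^ (2 * r + 1) * (4 * r * ((1 + l) / 2) ^ r) ^ D := by
    rw [Finset.sum_comm]
    have h2 : ∀ U ∈ powersetCard r (univ : Finset (Fin (2 * r + 1))),
        ∑ σ : Fin D → Equiv.Perm (Fin (2 * r + 1)), l ^ (∑ i, jj (σ i) U) ≤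
        (N * (4 * r * ((1 + l) / 2) ^ r)) ^ D := by
      intro U hU
      simp only [← Finset.prod_pow_eq_pow_sum]
      rw [← Fintype.sum_pow (fun σ : Equiv.Perm (Fin (2 * r + 1)) => l ^ jj σ U) D]
      refine pow_le_pow_left₀ (by positivity) ?_ D
      rw [hN]
      exact moment hr hl.le U (Finset.mem_powersetCard.mp hU).2
    refine (Finset.sum_le_sum h2).trans ?_
    rw [Finset.sum_const, Finset.sum_const, Finset.card_powersetCard, Finset.card_univ,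
      Finset.card_univ, Fintype.card_fun, Fintype.card_fin, Fintype.card_fin, nsmul_eq_mul,
      nsmul_eq_mul]
    push_cast
    rw [← hN, mul_pow]
    have h3 : (((2 * r + 1).choose r : ℕ) : ℝ) ≤ 2 ^ (2 * r + 1) := by
      exact_mod_cast Nat.choose_le_two_pow _ _
    calc (((2 * r + 1).choose r : ℕ) : ℝ) * (N ^ D * (4 * r * ((1 + l) / 2) ^ r) ^ D)
        ≤ 2 ^ (2 * r + 1) * (N ^ D * (4 * r * ((1 + l) / 2) ^ r) ^ D) := by gcongr
      _ = _ := by ring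
  obtain ⟨σ, -, hσ⟩ := Finset.exists_le_of_sum_le (Finset.univ_nonempty) h1
  refine ⟨σ, fun U hU => le_trans ?_ hσ⟩
  exact Finset.single_le_sum (f := fun U => l ^ (∑ i, jj (σ i) U)) (fun U _ => by positivity)
    (Finset.mem_powersetCard.mpr ⟨Finset.subset_univ _, hU⟩)

lemma growth : ∃ r0 : ℕ, ∀ r ≥ r0, 0 < r ∧ 2 * (4 * (r : ℝ)) ^ 8000 < (6 / 5) ^ r := by
  have h1 := tendsto_pow_const_div_const_pow_of_one_lt 8000 (show (1 : ℝ) < 6 / 5 by norm_num)
  have h2 : (0 : ℝ) < 1 / (2 * 4 ^ 8000) := by positivity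
  have h3 := (h1.eventually (gt_mem_nhds h2)).and (Filter.eventually_gt_atTop 0)
  obtain ⟨r0, hr0⟩ := Filter.eventually_atTop.mp h3
  refine ⟨r0, fun r hr => ?_⟩
  obtain ⟨h4, h5⟩ := hr0 r hr
  refine ⟨h5, ?_⟩
  rw [div_lt_div_iff₀ (by positivity) (by positivity)] at h4
  rw [mul_pow]
  linarith

/-- all bisections cut almost half of the edges -/
theorem exists_cut : ∃ r0 : ℕ, ∀ r ≥ r0, 0 < r ∧ ∃ σ : Fin 8000 → Equiv.Perm (Fin (2 * r + 1)),
    ∀ U : Finset (Fin (2 * r + 1)), U.card = r → 100 * ∑ i, jj (σ i) U ≤ 51 * (8000 * r) := by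
  obtain ⟨r0, hr0⟩ := growth
  refine ⟨r0, fun r hr => ?_⟩
  obtain ⟨hr1, hr2⟩ := hr0 r hr
  refine ⟨hr1, ?_⟩
  obtain ⟨σ, hσ⟩ := exists_perms (D := 8000) hr1 (l := 26 / 25) (by norm_num)
  refine ⟨σ, fun U hU => ?_⟩
  by_contra hc
  rw [not_le] at hc
  have h1 := hσ U hU
  obtain ⟨J, hJ⟩ : ∃ J, J = ∑ i, jj (σ i) U := ⟨_, rfl⟩
  rw [← hJ] at h1 hc
  have e0 : ((1 + 26 / 25) / 2 : ℝ) = 51 / 50 := by norm_num
  rw [e0, mul_pow, ← pow_mul] at h1
  have h2 : ((51 / 50 : ℝ) ^ 101) ^ (8000 * r) ≤ ((26 / 25 : ℝ) ^ 51) ^ (8000 * r) :=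
    pow_le_pow_left₀ (by norm_num) (by norm_num) _
  have h3 : ((26 / 25 : ℝ) ^ 51) ^ (8000 * r) ≤ ((26 / 25 : ℝ) ^ J) ^ 100 := by
    rw [← pow_mul, ← pow_mul]
    exact pow_le_pow_right₀ (by norm_num) (by omega)
  have h4 : ((26 / 25 : ℝ) ^ J) ^ 100 ≤
      (2 ^ (2 * r + 1) * ((4 * r : ℝ) ^ 8000 * (51 / 50) ^ (r * 8000))) ^ 100 :=
    pow_le_pow_left₀ (by positivity) h1 _
  have h5 := h2.trans (h3.trans h4)
  have e1 : ((51 / 50 : ℝ) ^ 101) ^ (8000 * r) =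
      (((51 / 50 : ℝ) ^ 80) ^ r * (51 / 50) ^ (r * 8000)) ^ 100 := by
    rw [← pow_mul, ← pow_mul, ← pow_add, ← pow_mul]
    congr 1
    ring
  rw [e1] at h5
  have h6 := le_of_pow_le_pow_left₀ (by norm_num) (by positivity) h5
  have h7 : ((51 / 50 : ℝ) ^ 80) ^ r ≤ 2 ^ (2 * r + 1) * (4 * r : ℝ) ^ 8000 := by
    rw [← mul_assoc] at h6
    exact le_of_mul_le_mul_right h6 (by positivity)
  have h8 : ((24 / 5 : ℝ)) ^ r ≤ ((51 / 50 : ℝ) ^ 80) ^ r :=
    pow_le_pow_left₀ (by norm_num) (by norm_num) _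
  have h9 : (24 / 5 : ℝ) ^ r = 4 ^ r * (6 / 5) ^ r := by
    rw [← mul_pow]
    norm_num
  have h10 : (2 : ℝ) ^ (2 * r + 1) = 4 ^ r * 2 := by
    rw [pow_succ, pow_mul]
    norm_num
  rw [h10] at h7
  rw [h9] at h8
  have h11 : (4 : ℝ) ^ r * (6 / 5) ^ r ≤ 4 ^ r * (2 * (4 * r) ^ 8000) := by
    refine (h8.trans h7).trans (le_of_eq ?_)
    ring
  have h12 := le_of_mul_le_mul_left h11 (by positivity)
  linarith

end Pool.Agent.J4H24.D3
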