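import Pool.Agent.J4H24.NS.Defs

/-!
# The coefficients: products of three kinds of functions of the variables
-/

namespace Pool.Agent.J4H24.D3

open Pool.Agent.J4H24.NS

/-- The function `h` of the Boolean assignments depends only on the variables in `S`. -/
def Dep {V K : Type*} (S : Set V) (h : (V → Bool) → K) : Prop :=
  ∀ x y : V → Bool, (∀ v ∈ S, x v = y v) → h x = h y

/-- For every set `S` of variables, `h` is a sum of two products, each of a function that depends
only on the variables in `S` and a function that depends only on the other variables. For example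
`h` may be an affine form, or a product of functions of one variable, or a sum of two such
products. -/
def Two {V K : Type*} [Field K] (h : (V → Bool) → K) : Prop :=
  ∀ S : Set V, ∃ a a' b b' : (V → Bool) → K, Dep S a ∧ Dep S a' ∧ Dep Sᶜ b ∧ Dep Sᶜ b' ∧
    ∀ x, h x = a x * b x + a' x * b' x

/-- The function `g` is a product of a function that is computed by an oblivious algebraic branching
program of width `W` that reads the variables in the order of the list `s`, and of arbitrary
functions of at most `β` variables each, every variable occurring in at most `k` of them. -/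
def Few (K : Type*) [Field K] {n : ℕ} (β : ℝ) (k W : ℕ) (s : List (Fin n))
    (g : (Fin n → Bool) → K) : Prop :=
  ∃ (o : (Fin n → Bool) → K) (c : ℕ) (P : Fin c → Finset (Fin n))
    (p : Fin c → (Fin n → Bool) → K),
    OBP K W s o ∧
    (∀ i, Dep (P i : Set (Fin n)) (p i) ∧ ((P i).card : ℝ) ≤ β) ∧
    (∀ v, (Finset.univ.filter fun i => v ∈ P i).card ≤ k) ∧
    ∀ x, g x = o x * ∏ i, p i x

/-- The function `g` is a product of functions with the property `Two` with pairwise disjoint sets of
variables. -/
def Pro (K : Type*) [Field K] {n : ℕ} (g : (Fin n → Bool) → K) : Prop :=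
  ∃ (d : ℕ) (Q : Fin d → Finset (Fin n)) (q : Fin d → (Fin n → Bool) → K),
    (∀ j, Dep (Q j : Set (Fin n)) (q j) ∧ Two (q j)) ∧
    (∀ v, (Finset.univ.filter fun j => v ∈ Q j).card ≤ 1) ∧
    ∀ x, g x = ∏ j, q j x

/-- a product of functions of the two kinds -/
def Tm (K : Type*) [Field K] {n : ℕ} (β : ℝ) (k W : ℕ) (s : List (Fin n))
    (g : (Fin n → Bool) → K) : Prop :=
  ∃ g1 g2 : (Fin n → Bool) → K, Few K β k W s g1 ∧ Pro K g2 ∧ ∀ x, g x = g1 x * g2 x

end Pool.Agent.J4H24.D3
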