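import Pool.Agent.J4H24.D3.Defs

/-!
# Examples of functions with the property `Two`
-/

namespace Pool.Agent.J4H24.D3

open Finset

variable {K : Type*} [Field K] {n : ℕ}

lemma dep_sum (S : Set (Fin n)) [DecidablePred (· ∈ S)] (f : Fin n → Bool → K) :
    Dep S fun x => ∑ v ∈ univ.filter (· ∈ S), f v (x v) := fun x y h =>
  Finset.sum_congr rfl fun v hv => by rw [h v (Finset.mem_filter.mp hv).2]

lemma dep_prod (S : Set (Fin n)) [DecidablePred (· ∈ S)] (f : Fin n → Bool → K) :
    Dep S fun x => ∏ v ∈ univ.filter (· ∈ S), f v (x v) := fun x y h =>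
  Finset.prod_congr rfl fun v hv => by rw [h v (Finset.mem_filter.mp hv).2]

omit [Field K] in
lemma dep_const (S : Set (Fin n)) (c : K) : Dep S fun _ => c := fun _ _ _ => rfl

/-- sums of functions of one variable, in particular affine forms -/
theorem two_sum (c : K) (f : Fin n → Bool → K) : Two fun x => c + ∑ v, f v (x v) := by
  classical
  intro S
  refine ⟨fun x => ∑ v ∈ univ.filter (· ∈ S), f v (x v), fun _ => 1, fun _ => 1,
    fun x => c + ∑ v ∈ univ.filter (· ∈ Sᶜ), f v (x v), dep_sum S f, dep_const S 1,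
    dep_const _ 1, fun x y h => ?_, fun x => ?_⟩
  · exact congrArg (c + ·) (dep_sum Sᶜ f x y h)
  · beta_reduce
    rw [← Finset.sum_filter_add_sum_filter_not univ (· ∈ S) fun v => f v (x v)]
    simp only [Set.mem_compl_iff]
    ring

/-- sums of two products of functions of one variable -/
theorem two_prod (f f' : Fin n → Bool → K) :
    Two fun x => ∏ v, f v (x v) + ∏ v, f' v (x v) := by
  classical
  intro S
  refine ⟨fun x => ∏ v ∈ univ.filter (· ∈ S), f v (x v),
    fun x => ∏ v ∈ univ.filter (· ∈ S), f' v (x v),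
    fun x => ∏ v ∈ univ.filter (· ∈ Sᶜ), f v (x v),
    fun x => ∏ v ∈ univ.filter (· ∈ Sᶜ), f' v (x v), dep_prod S f, dep_prod S f',
    dep_prod _ f, dep_prod _ f', fun x => ?_⟩
  beta_reduce
  rw [← Finset.prod_filter_mul_prod_filter_not univ (· ∈ S) fun v => f v (x v),
    ← Finset.prod_filter_mul_prod_filter_not univ (· ∈ S) fun v => f' v (x v)]
  simp only [Set.mem_compl_iff]

end Pool.Agent.J4H24.D3
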