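import Pool.Agent.J4H24.D3.Main

/-!
# The main theorem, over every field
-/

namespace Pool.Agent.J4H24.D3

open Finset Pool.Agent.J4H24.NS

/-- the arithmetic -/
lemma arith2 (w : ℕ) {ε : ℝ} (hε : 0 < ε) : ∃ N0 : ℕ, ∀ n ≥ N0,
    (1 : ℝ) ≤ n ∧ (100000 : ℝ) ≤ (n : ℝ) ^ (ε / 40) ∧
    w * (Real.log 3 + Real.log n) + ((n : ℝ) ^ (ε / 40)) ^ 2 * Real.log 2 + 2 ≤
      (4 * ((n : ℝ) ^ (ε / 40)) ^ 2 - 8) * Real.log 2 ∧
    Real.log 3 + w * (Real.log 3 + Real.log n) + ((n : ℝ) ^ (ε / 40)) ^ 2 * Real.log 2 +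
      ((n : ℝ) ^ (ε / 40)) ^ 3 / 2 * Real.log 2 <
      (((n : ℝ) ^ (ε / 40)) ^ 3 - 1) * Real.log 2 := by
  obtain ⟨c, hc⟩ : ∃ c : ℝ, c = w * (2 + 40 / ε) + 2 := ⟨_, rfl⟩
  have hc0 : 2 ≤ c := by
    rw [hc]
    have : 0 ≤ w * (2 + 40 / ε) := by positivity
    linarith
  have e1 : ∀ᶠ x : ℝ in Filter.atTop, 1000 * (c + 1) + 100000 ≤ x ^ (ε / 40) :=
    (tendsto_rpow_atTop (by positivity)).eventually_ge_atTop _
  obtain ⟨x0, hx0⟩ := Filter.eventually_atTop.mp (e1.and (Filter.eventually_ge_atTop 1))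
  refine ⟨⌈x0⌉₊, fun n hn => ?_⟩
  obtain ⟨h1, h2⟩ := hx0 n (Nat.ceil_le.mp hn)
  obtain ⟨y, hy⟩ : ∃ y : ℝ, y = (n : ℝ) ^ (ε / 40) := ⟨_, rfl⟩
  rw [← hy] at h1 ⊢
  have hy1 : 100000 ≤ y := by linarith
  have hy2 : 1000 * (c + 1) ≤ y := by linarith
  have hlog : Real.log n ≤ 40 / ε * y := by
    have h3 := Real.log_le_rpow_div (x := (n : ℝ)) (by linarith) (show 0 < ε / 40 by positivity)
    rw [← hy] at h3
    refine h3.trans (le_of_eq ?_)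
    field_simp
  have hlog3 : Real.log 3 ≤ 2 := by
    have := Real.log_le_sub_one_of_pos (show (0 : ℝ) < 3 by norm_num)
    linarith
  have hlog2' : (1 / 2 : ℝ) ≤ Real.log 2 := by
    have := Real.log_two_gt_d9
    linarith
  have hlog2 : Real.log 2 ≤ 1 := by
    have := Real.log_le_sub_one_of_pos (show (0 : ℝ) < 2 by norm_num)
    linarith
  have h4 : (w : ℝ) * (Real.log 3 + Real.log n) ≤ (c - 2) * y := by
    have h5 : Real.log 3 + Real.log n ≤ (2 + 40 / ε) * y := by nlinarith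
    calc (w : ℝ) * (Real.log 3 + Real.log n) ≤ w * ((2 + 40 / ε) * y) := by gcongr
      _ = (c - 2) * y := by rw [hc]; ring
  have h6 : 1000 * (c + 1) * y ≤ y ^ 2 := by nlinarith
  have h7 : 100000 * y ^ 2 ≤ y ^ 3 := by
    calc 100000 * y ^ 2 ≤ y * y ^ 2 := by gcongr
      _ = y ^ 3 := by ring
  refine ⟨h2, hy1, ?_, ?_⟩
  · nlinarith
  · nlinarith

/-- the main theorem -/
theorem main : ∃ w : ℕ, ∀ ε : ℝ, 0 < ε → ε ≤ 1 → ∃ N0 : ℕ, ∀ n ≥ N0,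
    ∃ F : Finset (Finset (Fin n × Bool)),
    (∀ C ∈ F, C.card ≤ w) ∧ F.card ≤ (2 * n + 1) ^ w ∧ (∀ x, ∃ C ∈ F, Fals C x) ∧
    ∀ (K : Type*) [Field K] (k κ ℓ s W : ℕ),
      (k : ℝ) ≤ (n : ℝ) ^ (ε / 40) → (4 : ℝ) ^ (κ * ℓ) ≤ (n : ℝ) ^ (ε / 40) →
      ∀ S : Fin ℓ → List (Fin n), (∀ j v, (S j).count v ≤ κ) →
      ∀ g : Finset (Fin n × Bool) → Fin s → (Fin n → Bool) → K,
        (∀ C ∈ F, ∀ i, ∃ (j : Fin ℓ) (g1 g2 : (Fin n → Bool) → K),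
          Few K ((n : ℝ) ^ (1 - ε)) k W (S j) g1 ∧ Pro K g2 ∧ ((2 : K) = 0 → ∀ x, g2 x = 1) ∧
          ∀ x, g C i x = g1 x * g2 x) →
        (∀ x, ∑ C ∈ F with Fals C x, ∑ i, g C i x = 1) →
        (2 : ℝ) ^ ((n : ℝ) ^ (ε / 20)) ≤ s * (W : ℝ) ^ (2 * κ + 3) := by
  obtain ⟨D, hD⟩ : ∃ D, D = 8000 := ⟨_, rfl⟩
  obtain ⟨r0, hr0⟩ := exists_graph hD
  obtain ⟨w, hw⟩ : ∃ w, w = 2 * (D + 1) * 72 + 36 := ⟨_, rfl⟩
  refine ⟨w, fun ε hε hε1 => ?_⟩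
  obtain ⟨N0, hN0⟩ := arith (2 * w) r0 hε
  obtain ⟨N1, hN1⟩ := arith2 (2 * w) hε
  refine ⟨max N0 N1, fun n hn => ?_⟩
  obtain ⟨hn1, hz1, hz2, ha1, ha2⟩ := hN0 n (le_of_max_le_left hn)
  obtain ⟨-, hy1, ha3, ha4⟩ := hN1 n (le_of_max_le_right hn)
  obtain ⟨y, hy⟩ : ∃ y : ℝ, y = (n : ℝ) ^ (ε / 40) := ⟨_, rfl⟩
  have hn0 : (0 : ℝ) < n := by linarith
  have hzy : (n : ℝ) ^ (ε / 20) = y ^ 2 := by
    rw [hy, ← Real.rpow_natCast, ← Real.rpow_mul hn0.le]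
    congr 1
    push_cast
    ring
  have hy40 : (n : ℝ) ^ ε = y ^ 40 := by
    rw [hy, ← Real.rpow_natCast, ← Real.rpow_mul hn0.le]
    congr 1
    push_cast
    ring
  have hyn : y ^ 40 ≤ n := by
    rw [← hy40]
    calc (n : ℝ) ^ ε ≤ (n : ℝ) ^ (1 : ℝ) := Real.rpow_le_rpow_of_exponent_le hn1 hε1
      _ = n := Real.rpow_one _
  have hn1e : (n : ℝ) ^ (1 - ε) * y ^ 40 = n := by
    rw [← hy40, ← Real.rpow_add hn0]
    simp
  rw [← hy] at hy1 ha3 ha4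
  rw [hzy] at hz1 hz2 ha1 ha2
  obtain ⟨z, hz⟩ : ∃ z : ℝ, z = y ^ 2 := ⟨_, rfl⟩
  rw [← hz] at hz1 hz2 ha1 ha2
  have hyz : y ≤ z := by rw [hz]; nlinarith
  have hzn : z ^ 20 ≤ n := by
    rw [hz, ← pow_mul]
    exact hyn
  have hn1e' : (n : ℝ) ^ (1 - ε) * z ^ 20 = n := by
    rw [hz, ← pow_mul]
    exact hn1e
  have hy0 : 0 < y := by linarith
  have hz0 : 0 < z := by linarith
  -- the first formula
  obtain ⟨r, hr⟩ : ∃ r, r = ⌊z ^ 5⌋₊ := ⟨_, rfl⟩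
  have hr1 : (r : ℝ) ≤ z ^ 5 := by rw [hr]; exact Nat.floor_le (by positivity)
  have hr2 : z ^ 5 < r + 1 := by rw [hr]; exact Nat.lt_floor_add_one _
  have hz5 : z ≤ z ^ 5 := by
    calc z = z ^ 1 := (pow_one z).symm
      _ ≤ z ^ 5 := pow_le_pow_right₀ (by linarith) (by norm_num)
  have hrr0 : r0 ≤ r := by
    have : (r0 : ℝ) < r + 1 := by linarith
    have h3 : r0 < r + 1 := by exact_mod_cast this
    omega
  obtain ⟨b, hb1, hb2, hb3⟩ := hr0 r hrr0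
  obtain ⟨v, hv⟩ : ∃ v, v = 2 * r + 1 := ⟨_, rfl⟩
  have hv2 : (v : ℝ) ≤ 3 * z ^ 5 := by rw [hv]; push_cast; linarith
  obtain ⟨M1, hM1⟩ : ∃ M, n / 2 / (192024 * v + 1) = M + 1 := by
    refine ⟨n / 2 / (192024 * v + 1) - 1, ?_⟩
    have h1 : 2 * (192024 * v + 1) ≤ n := by
      have h2 : (2 * (192024 * v + 1) : ℝ) ≤ n := by
        have h3 : z ^ 20 = z ^ 15 * z ^ 5 := by ring
        have h4 : (100000 : ℝ) ^ 15 ≤ z ^ 15 := pow_le_pow_left₀ (by norm_num) hz1 _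
        have h5 : (1 : ℝ) ≤ z ^ 5 := by linarith
        nlinarith
      exact_mod_cast h2
    have h2 : 1 ≤ n / 2 / (192024 * v + 1) := by
      rw [Nat.le_div_iff_mul_le (by omega)]
      omega
    omega
  -- the second formula
  obtain ⟨h, hh⟩ : ∃ h, h + 1 = ⌊y ^ 3⌋₊ := by
    have h1 : 1 ≤ ⌊y ^ 3⌋₊ := (Nat.one_le_floor_iff _).mpr (one_le_pow₀ (by linarith))
    exact ⟨⌊y ^ 3⌋₊ - 1, by omega⟩
  have hh1 : ((h + 1 : ℕ) : ℝ) ≤ y ^ 3 := by rw [hh]; exact Nat.floor_le (by positivity)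
  have hh2 : y ^ 3 < ((h + 1 : ℕ) : ℝ) + 1 := by rw [hh]; exact Nat.lt_floor_add_one _
  obtain ⟨M2, hM2⟩ : ∃ M, n / 2 / (2 * (2 * (h + 1) ^ 4) + 1) = M + 1 := by
    refine ⟨n / 2 / (2 * (2 * (h + 1) ^ 4) + 1) - 1, ?_⟩
    have h1 : 2 * (2 * (2 * (h + 1) ^ 4) + 1) ≤ n := by
      have h2 : (2 * (2 * (2 * ((h + 1 : ℕ) : ℝ) ^ 4) + 1) : ℝ) ≤ n := by
        have h3 : ((h + 1 : ℕ) : ℝ) ^ 4 ≤ y ^ 12 := by
          calc ((h + 1 : ℕ) : ℝ) ^ 4 ≤ (y ^ 3) ^ 4 := by gcongr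
            _ = y ^ 12 := by ring
        have h4 : (1 : ℝ) ≤ y ^ 12 := one_le_pow₀ (by linarith)
        have h5 : (100000 : ℝ) ^ 28 ≤ y ^ 28 := pow_le_pow_left₀ (by norm_num) hy1 _
        have h6 : y ^ 40 = y ^ 28 * y ^ 12 := by ring
        nlinarith
      exact_mod_cast h2
    have h2 : 1 ≤ n / 2 / (2 * (2 * (h + 1) ^ 4) + 1) := by
      rw [Nat.le_div_iff_mul_le (by omega)]
      omega
    omega
  obtain ⟨e, he⟩ : ∃ e : Var (Ed D r) M1 ⊕ Vr h (2 * Fintype.card (Ver h)) M2 → Fin n,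
      Function.Injective e := by
    have h1 : Fintype.card (Var (Ed D r) M1) ≤ n / 2 := by
      refine le_trans ?_ (Nat.mul_div_le (n / 2) (192024 * v + 1))
      rw [hM1]
      simp only [Fintype.card_sum, Fintype.card_prod, Fintype.card_bool, Fintype.card_fin]
      rw [← hv, hD]
      nlinarith [Nat.zero_le v]
    have h2 : Fintype.card (Vr h (2 * Fintype.card (Ver h)) M2) ≤ n / 2 := by
      refine le_trans ?_ (Nat.mul_div_le (n / 2) (2 * (2 * (h + 1) ^ 4) + 1))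
      rw [hM2]
      simp only [Fintype.card_sum, Fintype.card_prod, Fintype.card_bool, Fintype.card_fin]
      have e1 : (h + 1) * (h + 1) * (2 * (2 * ((h + 1) * (h + 1)))) = 2 * (2 * (h + 1) ^ 4) := by
        ring
      rw [e1]
      nlinarith [Nat.zero_le ((h + 1) ^ 4)]
    have h3 : Fintype.card (Var (Ed D r) M1 ⊕ Vr h (2 * Fintype.card (Ver h)) M2) ≤
        Fintype.card (Fin n) := by
      rw [Fintype.card_sum, Fintype.card_fin n]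
      omega
    obtain ⟨e⟩ := Function.Embedding.nonempty_of_card_le h3
    exact ⟨e, e.injective⟩
  obtain ⟨e1, he1⟩ : ∃ e1 : Var (Ed D r) M1 → Fin n, ∀ v, e1 v = e (Sum.inl v) :=
    ⟨_, fun _ => rfl⟩
  obtain ⟨e2, he2⟩ : ∃ e2 : Vr h (2 * Fintype.card (Ver h)) M2 → Fin n,
      ∀ v, e2 v = e (Sum.inr v) := ⟨_, fun _ => rfl⟩
  have hi1 : Function.Injective e1 := fun u v huv => by
    rw [he1, he1] at huv
    exact Sum.inl_injective (he huv)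
  have hi2 : Function.Injective e2 := fun u v huv => by
    rw [he2, he2] at huv
    exact Sum.inr_injective (he huv)
  have hR : Disjoint (Set.range e1) (Set.range e2) := by
    rw [Set.disjoint_left]
    rintro _ ⟨u, rfl⟩ ⟨v, hv⟩
    rw [he1, he2] at hv
    exact absurd (he hv) (by simp)
  obtain ⟨F1, hF1⟩ : ∃ F1, F1 = fml Prod.snd b e1 0 := ⟨_, rfl⟩
  obtain ⟨F2, hF2⟩ : ∃ F2, F2 = frm e2 := ⟨_, rfl⟩
  have hw1 : ∀ C ∈ F1, C.card ≤ 2 * (D + 1) * 72 := fun C hC =>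
    fml_width Prod.snd b e1 hb3 (hF1 ▸ hC)
  have hw2 : ∀ C ∈ F2, C.card ≤ 36 := fun C hC => frm_width e2 (hF2 ▸ hC)
  have hwidth : ∀ C ∈ prd F1 F2, C.card ≤ w := by
    rw [hw]
    exact prd_width hw1 hw2
  have hcard : ∀ F : Finset (Finset (Fin n × Bool)), (∀ C ∈ F, C.card ≤ w) →
      F.card ≤ (2 * n + 1) ^ w := fun F hF => by
    have h3 := card_small _ w hF
    rw [Fintype.card_prod, Fintype.card_fin, Fintype.card_bool] at h3
    rwa [mul_comm 2 n]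
  have hc1 := hcard F1 (fun C hC => (hw1 C hC).trans (by rw [hw]; omega))
  have hc2 := hcard F2 (fun C hC => (hw2 C hC).trans (by rw [hw]; omega))
  have hc3 := hcard _ hwidth
  have hcc : ∀ F : Finset (Finset (Fin n × Bool)), F.card ≤ (2 * n + 1) ^ w →
      ((F.card * (prd F1 F2).card : ℕ) : ℝ) ≤ (3 * n) ^ (2 * w) := by
    intro F hF
    have h3 : F.card * (prd F1 F2).card ≤ (2 * n + 1) ^ (2 * w) := by
      rw [two_mul w, pow_add]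
      exact Nat.mul_le_mul hF hc3
    have h4 : ((F.card * (prd F1 F2).card : ℕ) : ℝ) ≤ (2 * n + 1) ^ (2 * w) := by
      exact_mod_cast h3
    exact h4.trans (pow_le_pow_left₀ (by positivity) (by linarith) _)
  refine ⟨prd F1 F2, hwidth, hc3, fun x => prd_unsat
    (by rw [hF1]; exact fml_unsat Prod.snd b e1 0 x) (by rw [hF2]; exact frm_unsat e2 x), ?_⟩
  intro K _ k κ ℓ s W hk hκ S hS g hg hsum
  rw [← hy] at hk hκ
  rw [hzy]
  by_contra hlt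
  rw [not_le] at hlt
  -- the programs have positive width
  have hW : 1 ≤ W := by
    by_contra hW
    have hW0 : W = 0 := by omega
    subst hW0
    have h1 := hsum (fun _ => false)
    rw [Finset.sum_eq_zero] at h1
    · exact zero_ne_one h1
    · intro C hC
      refine Finset.sum_eq_zero fun i _ => ?_
      obtain ⟨j, g1, g2, ⟨o, c, P, p, ⟨Mo, u, v', -, ho⟩, -, -, hg1⟩, -, -, hgi⟩ :=
        hg C (Finset.mem_filter.mp hC).1 i
      rw [hgi, hg1, ho]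
      simp
  have hcι : Fintype.card ({C // C ∈ prd F1 F2} × Fin s) = (prd F1 F2).card * s := by
    rw [Fintype.card_prod, Fintype.card_coe, Fintype.card_fin]
  by_cases h2 : (2 : K) = 0
  · have hr1' : ∀ C ∈ F1, ∀ l ∈ C, l.1 ∈ Set.range e1 := fun C hC l hl =>
      fml_range (hF1 ▸ hC) hl
    obtain ⟨g', hg', hs'⟩ := split_sum (F1 := F2) (F2 := F1) hr1' hR.symm g
      (by rw [prd_comm]; exact hsum) (fun f => ∃ j, Few K ((n : ℝ) ^ (1 - ε)) k W (S j) f)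
      (by
        intro C hC i
        rw [prd_comm] at hC
        obtain ⟨j, g1, g2, h3, -, h4, h5⟩ := hg C hC i
        refine ⟨j, ?_⟩
        have h6 : g C i = g1 := by
          funext x
          rw [h5, h4 h2, mul_one]
        rw [h6]
        exact h3)
      (fun f c ⟨j, hj⟩ => ⟨j, few_smul c hj⟩)
    subst hF2
    have hcι' : Fintype.card ({C // C ∈ prd (frm e2) F1} × Fin s) =
        (prd F1 (frm e2)).card * s := by
      rw [Fintype.card_prod, Fintype.card_coe, Fintype.card_fin, prd_comm]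
    exact peb_part e2 hi2 hn0 hyn hn1e hy1 ha3 ha4 hh1 hh2 hM2 hcι' hk hκ S hS g' hg' hs'
      (hcc _ hc2) hlt hW
  · have hr2' : ∀ C ∈ F2, ∀ l ∈ C, l.1 ∈ Set.range e2 := fun C hC l hl =>
      frm_range (hF2 ▸ hC) hl
    obtain ⟨g', hg', hs'⟩ := split_sum (F1 := F1) (F2 := F2) hr2' hR g hsum
      (fun f => ∃ j, Tm K ((n : ℝ) ^ (1 - ε)) k W (S j) f)
      (by
        intro C hC i
        obtain ⟨j, g1, g2, h3, h4, -, h5⟩ := hg C hC i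
        exact ⟨j, g1, g2, h3, h4, h5⟩)
      (fun f c ⟨j, hj⟩ => ⟨j, tm_smul c hj⟩)
    subst hF1
    have hlt' : s * (W : ℝ) ^ (2 * κ + 3) < (2 : ℝ) ^ (z ^ 2) := by
      refine hlt.trans_le ?_
      refine Real.rpow_le_rpow_of_exponent_le (by norm_num) ?_
      rw [← hz]
      nlinarith
    rw [hv] at hM1
    exact tse_part hD b hb1 hb2 e1 hi1 hn0 hzn hn1e' hz1 ha1 ha2 hr1 hr2 hM1 h2 hcι
      (hk.trans hyz) (hκ.trans hyz) S hS g' hg' hs' (hcc _ hc1) hlt' hW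

end Pool.Agent.J4H24.D3
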