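import Pool.Agent.J4H24.D3.Tse

/-!
# The graph
-/

namespace Pool.Agent.J4H24.D3

open Finset

/-- the edges -/
abbrev Ed (D r : ℕ) := Fin (D + 1) × Fin (2 * r + 1)

/-- the permutations: a cycle and the given ones -/
def tau {D r : ℕ} (σ : Fin D → Equiv.Perm (Fin (2 * r + 1))) :
    Fin (D + 1) → Equiv.Perm (Fin (2 * r + 1)) :=
  Fin.cons (finRotate (2 * r + 1)) σ

/-- the second end of an edge -/
def eb {D r : ℕ} (σ : Fin D → Equiv.Perm (Fin (2 * r + 1))) (e : Ed D r) : Fin (2 * r + 1) :=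
  tau σ e.1 e.2

variable {D r : ℕ}

lemma card_same (τ : Equiv.Perm (Fin (2 * r + 1))) {U : Finset (Fin (2 * r + 1))}
    (hU : U.card = r) : (univ.filter fun w => (w ∈ U ↔ τ w ∈ U)).card ≤ 1 + 2 * jj τ U := by
  have h1 : (univ.filter fun w => (w ∈ U ↔ τ w ∈ U)) ⊆
      (U.filter fun w => τ w ∈ U) ∪ (U ∪ univ.filter fun w => τ w ∈ U)ᶜ := by
    intro w hw
    have h2 := (Finset.mem_filter.mp hw).2
    by_cases h3 : w ∈ U
    · exact Finset.mem_union_left _ (Finset.mem_filter.mpr ⟨h3, h2.mp h3⟩)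
    · refine Finset.mem_union_right _ ?_
      rw [Finset.mem_compl, Finset.mem_union, Finset.mem_filter]
      rintro (h4 | ⟨-, h4⟩)
      · exact h3 h4
      · exact h3 (h2.mpr h4)
  have h2 : (univ.filter fun w => τ w ∈ U).card = r := by
    refine Eq.trans ?_ hU
    rw [← Finset.card_map τ.toEmbedding]
    congr 1
    ext w
    simp only [Finset.mem_map, Finset.mem_filter, Equiv.coe_toEmbedding]
    constructor
    · rintro ⟨u, ⟨-, h3⟩, rfl⟩
      exact h3
    · intro h3
      exact ⟨τ.symm w, ⟨mem_univ _, by rwa [Equiv.apply_symm_apply]⟩, by simp⟩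
  have h3 := Finset.card_union_add_card_inter U (univ.filter fun w => τ w ∈ U)
  have h4 : (U ∩ univ.filter fun w => τ w ∈ U).card = jj τ U := by
    unfold jj
    congr 1
    ext w
    simp
  have h5 : ((U ∪ univ.filter fun w => τ w ∈ U)ᶜ).card =
      2 * r + 1 - (U ∪ univ.filter fun w => τ w ∈ U).card := by
    rw [Finset.card_compl, Fintype.card_fin]
  have h6 := Finset.card_le_univ (U ∪ univ.filter fun w => τ w ∈ U)
  rw [Fintype.card_fin] at h6
  refine (Finset.card_le_card h1).trans ((Finset.card_union_le _ _).trans ?_)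
  rw [h5]
  have h7 : (U.filter fun w => τ w ∈ U).card = jj τ U := rfl
  rw [h7]
  omega

lemma card_compl_bd (σ : Fin D → Equiv.Perm (Fin (2 * r + 1)))
    {U : Finset (Fin (2 * r + 1))} (hU : U.card = r) :
    ((bd (Prod.snd : Ed D r → _) (eb σ) U)ᶜ).card ≤ (2 * r + 1) + (D + 2 * ∑ i, jj (σ i) U) := by
  have h1 : ((bd (Prod.snd : Ed D r → _) (eb σ) U)ᶜ).card =
      ∑ i : Fin (D + 1), (univ.filter fun w => (w ∈ U ↔ tau σ i w ∈ U)).card := by
    have h2 : (bd (Prod.snd : Ed D r → _) (eb σ) U)ᶜ =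
        univ.filter fun e : Ed D r => (e.2 ∈ U ↔ tau σ e.1 e.2 ∈ U) := by
      ext e
      unfold bd eb
      simp only [Finset.mem_compl, Finset.mem_filter, mem_univ, true_and, not_not]
    rw [h2, Finset.card_filter, Fintype.sum_prod_type]
    refine Finset.sum_congr rfl fun i _ => ?_
    rw [Finset.card_filter]
  rw [h1, Fin.sum_univ_succ]
  refine add_le_add ?_ ?_
  · refine (Finset.card_le_univ _).trans ?_
    rw [Fintype.card_fin]
  · have h3 : ∀ i : Fin D, (univ.filter fun w => (w ∈ U ↔ tau σ i.succ w ∈ U)).card ≤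
        1 + 2 * jj (σ i) U := by
      intro i
      have h4 : tau σ i.succ = σ i := by
        unfold tau
        rw [Fin.cons_succ]
      rw [h4]
      exact card_same _ hU
    refine (Finset.sum_le_sum fun i _ => h3 i).trans ?_
    rw [Finset.sum_add_distrib, Finset.sum_const, Finset.card_univ, Fintype.card_fin,
      ← Finset.mul_sum, smul_eq_mul, mul_one]

lemma bd_nonempty (σ : Fin D → Equiv.Perm (Fin (2 * r + 1)))
    {U : Finset (Fin (2 * r + 1))} (h0 : U.Nonempty) (hU : U.card ≤ r) :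
    (bd (Prod.snd : Ed D r → _) (eb σ) U).Nonempty := by
  by_contra hc
  rw [Finset.not_nonempty_iff_eq_empty] at hc
  have h1 : ∀ w : Fin (2 * r + 1), w ∈ U → w + 1 ∈ U := by
    intro w hw
    by_contra h2
    have h3 : ((0, w) : Ed D r) ∈ bd (Prod.snd : Ed D r → _) (eb σ) U := by
      unfold bd eb tau
      rw [Finset.mem_filter]
      refine ⟨mem_univ _, fun h4 => h2 ?_⟩
      have h5 := h4.mp hw
      simp only [Fin.cons_zero] at h5
      rwa [finRotate_apply] at h5
    rw [hc] at h3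
    exact absurd h3 (Finset.notMem_empty _)
  obtain ⟨w, hw⟩ := h0
  have h2 : ∀ j : ℕ, ∀ u : Fin (2 * r + 1), (u : ℕ) = (w + j) % (2 * r + 1) → u ∈ U := by
    intro j
    induction j with
    | zero =>
      intro u hu
      rw [add_zero, Nat.mod_eq_of_lt w.2] at hu
      rw [Fin.ext hu]
      exact hw
    | succ j ih =>
      intro u hu
      have h4 := h1 _ (ih ⟨(w + j) % (2 * r + 1), Nat.mod_lt _ (by omega)⟩ rfl)
      have h5 : u = (⟨(w + j) % (2 * r + 1), Nat.mod_lt _ (by omega)⟩ : Fin (2 * r + 1)) + 1 := by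
        refine Fin.ext ?_
        rw [Fin.val_add, Fin.val_one', hu, ← add_assoc, Nat.add_mod (w + j) 1]
      rw [h5]
      exact h4
  have h3 : U = univ := by
    refine Finset.eq_univ_of_forall fun u => ?_
    refine h2 (2 * r + 1 + u - w) u ?_
    have h4 : (w : ℕ) + (2 * r + 1 + u - w) = 2 * r + 1 + u := by
      have := w.2
      omega
    rw [h4, Nat.add_mod_left, Nat.mod_eq_of_lt u.2]
  rw [h3, Finset.card_univ, Fintype.card_fin] at hU
  omega

lemma card_star (σ : Fin D → Equiv.Perm (Fin (2 * r + 1))) (w : Fin (2 * r + 1)) :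
    (bd (Prod.snd : Ed D r → _) (eb σ) {w}).card ≤ 2 * (D + 1) := by
  have h1 : bd (Prod.snd : Ed D r → _) (eb σ) {w} ⊆
      (univ.image fun i : Fin (D + 1) => ((i, w) : Ed D r)) ∪
      (univ.image fun i : Fin (D + 1) => ((i, (tau σ i).symm w) : Ed D r)) := by
    rintro ⟨i, u⟩ he
    unfold bd eb at he
    have h2 := (Finset.mem_filter.mp he).2
    simp only [Finset.mem_singleton] at h2
    by_cases h3 : u = w
    · exact Finset.mem_union_left _ (Finset.mem_image.mpr ⟨i, mem_univ _, by rw [h3]⟩)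
    · refine Finset.mem_union_right _ (Finset.mem_image.mpr ⟨i, mem_univ _, ?_⟩)
      by_cases h4 : tau σ i u = w
      · rw [← h4, Equiv.symm_apply_apply]
      · exact absurd (by simp [h3, h4]) h2
  refine (Finset.card_le_card h1).trans ((Finset.card_union_le _ _).trans ?_)
  have h2 := Finset.card_image_le (s := (univ : Finset (Fin (D + 1))))
    (f := fun i : Fin (D + 1) => ((i, w) : Ed D r))
  have h3 := Finset.card_image_le (s := (univ : Finset (Fin (D + 1))))
    (f := fun i : Fin (D + 1) => ((i, (tau σ i).symm w) : Ed D r))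
  rw [Finset.card_univ, Fintype.card_fin] at h2 h3
  omega

theorem exists_graph (hD : D = 8000) : ∃ r0 : ℕ, ∀ r ≥ r0, ∃ b : Ed D r → Fin (2 * r + 1),
    (∀ U : Finset (Fin (2 * r + 1)), U.card = r →
      ((bd (Prod.snd : Ed D r → _) b U)ᶜ).card ≤ 4081 * (2 * r + 1) + 3920) ∧
    (∀ U : Finset (Fin (2 * r + 1)), U.Nonempty → U.card ≤ r →
      (bd (Prod.snd : Ed D r → _) b U).Nonempty) ∧
    ∀ w, (bd (Prod.snd : Ed D r → _) b {w}).card ≤ 2 * (D + 1) := by
  obtain ⟨r0, hr0⟩ := exists_cut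
  rw [← hD] at hr0
  refine ⟨r0, fun r hr => ?_⟩
  obtain ⟨-, σ, hσ⟩ := hr0 r hr
  refine ⟨eb σ, fun U hU => ?_, fun U h0 hU => bd_nonempty σ h0 hU, card_star σ⟩
  have h1 := card_compl_bd σ hU
  have h2 := hσ U hU
  have h3 : D * r = 8000 * r := by rw [hD]
  omega

end Pool.Agent.J4H24.D3
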