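import Pool.Agent.J4H24.D3.Mcd

/-!
# Random places and blocks
-/

namespace Pool.Agent.J4H24.D3

open Finset

lemma poly_ineq {q : ℝ} (h0 : 0 ≤ q) (h1 : q ≤ 1) : (1 - q ^ 4) ^ 2 ≤ 194 / 100 * (1 - q) := by
  have key : 0 ≤ 97 / 50 - (1 - q) * (1 + q + q ^ 2 + q ^ 3) ^ 2 := by
    rcases le_total q (67 / 100) with h2 | h2
    · obtain ⟨B, hB⟩ : ∃ B : ℝ, B = 67 / 100 - q := ⟨_, rfl⟩
      have hB0 : 0 ≤ B := by rw [hB]; linarith
      have e1 : (67 / 100 : ℝ) ^ 7 * (97 / 50 - (1 - q) * (1 + q + q ^ 2 + q ^ 3) ^ 2) =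
          47/50 * (q ^ 0 * B ^ 7) + 591/100 * (q ^ 1 * B ^ 6) + 152711/10000 * (q ^ 2 * B ^ 5) +
          20304737/1000000 * (q ^ 3 * B ^ 4) + 1400945921/100000000 * (q ^ 4 * B ^ 3) +
          41359681407/10000000000 * (q ^ 5 * B ^ 2) +
          77465033569/1000000000000 * (q ^ 6 * B ^ 1) +
          792621892223/100000000000000 * (q ^ 7 * B ^ 0) := by
        rw [hB]
        ring
      have e2 : 0 ≤ (67 / 100 : ℝ) ^ 7 * (97 / 50 - (1 - q) * (1 + q + q ^ 2 + q ^ 3) ^ 2) := by
        rw [e1]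
        positivity
      exact nonneg_of_mul_nonneg_right e2 (by norm_num)
    · obtain ⟨A, hA⟩ : ∃ A : ℝ, A = q - 67 / 100 := ⟨_, rfl⟩
      obtain ⟨B, hB⟩ : ∃ B : ℝ, B = 1 - q := ⟨_, rfl⟩
      have hA0 : 0 ≤ A := by rw [hA]; linarith
      have hB0 : 0 ≤ B := by rw [hB]; linarith
      have e1 : (33 / 100 : ℝ) ^ 7 * (97 / 50 - (1 - q) * (1 + q + q ^ 2 + q ^ 3) ^ 2) =
          792621892223/100000000000000 * (A ^ 0 * B ^ 7) +
          5582102869/125000000000 * (A ^ 1 * B ^ 6) +
          2581180449/2500000000 * (A ^ 2 * B ^ 5) + 68265647/12500000 * (A ^ 3 * B ^ 4) +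
          3098071/250000 * (A ^ 4 * B ^ 3) + 17859/1250 * (A ^ 5 * B ^ 2) +
          83/10 * (A ^ 6 * B ^ 1) + 97/50 * (A ^ 7 * B ^ 0) := by
        rw [hA, hB]
        ring
      have e2 : 0 ≤ (33 / 100 : ℝ) ^ 7 * (97 / 50 - (1 - q) * (1 + q + q ^ 2 + q ^ 3) ^ 2) := by
        rw [e1]
        positivity
      exact nonneg_of_mul_nonneg_right e2 (by norm_num)
  nlinarith [mul_nonneg (sub_nonneg.mpr h1) key]

/-- the probability that a block of density `a` is hit -/
lemma hit_ineq {a : ℝ} (h0 : 0 ≤ a) (h1 : a ≤ 1) (m : ℕ) :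
    (1 - (1 - a) ^ (4 * m)) ^ 2 ≤ 485 / 1000 * ((4 * m : ℕ) * a) := by
  have h2 : 0 ≤ 1 - a := by linarith
  obtain ⟨q, hq⟩ : ∃ q, q = (1 - a) ^ m := ⟨_, rfl⟩
  have hq0 : 0 ≤ q := by rw [hq]; positivity
  have hq1 : q ≤ 1 := by rw [hq]; exact pow_le_one₀ h2 (by linarith)
  have h3 : 1 - m * a ≤ q := by
    rw [hq]
    have := one_add_mul_le_pow (a := -a) (by linarith) m
    have e : (1 + -a) = 1 - a := by ring
    rw [e] at this
    linarith
  have e1 : (1 - a) ^ (4 * m) = q ^ 4 := by rw [hq, ← pow_mul, mul_comm]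
  rw [e1]
  refine (poly_ineq hq0 hq1).trans ?_
  push_cast
  nlinarith

variable {A : Type*} [Fintype A] [Nonempty A] [DecidableEq A]

omit [DecidableEq A] in
lemma av_at {n : ℕ} (t : Fin n) (g : A → ℝ) : av (fun ω : Fin n → A => g (ω t)) = av g := by
  obtain ⟨n, rfl⟩ : ∃ n', n = n' + 1 := ⟨n - 1, by have := t.2; omega⟩
  rw [← av_equiv (Fin.insertNthEquiv (fun _ => A) t) (fun ω : Fin (n + 1) → A => g (ω t)), av_prod]
  congr 1
  funext a
  rw [← av_const (Ω := Fin n → A) (g a)]
  congr 1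
  funext ω
  exact congrArg g (Fin.insertNth_apply_same (α := fun _ => A) t a ω)

omit [Nonempty A] [DecidableEq A] in
lemma av_pow {n : ℕ} (g : A → ℝ) : av (fun ω : Fin n → A => ∏ t, g (ω t)) = av g ^ n := by
  unfold av
  rw [div_pow, Fintype.sum_pow, Fintype.card_fun, Fintype.card_fin]
  push_cast
  rfl

/-- the number of hits -/
def cn {n : ℕ} (S : Finset A) (ω : Fin n → A) : ℕ := (univ.filter fun t => ω t ∈ S).card

omit [Nonempty A] in
lemma av_ind (S : Finset A) : av (fun a => if a ∈ S then (1 : ℝ) else 0) = S.card / Fintype.card A := by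
  unfold av
  rw [Finset.sum_ite_mem, Finset.univ_inter, Finset.sum_const, nsmul_eq_mul, mul_one]

lemma av_cn {n : ℕ} (S : Finset A) :
    av (fun ω : Fin n → A => (cn S ω : ℝ)) = n * (S.card / Fintype.card A) := by
  have h1 : (fun ω : Fin n → A => (cn S ω : ℝ)) =
      fun ω => ∑ t ∈ (univ : Finset (Fin n)), (if ω t ∈ S then (1 : ℝ) else 0) := by
    funext ω
    unfold cn
    rw [Finset.card_filter]
    push_cast
    rfl
  rw [h1, av_sum]
  have h2 : ∀ t : Fin n, av (fun ω : Fin n → A => if ω t ∈ S then (1 : ℝ) else 0) =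
      S.card / Fintype.card A := fun t => by
    rw [av_at t (fun a => if a ∈ S then (1 : ℝ) else 0), av_ind]
  rw [Finset.sum_congr rfl fun t _ => h2 t, Finset.sum_const, Finset.card_univ, Fintype.card_fin,
    nsmul_eq_mul]

lemma av_hit {n : ℕ} (S : Finset A) :
    av (fun ω : Fin n → A => ((min (cn S ω) 1 : ℕ) : ℝ)) =
      1 - (1 - S.card / Fintype.card A) ^ n := by
  have h1 : (fun ω : Fin n → A => ((min (cn S ω) 1 : ℕ) : ℝ)) =
      fun ω => 1 + (-1) * ∏ t, (if ω t ∈ S then (0 : ℝ) else 1) := by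
    funext ω
    by_cases h : ∃ t, ω t ∈ S
    · obtain ⟨t, ht⟩ := h
      have h2 : 0 < cn S ω := Finset.card_pos.mpr ⟨t, Finset.mem_filter.mpr ⟨mem_univ _, ht⟩⟩
      rw [Finset.prod_eq_zero (f := fun t => if ω t ∈ S then (0 : ℝ) else 1) (mem_univ t)
        (if_pos ht), min_eq_right h2]
      simp
    · push Not at h
      have h2 : cn S ω = 0 := Finset.card_eq_zero.mpr (Finset.filter_eq_empty_iff.mpr
        fun t _ => h t)
      rw [h2, Finset.prod_congr rfl fun t _ => if_neg (h t)]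
      simp
  have h2 : av (fun a : A => if a ∈ S then (0 : ℝ) else 1) = 1 - S.card / Fintype.card A := by
    have h3 : (fun a : A => if a ∈ S then (0 : ℝ) else 1) =
        fun a => 1 + (-1) * (if a ∈ S then (1 : ℝ) else 0) := by
      funext a
      split_ifs <;> ring
    rw [h3, av_add, av_const, av_smul, av_ind]
    ring
  rw [h1, av_add, av_const, av_smul, av_pow (fun a => if a ∈ S then (0 : ℝ) else 1), h2]
  ring

/-- the hits of the two components -/
abbrev c1 {n : ℕ} (S : Finset A) (ω : Fin n → A × A) : ℕ := cn S fun t => (ω t).1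

abbrev c2 {n : ℕ} (S : Finset A) (ω : Fin n → A × A) : ℕ := cn S fun t => (ω t).2

omit [Nonempty A] [DecidableEq A] in
lemma av_split {n : ℕ} (f g : (Fin n → A) → ℝ) :
    av (fun ω : Fin n → A × A => f (fun t => (ω t).1) * g (fun t => (ω t).2)) = av f * av g := by
  rw [← av_mul, ← av_equiv (Equiv.arrowProdEquivProdArrow (Fin n) (fun _ => A) (fun _ => A))]
  rfl

omit [Nonempty A] [Fintype A] in
lemma cn_update {n : ℕ} (S : Finset A) (ω : Fin n → A) (t : Fin n) (a : A) :
    cn S (Function.update ω t a) ≤ cn S ω + if a ∈ S then 1 else 0 := by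
  unfold cn
  split_ifs with h
  · refine (Finset.card_le_card (t := insert t (univ.filter fun t => ω t ∈ S)) ?_).trans
      (Finset.card_insert_le _ _)
    intro u hu
    rw [Finset.mem_filter] at hu
    by_cases hut : u = t
    · rw [hut]
      exact Finset.mem_insert_self _ _
    · rw [Function.update_of_ne hut] at hu
      exact Finset.mem_insert_of_mem (Finset.mem_filter.mpr hu)
  · rw [add_zero]
    refine Finset.card_le_card ?_
    intro u hu
    rw [Finset.mem_filter] at hu
    by_cases hut : u = t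
    · rw [hut, Function.update_self] at hu
      exact absurd hu.2 h
    · rw [Function.update_of_ne hut] at hu
      exact Finset.mem_filter.mpr hu

omit [Nonempty A] [Fintype A] in
lemma c1_update {n : ℕ} (S : Finset A) (ω : Fin n → A × A) (t : Fin n) (a : A × A) :
    c1 S (Function.update ω t a) ≤ c1 S ω + if a.1 ∈ S then 1 else 0 := by
  have h1 : (fun u => (Function.update ω t a u).1) = Function.update (fun u => (ω u).1) t a.1 := by
    funext u
    by_cases hut : u = t
    · rw [hut, Function.update_self, Function.update_self]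
    · rw [Function.update_of_ne hut, Function.update_of_ne hut]
  unfold c1
  rw [h1]
  exact cn_update _ _ _ _

omit [Nonempty A] [Fintype A] in
lemma c2_update {n : ℕ} (S : Finset A) (ω : Fin n → A × A) (t : Fin n) (a : A × A) :
    c2 S (Function.update ω t a) ≤ c2 S ω + if a.2 ∈ S then 1 else 0 := by
  have h1 : (fun u => (Function.update ω t a u).2) = Function.update (fun u => (ω u).2) t a.2 := by
    funext u
    by_cases hut : u = t
    · rw [hut, Function.update_self, Function.update_self]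
    · rw [Function.update_of_ne hut, Function.update_of_ne hut]
  unfold c2
  rw [h1]
  exact cn_update _ _ _ _

variable {I J : Type*} [Fintype I] [Fintype J]

/-- the bound for the logarithm of the rank of a term -/
def lr {n : ℕ} (S S' : I → Finset A) (T T' : J → Finset A) (ω : Fin n → A × A) : ℕ :=
  ∑ i, min (c1 (S i) ω) (c2 (S' i) ω) + ∑ j, min (min (c1 (T j) ω) (c2 (T' j) ω)) 1

omit [Nonempty A] [Fintype A] in
lemma lr_update {n : ℕ} {S S' : I → Finset A} {T T' : J → Finset A} {k : ℕ}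
    (hS : ∀ p, (univ.filter fun i => p ∈ S i).card ≤ k)
    (hS' : ∀ p, (univ.filter fun i => p ∈ S' i).card ≤ k)
    (hT : ∀ p, (univ.filter fun j => p ∈ T j).card ≤ 1)
    (hT' : ∀ p, (univ.filter fun j => p ∈ T' j).card ≤ 1) (ω : Fin n → A × A) (t : Fin n)
    (a : A × A) : lr S S' T T' (Function.update ω t a) ≤ lr S S' T T' ω + 2 * (k + 1) := by
  have h1 : ∑ i, min (c1 (S i) (Function.update ω t a)) (c2 (S' i) (Function.update ω t a)) ≤
      ∑ i, min (c1 (S i) ω) (c2 (S' i) ω) + 2 * k := by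
    calc ∑ i, min (c1 (S i) (Function.update ω t a)) (c2 (S' i) (Function.update ω t a))
        ≤ ∑ i, (min (c1 (S i) ω) (c2 (S' i) ω) +
          ((if a.1 ∈ S i then 1 else 0) + if a.2 ∈ S' i then 1 else 0)) := by
          refine Finset.sum_le_sum fun i _ => ?_
          have := c1_update (S i) ω t a
          have := c2_update (S' i) ω t a
          omega
      _ ≤ _ := by
          rw [Finset.sum_add_distrib, Finset.sum_add_distrib, ← Finset.card_filter,
            ← Finset.card_filter]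
          have := hS a.1
          have := hS' a.2
          omega
  have h2 : ∑ j, min (min (c1 (T j) (Function.update ω t a)) (c2 (T' j) (Function.update ω t a))) 1 ≤
      ∑ j, min (min (c1 (T j) ω) (c2 (T' j) ω)) 1 + 2 := by
    calc ∑ j, min (min (c1 (T j) (Function.update ω t a)) (c2 (T' j) (Function.update ω t a))) 1
        ≤ ∑ j, (min (min (c1 (T j) ω) (c2 (T' j) ω)) 1 +
          ((if a.1 ∈ T j then 1 else 0) + if a.2 ∈ T' j then 1 else 0)) := by
          refine Finset.sum_le_sum fun j _ => ?_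
          have := c1_update (T j) ω t a
          have := c2_update (T' j) ω t a
          omega
      _ ≤ _ := by
          rw [Finset.sum_add_distrib, Finset.sum_add_distrib, ← Finset.card_filter,
            ← Finset.card_filter]
          have := hT a.1
          have := hT' a.2
          omega
  unfold lr
  omega

omit [Nonempty A] in
lemma sum_card {k : ℕ} {S : I → Finset A} (hS : ∀ p, (univ.filter fun i => p ∈ S i).card ≤ k) :
    ∑ i, (S i).card ≤ k * Fintype.card A := by
  have h1 : ∑ i, (S i).card = ∑ p : A, (univ.filter fun i => p ∈ S i).card := by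
    simp only [Finset.card_filter]
    rw [Finset.sum_comm]
    refine Finset.sum_congr rfl fun i _ => ?_
    rw [← Finset.card_filter, Finset.filter_univ_mem]
  rw [h1]
  refine (Finset.sum_le_sum fun p _ => hS p).trans ?_
  rw [Finset.sum_const, Finset.card_univ, smul_eq_mul, mul_comm]

lemma av_lr {m k β : ℕ} {S S' : I → Finset A} {T T' : J → Finset A}
    (hS : ∀ p, (univ.filter fun i => p ∈ S i).card ≤ k)
    (hT : ∀ p, (univ.filter fun j => p ∈ T j).card ≤ 1)
    (hT' : ∀ p, (univ.filter fun j => p ∈ T' j).card ≤ 1) (hβ : ∀ i, (S' i).card ≤ β)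
    (hA : 1000 * ((4 * m) * k * β) ≤ Fintype.card A) :
    av (fun ω : Fin (4 * m) → A × A => (lr S S' T T' ω : ℝ)) ≤ 486 / 1000 * (4 * m : ℕ) := by
  have hM : (0 : ℝ) < Fintype.card A := by exact_mod_cast Fintype.card_pos
  obtain ⟨N, hN⟩ : ∃ N : ℕ, N = 4 * m := ⟨_, rfl⟩
  have hN0 : (0 : ℝ) ≤ N := Nat.cast_nonneg _
  have h1 : av (fun ω : Fin (4 * m) → A × A => ∑ i, ((c1 (S i) ω : ℝ) * (c2 (S' i) ω))) ≤
      1 / 1000 * (4 * m : ℕ) := by
    rw [av_sum]
    have h2 : ∀ i, av (fun ω : Fin (4 * m) → A × A => (c1 (S i) ω : ℝ) * (c2 (S' i) ω)) ≤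
        N * N * β / Fintype.card A ^ 2 * (S i).card := by
      intro i
      rw [av_split (fun ω => (cn (S i) ω : ℝ)) (fun ω => (cn (S' i) ω : ℝ)), av_cn, av_cn, ← hN]
      have h3 : ((S' i).card : ℝ) ≤ β := by exact_mod_cast hβ i
      calc (N : ℝ) * ((S i).card / Fintype.card A) * (N * ((S' i).card / Fintype.card A))
          = N * N * (S' i).card / Fintype.card A ^ 2 * (S i).card := by field_simp
        _ ≤ N * N * β / Fintype.card A ^ 2 * (S i).card := by gcongr
    refine (Finset.sum_le_sum fun i _ => h2 i).trans ?_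
    rw [← Finset.mul_sum]
    have h3 : (∑ i, ((S i).card : ℝ)) ≤ k * Fintype.card A := by exact_mod_cast sum_card hS
    have h4 : 1000 * (N * k * β : ℝ) ≤ Fintype.card A := by rw [hN]; exact_mod_cast hA
    calc (N : ℝ) * N * β / Fintype.card A ^ 2 * (∑ i, ((S i).card : ℝ))
        ≤ (N : ℝ) * N * β / Fintype.card A ^ 2 * (k * Fintype.card A) := by gcongr
      _ = (N : ℝ) * (N * k * β) / Fintype.card A := by field_simp
      _ ≤ (1 / 1000 : ℝ) * ((4 * m : ℕ) : ℝ) := by
          rw [div_le_iff₀ hM, ← hN]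
          nlinarith
  have h5 : av (fun ω : Fin (4 * m) → A × A =>
      ∑ j, (((min (c1 (T j) ω) 1 : ℕ) : ℝ) * ((min (c2 (T' j) ω) 1 : ℕ) : ℝ))) ≤
      485 / 1000 * (4 * m : ℕ) := by
    rw [av_sum]
    have h2 : ∀ j, av (fun ω : Fin (4 * m) → A × A =>
        (((min (c1 (T j) ω) 1 : ℕ) : ℝ) * ((min (c2 (T' j) ω) 1 : ℕ) : ℝ))) ≤
        485 / 1000 * ((4 * m : ℕ) * ((T j).card / Fintype.card A)) / 2 +
        485 / 1000 * ((4 * m : ℕ) * ((T' j).card / Fintype.card A)) / 2 := by
      intro j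
      rw [av_split (fun ω => ((min (cn (T j) ω) 1 : ℕ) : ℝ))
        (fun ω => ((min (cn (T' j) ω) 1 : ℕ) : ℝ)), av_hit, av_hit]
      have h3 : ∀ R : Finset A, (R.card : ℝ) / Fintype.card A ≤ 1 := by
        intro R
        rw [div_le_one hM]
        exact_mod_cast Finset.card_le_univ R
      have h6 := hit_ineq (a := (T j).card / Fintype.card A) (by positivity) (h3 _) m
      have h7 := hit_ineq (a := (T' j).card / Fintype.card A) (by positivity) (h3 _) m
      nlinarith [sq_nonneg ((1 - (1 - ((T j).card : ℝ) / Fintype.card A) ^ (4 * m)) -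
        (1 - (1 - ((T' j).card : ℝ) / Fintype.card A) ^ (4 * m)))]
    refine (Finset.sum_le_sum fun j _ => h2 j).trans ?_
    rw [Finset.sum_add_distrib, ← Finset.sum_div, ← Finset.sum_div, ← Finset.mul_sum,
      ← Finset.mul_sum, ← Finset.mul_sum, ← Finset.mul_sum, ← Finset.sum_div, ← Finset.sum_div]
    have h3 : ∀ R : J → Finset A, (∀ p, (univ.filter fun j => p ∈ R j).card ≤ 1) →
        (∑ j, ((R j).card : ℝ)) / Fintype.card A ≤ 1 := by
      intro R hR
      rw [div_le_one hM]
      have := sum_card hR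
      rw [one_mul] at this
      exact_mod_cast this
    have h6 := h3 T hT
    have h7 := h3 T' hT'
    have h8 : (0 : ℝ) ≤ (4 * m : ℕ) := Nat.cast_nonneg _
    nlinarith
  have h9 : av (fun ω : Fin (4 * m) → A × A => (lr S S' T T' ω : ℝ)) ≤
      av (fun ω : Fin (4 * m) → A × A => ∑ i, ((c1 (S i) ω : ℝ) * (c2 (S' i) ω)) +
        ∑ j, (((min (c1 (T j) ω) 1 : ℕ) : ℝ) * ((min (c2 (T' j) ω) 1 : ℕ) : ℝ))) := by
    refine av_mono fun ω => ?_
    unfold lr
    push_cast
    refine add_le_add (Finset.sum_le_sum fun i _ => ?_) (Finset.sum_le_sum fun j _ => ?_)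
    · have : min (c1 (S i) ω) (c2 (S' i) ω) ≤ c1 (S i) ω * c2 (S' i) ω := by
        rcases Nat.eq_zero_or_pos (c1 (S i) ω) with h | h
        · rw [h]
          simp
        · exact (min_le_right _ _).trans (Nat.le_mul_of_pos_left _ h)
      exact_mod_cast this
    · have : min (min (c1 (T j) ω) (c2 (T' j) ω)) 1 ≤
          min (c1 (T j) ω) 1 * min (c2 (T' j) ω) 1 := by
        rcases Nat.eq_zero_or_pos (c1 (T j) ω) with h | h
        · rw [h]
          simp
        · rw [min_eq_right (show 1 ≤ c1 (T j) ω from h), one_mul]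
          omega
      exact_mod_cast this
  rw [av_add] at h9
  refine h9.trans ((add_le_add h1 h5).trans (le_of_eq ?_))
  ring

/-- few choices of places are bad for a term -/
theorem few_bad {m k β : ℕ} (hm : 0 < m) {S S' : I → Finset A} {T T' : J → Finset A}
    (hS : ∀ p, (univ.filter fun i => p ∈ S i).card ≤ k)
    (hS' : ∀ p, (univ.filter fun i => p ∈ S' i).card ≤ k)
    (hT : ∀ p, (univ.filter fun j => p ∈ T j).card ≤ 1)
    (hT' : ∀ p, (univ.filter fun j => p ∈ T' j).card ≤ 1) (hβ : ∀ i, (S' i).card ≤ β)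
    (hA : 1000 * ((4 * m) * k * β) ≤ Fintype.card A) :
    (((univ.filter fun ω : Fin (4 * m) → A × A => 487 * (4 * m) ≤ 1000 * lr S S' T T' ω).card :
      ℕ) : ℝ) ≤ Fintype.card (Fin (4 * m) → A × A) *
        Real.exp (- ((4 * m : ℕ) / (8000000 * ((k : ℝ) + 1) ^ 2))) := by
  have h1 := mcd (A := A × A) (n := 4 * m) (by omega) (c := 2 * ((k : ℝ) + 1))
    (l := 1 / 1000 * (4 * m : ℕ)) (by positivity)
    (fun ω : Fin (4 * m) → A × A => (lr S S' T T' ω : ℝ)) (by
      intro ω t a
      have := lr_update hS hS' hT hT' ω t a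
      exact_mod_cast this)
  have hm' : (0 : ℝ) < (4 * m : ℕ) := by exact_mod_cast (by omega : 0 < 4 * m)
  rcases h1 with h1 | h1
  · have h2 : (((univ.filter fun ω : Fin (4 * m) → A × A =>
        487 * (4 * m) ≤ 1000 * lr S S' T T' ω).card : ℕ) : ℝ) ≤
        (((univ.filter fun ω : Fin (4 * m) → A × A =>
        av (fun ω : Fin (4 * m) → A × A => (lr S S' T T' ω : ℝ)) + 1 / 1000 * (4 * m : ℕ) ≤
          (lr S S' T T' ω : ℝ)).card :
        ℕ) : ℝ) := by
      refine Nat.cast_le.mpr (Finset.card_le_card fun ω hω => ?_)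
      rw [Finset.mem_filter] at hω ⊢
      refine ⟨hω.1, ?_⟩
      have h3 := av_lr hS hT hT' hβ hA
      have h4 : (487 : ℝ) * (4 * m : ℕ) ≤ 1000 * lr S S' T T' ω := by exact_mod_cast hω.2
      linarith
    refine h2.trans (h1.trans (le_of_eq ?_))
    congr 2
    rw [neg_inj]
    field_simp
    norm_num
  · linarith

end Pool.Agent.J4H24.D3
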