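import Pool.Agent.J4H24.D3.Ter

/-!
# The lower bound for given parameters
-/

namespace Pool.Agent.J4H24.D3

open Finset Pool.Agent.J4H24.NS

lemma disj_liv {E : Type*} [Fintype E] [DecidableEq E] {M n : ℕ} {e : Var E M → Fin n}
    (he : Function.Injective e) {π : Lab E → Fin (M + 1)} (hπ : Function.Injective π) :
    Disjoint (liv e π false) (liv e π true) := by
  rw [Finset.disjoint_left]
  intro v hv hv2
  obtain ⟨⟨f, i⟩, -, rfl⟩ := Finset.mem_image.mp hv
  obtain ⟨⟨f', i'⟩, -, h1⟩ := Finset.mem_image.mp hv2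
  have h2 := hπ (Sum.inr_injective (he h1))
  simp at h2

section

variable {E : Type*} [Fintype E] [DecidableEq E] {M n L m : ℕ} (e : Var E M → Fin n)
variable (idx : E × Fin 12 ≃ Fin (4 * m)) (pa pb : Fin L → Fin (M + 1))

/-- most choices of places are good for a term -/
lemma term_bad (he : Function.Injective e) (hm : 0 < m) (hL0 : 0 < L)
    (hpa : Function.Injective pa) (hpb : Function.Injective pb) (hab : ∀ i j, pa i ≠ pb j)
    {A0 B0 : Finset (Fin n)} (hA0 : ∀ p, e (Sum.inr (pa p)) ∈ A0)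
    (hB0 : ∀ p, e (Sum.inr (pb p)) ∈ B0) {K : Type*} [Field K] {β : ℝ} {k κ W : ℕ}
    (hL : 1000 * ((4 * m) * k * ⌊β⌋₊) ≤ L) {s : List (Fin n)}
    (hs : Blk A0 B0 (2 * κ + 1) s) {g : (Fin n → Bool) → K} (hg : Tm K β k W s g) :
    ∃ bad : Finset (Fin (4 * m) → Fin L × Fin L),
      (bad.card : ℝ) ≤ Fintype.card (Fin (4 * m) → Fin L × Fin L) *
        Real.exp (- ((4 * m : ℕ) / (8000000 * ((k : ℝ) + 1) ^ 2))) ∧
      ∀ ω ∉ bad, (Function.Injective fun t => (ω t).1) → (Function.Injective fun t => (ω t).2) →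
        ∀ Z : (E → B) → (E → B) → Fin n → Bool,
          (∀ v ∉ liv e (ptr idx pa pb ω) false, ∀ x x' y, Z x y v = Z x' y v) →
          (∀ v ∉ liv e (ptr idx pa pb ω) true, ∀ x y y', Z x y v = Z x y' v) →
          Rk (W ^ (2 * κ + 3) * 2 ^ (487 * (4 * m) / 1000)) (fun x y => g (Z x y)) := by
  obtain ⟨g1, g2, ⟨o, c, P, p, ho, hp, hP, hg1⟩, ⟨d, Q, q, hq, hQ, hg2⟩, hg⟩ := hg
  have : Nonempty (Fin L) := ⟨⟨0, hL0⟩⟩
  have hin : ∀ {c : ℕ} (P : Fin c → Finset (Fin n)) (a : Fin L → Fin (M + 1)) (k : ℕ),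
      (∀ v, (univ.filter fun i => v ∈ P i).card ≤ k) →
      ∀ z, (univ.filter fun i => z ∈ pre e a (P i)).card ≤ k := by
    intro c P a k hP z
    refine le_trans (le_of_eq ?_) (hP (e (Sum.inr (a z))))
    congr 1
    refine Finset.filter_congr fun i _ => ?_
    unfold pre
    rw [Finset.mem_filter]
    exact ⟨fun h => h.2, fun h => ⟨mem_univ _, h⟩⟩
  have h1 := few_bad (A := Fin L) (m := m) (k := k) (β := ⌊β⌋₊) hm
    (S := fun i => pre e pa (P i)) (S' := fun i => pre e pb (P i))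
    (T := fun j => pre e pa (Q j)) (T' := fun j => pre e pb (Q j))
    (hin P pa k hP) (hin P pb k hP) (hin Q pa 1 hQ) (hin Q pb 1 hQ)
    (fun i => (card_pre e he hpb (P i)).trans (Nat.le_floor (hp i).2))
    (by rw [Fintype.card_fin]; exact hL)
  refine ⟨_, h1, ?_⟩
  intro ω hω hi1 hi2 Z hZA hZB
  have hπ := ptr_inj idx pa pb hpa hpb hab hi1 hi2
  have hsub1 : liv e (ptr idx pa pb ω) false ⊆ A0 := by
    intro v hv
    obtain ⟨⟨f, i⟩, -, rfl⟩ := Finset.mem_image.mp hv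
    exact hA0 _
  have hsub2 : liv e (ptr idx pa pb ω) true ⊆ B0 := by
    intro v hv
    obtain ⟨⟨f, i⟩, -, rfl⟩ := Finset.mem_image.mp hv
    exact hB0 _
  have h2 := rk_tm (disj_liv he hπ) Z hZA hZB (hs.mono hsub1 hsub2) ho (fun i => (hp i).1) hq
  refine (h2.congr fun x y => by rw [hg, hg1, hg2]).mono (Nat.mul_le_mul_left _
    (Nat.pow_le_pow_right (by norm_num) ?_))
  rw [Finset.mem_filter, not_and, not_le] at hω
  have h3 := hω (mem_univ _)
  have h4 : ∑ i, min (P i ∩ liv e (ptr idx pa pb ω) false).card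
      (P i ∩ liv e (ptr idx pa pb ω) true).card +
      ∑ j, min (min (Q j ∩ liv e (ptr idx pa pb ω) false).card
        (Q j ∩ liv e (ptr idx pa pb ω) true).card) 1 ≤
      lr (fun i => pre e pa (P i)) (fun i => pre e pb (P i)) (fun j => pre e pa (Q j))
        (fun j => pre e pb (Q j)) ω := by
    unfold lr
    refine add_le_add (Finset.sum_le_sum fun i _ => ?_) (Finset.sum_le_sum fun j _ => ?_)
    · exact min_le_min (card_liv_false e idx pa pb (P i)) (card_liv_true e idx pa pb (P i))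
    · exact min_le_min (min_le_min (card_liv_false e idx pa pb (Q j))
        (card_liv_true e idx pa pb (Q j))) le_rfl
  omega

end

theorem lower {D r M n L : ℕ} (hD : D = 8000) (b : Ed D r → Fin (2 * r + 1))
    (ht : ∀ U : Finset (Fin (2 * r + 1)), U.card = r →
      ((bd (Prod.snd : Ed D r → _) b U)ᶜ).card ≤ 4081 * (2 * r + 1) + 3920)
    (hc : ∀ U : Finset (Fin (2 * r + 1)), U.Nonempty → U.card ≤ r →
      (bd (Prod.snd : Ed D r → _) b U).Nonempty)
    (e : Var (Ed D r) M → Fin n) (he : Function.Injective e) {K : Type*} [Field K]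
    (h2 : (2 : K) ≠ 0) {ι : Type*} [Fintype ι] {k κ ℓ s W : ℕ} (hι : Fintype.card ι = s)
    {β : ℝ} (hM : 2 * (2 ^ (2 * κ * ℓ) * L) ≤ M + 1)
    (hL1 : 8 * (96012 * (2 * r + 1)) ^ 2 ≤ L)
    (hL2 : 1000 * ((96012 * (2 * r + 1)) * k * ⌊β⌋₊) ≤ L)
    (S : Fin ℓ → List (Fin n)) (hS : ∀ j v, (S j).count v ≤ κ)
    (g : Finset (Fin n × Bool) → ι → (Fin n → Bool) → K)
    (hg : ∀ C ∈ fml Prod.snd b e 0, ∀ i, ∃ j, Tm K β k W (S j) (g C i))
    (hsum : ∀ x, (∀ v ∉ Set.range e, x v = false) →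
      ∑ C ∈ fml Prod.snd b e 0 with Fals C x, ∑ i, g C i x = 1)
    (hbad : (((fml Prod.snd b e 0).card * s : ℕ) : ℝ) *
      Real.exp (- ((96012 * (2 * r + 1) : ℕ) / (8000000 * ((k : ℝ) + 1) ^ 2))) < 3 / 4) :
    4095 ^ (8001 * (2 * r + 1)) ≤ (fml Prod.snd b e 0).card *
      ((s * (W ^ (2 * κ + 3) * 2 ^ (46758 * (2 * r + 1)))) *
        (2 ^ (2 * r + 1) * 4096 ^ (4081 * (2 * r + 1) + 3920))) := by
  classical
  have hcE : Fintype.card (Ed D r) = 8001 * (2 * r + 1) := by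
    rw [Fintype.card_prod, Fintype.card_fin, Fintype.card_fin, hD]
  obtain ⟨m, hm⟩ : ∃ m, m = 24003 * (2 * r + 1) := ⟨_, rfl⟩
  have hm4 : 96012 * (2 * r + 1) = 4 * m := by rw [hm]; ring
  rw [hm4] at hL1 hL2 hbad
  have hm0 : 0 < m := by omega
  have hL0 : 0 < L := by
    have : 0 < 8 * (4 * m) ^ 2 := by positivity
    omega
  obtain ⟨m', hm'⟩ : ∃ m', m' = 2 ^ (2 * κ * ℓ) * L := ⟨_, rfl⟩
  rw [← hm'] at hM
  obtain ⟨a, ha⟩ : ∃ a : Fin m' → Fin (M + 1), ∀ i, (a i : ℕ) = i :=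
    ⟨fun i => ⟨i, by have := i.2; omega⟩, fun i => rfl⟩
  obtain ⟨a', ha'⟩ : ∃ b : Fin m' → Fin (M + 1), ∀ i, (b i : ℕ) = m' + i :=
    ⟨fun i => ⟨m' + i, by have := i.2; omega⟩, fun i => rfl⟩
  have hea : ∀ p q, e (Sum.inr p) = e (Sum.inr q) → (p : ℕ) = q := fun p q hpq =>
    congrArg Fin.val (Sum.inr_injective (he hpq))
  have hAB : Disjoint (univ.image fun i => e (Sum.inr (a i)))
      (univ.image fun i => e (Sum.inr (a' i))) := by
    rw [Finset.disjoint_left]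
    intro v hv hv2
    obtain ⟨i, -, rfl⟩ := Finset.mem_image.mp hv
    obtain ⟨j, -, hj⟩ := Finset.mem_image.mp hv2
    have h1 := hea _ _ hj
    rw [ha, ha'] at h1
    have := i.2
    omega
  have hcA : (univ.image fun i => e (Sum.inr (a i))).card = m' := by
    rw [Finset.card_image_of_injective, Finset.card_univ, Fintype.card_fin]
    intro i j hij
    have h1 := hea _ _ hij
    rw [ha, ha] at h1
    exact Fin.ext h1
  have hcB : (univ.image fun i => e (Sum.inr (a' i))).card = m' := by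
    rw [Finset.card_image_of_injective, Finset.card_univ, Fintype.card_fin]
    intro i j hij
    have h1 := hea _ _ hij
    rw [ha', ha'] at h1
    exact Fin.ext (by omega)
  obtain ⟨A0, hA0, B0, hB0, hmA, hmB, hblk⟩ := exists_blks κ L (List.ofFn S) _ _ hAB
    (by
      intro s hs v
      obtain ⟨j, rfl⟩ := (List.mem_ofFn' S s).mp hs
      exact hS j v)
    (by rw [List.length_ofFn, hcA, hm']) (by rw [List.length_ofFn, hcB, hm'])
  -- the places
  have hplace : ∀ (A : Finset (Fin n)) (c : Fin m' → Fin (M + 1)),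
      A ⊆ (univ.image fun i => e (Sum.inr (c i))) → L ≤ A.card →
      ∃ p : Fin L → Fin (M + 1), Function.Injective p ∧ ∀ i, e (Sum.inr (p i)) ∈ A := by
    intro A c hA hLA
    obtain ⟨f⟩ : Nonempty (Fin L ↪ A) := Function.Embedding.nonempty_of_card_le (by
      rw [Fintype.card_coe, Fintype.card_fin]
      exact hLA)
    have h1 : ∀ i, ∃ p, e (Sum.inr p) = f i := fun i => by
      obtain ⟨t, -, h2⟩ := Finset.mem_image.mp (hA (f i).2)
      exact ⟨_, h2⟩
    choose p hp using h1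
    refine ⟨p, fun i j hij => ?_, fun i => ?_⟩
    · refine f.injective (Subtype.ext ?_)
      rw [← hp, ← hp, hij]
    · rw [hp]
      exact (f i).2
  obtain ⟨pa, hpa, hpaA⟩ := hplace A0 a hA0 hmA
  obtain ⟨pb, hpb, hpbB⟩ := hplace B0 a' hB0 hmB
  have hab : ∀ i j, pa i ≠ pb j := by
    intro i j hij
    have h1 := hA0 (hpaA i)
    rw [hij] at h1
    exact Finset.disjoint_left.mp hAB h1 (hB0 (hpbB j))
  obtain ⟨idx⟩ : Nonempty (Ed D r × Fin 12 ≃ Fin (4 * m)) :=
    ⟨Fintype.equivFinOfCardEq (by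
      rw [Fintype.card_prod, hcE, Fintype.card_fin, ← hm4]
      ring)⟩
  -- the bad choices
  have hex : ∀ (C : Finset (Fin n × Bool)) (i : ι),
      ∃ bad : Finset (Fin (4 * m) → Fin L × Fin L), C ∈ fml Prod.snd b e 0 →
      ((bad.card : ℝ) ≤ Fintype.card (Fin (4 * m) → Fin L × Fin L) *
        Real.exp (- ((4 * m : ℕ) / (8000000 * ((k : ℝ) + 1) ^ 2))) ∧
      ∀ ω ∉ bad, (Function.Injective fun t => (ω t).1) → (Function.Injective fun t => (ω t).2) →
        ∀ Z : (Ed D r → B) → (Ed D r → B) → Fin n → Bool,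
          (∀ v ∉ liv e (ptr idx pa pb ω) false, ∀ x x' y, Z x y v = Z x' y v) →
          (∀ v ∉ liv e (ptr idx pa pb ω) true, ∀ x y y', Z x y v = Z x y' v) →
          Rk (W ^ (2 * κ + 3) * 2 ^ (487 * (4 * m) / 1000)) (fun x y => g C i (Z x y))) := by
    intro C i
    by_cases hC : C ∈ fml Prod.snd b e 0
    · obtain ⟨j, hj⟩ := hg C hC i
      obtain ⟨bad, h1⟩ := term_bad e idx pa pb he hm0 hL0 hpa hpb hab hpaA hpbB hL2
        (hblk (S j) ((List.mem_ofFn' S _).mpr ⟨j, rfl⟩)) hj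
      exact ⟨bad, fun _ => h1⟩
    · exact ⟨∅, fun h => absurd h hC⟩
  choose bad hbad1 using hex
  obtain ⟨Ω, hΩ⟩ : ∃ Ω : ℝ, Ω = Fintype.card (Fin (4 * m) → Fin L × Fin L) := ⟨_, rfl⟩
  have hΩ0 : 0 < Ω := by
    have : Nonempty (Fin L) := ⟨⟨0, hL0⟩⟩
    rw [hΩ]
    exact_mod_cast Fintype.card_pos
  obtain ⟨ω, hω1, hω2⟩ : ∃ ω : Fin (4 * m) → Fin L × Fin L,
      ((Function.Injective fun t => (ω t).1) ∧ Function.Injective fun t => (ω t).2) ∧
      ∀ C ∈ fml Prod.snd b e 0, ∀ i, ω ∉ bad C i := by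
    by_contra hcon
    push Not at hcon
    have h3 : (univ.filter fun ω : Fin (4 * m) → Fin L × Fin L =>
        (Function.Injective fun t => (ω t).1) ∧ Function.Injective fun t => (ω t).2) ⊆
        (fml Prod.snd b e 0 ×ˢ (univ : Finset ι)).biUnion fun q => bad q.1 q.2 := by
      intro ω hω
      obtain ⟨C, hC, i, hi⟩ := hcon ω (Finset.mem_filter.mp hω).2
      exact Finset.mem_biUnion.mpr ⟨(C, i), Finset.mem_product.mpr ⟨hC, mem_univ _⟩, hi⟩
    have h4 := (Finset.card_le_card h3).trans Finset.card_biUnion_le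
    have h5 : ((∑ q ∈ fml Prod.snd b e 0 ×ˢ (univ : Finset ι), (bad q.1 q.2).card : ℕ) :
        ℝ) ≤ (((fml Prod.snd b e 0).card * s : ℕ) : ℝ) *
        (Ω * Real.exp (- ((4 * m : ℕ) / (8000000 * ((k : ℝ) + 1) ^ 2)))) := by
      push_cast
      refine (Finset.sum_le_sum fun q hq =>
        (hbad1 q.1 q.2 (Finset.mem_product.mp hq).1).1).trans (le_of_eq ?_)
      rw [Finset.sum_const, Finset.card_product, Finset.card_univ, hι, nsmul_eq_mul, hΩ]
      push_cast
      ring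
    have h6 := card_inj hL1 (by omega)
    have h7 : (3 : ℝ) * Ω ≤ 4 * ((univ.filter fun ω : Fin (4 * m) → Fin L × Fin L =>
        (Function.Injective fun t => (ω t).1) ∧ Function.Injective fun t => (ω t).2).card : ℝ) := by
      rw [hΩ]
      exact_mod_cast h6
    have h8 : ((univ.filter fun ω : Fin (4 * m) → Fin L × Fin L =>
        (Function.Injective fun t => (ω t).1) ∧ Function.Injective fun t => (ω t).2).card : ℝ) ≤
        ((∑ q ∈ fml Prod.snd b e 0 ×ˢ (univ : Finset ι), (bad q.1 q.2).card : ℕ) : ℝ) := by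
      exact_mod_cast h4
    have h9 : (((fml Prod.snd b e 0).card * s : ℕ) : ℝ) *
        (Ω * Real.exp (- ((4 * m : ℕ) / (8000000 * ((k : ℝ) + 1) ^ 2)))) < 3 / 4 * Ω := by
      calc _ = ((((fml Prod.snd b e 0).card * s : ℕ) : ℝ) *
            Real.exp (- ((4 * m : ℕ) / (8000000 * ((k : ℝ) + 1) ^ 2)))) * Ω := by ring
        _ < 3 / 4 * Ω := mul_lt_mul_of_pos_right hbad hΩ0
    linarith
  have hπ := ptr_inj idx pa pb hpa hpb hab hω1.1 hω1.2
  have h1 := fml_lower Prod.snd b e he h2 (w0 := 0) ht hc hπ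
    (s * (W ^ (2 * κ + 3) * 2 ^ (487 * (4 * m) / 1000))) (fun C x => ∑ i, g C i x) (by
      intro Z hZA hZB C hC
      have h3 := Rk.sum (univ : Finset ι)
        (r := fun _ => W ^ (2 * κ + 3) * 2 ^ (487 * (4 * m) / 1000))
        (f := fun i x y => g C i (Z x y)) (fun i _ =>
          (hbad1 C i hC).2 ω (hω2 C hC i) hω1.1 hω1.2 Z hZA hZB)
      rw [Finset.sum_const, Finset.card_univ, hι, smul_eq_mul] at h3
      exact h3) hsum
  rw [hcE, Fintype.card_fin] at h1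
  refine h1.trans (Nat.mul_le_mul_left _ (Nat.mul_le_mul_right _ (Nat.mul_le_mul_left _
    (Nat.mul_le_mul_left _ (Nat.pow_le_pow_right (by norm_num) ?_)))))
  rw [hm]
  omega

end Pool.Agent.J4H24.D3
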