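import Pool.Agent.J4H24.D3.Prd

/-!
# The main theorem
-/

namespace Pool.Agent.J4H24.D3

open Finset Pool.Agent.J4H24.NS

lemma pow_4096 (v : ℕ) : (4096 : ℝ) ^ (8001 * v) ≤ 8 ^ v * 4095 ^ (8001 * v) := by
  have h1 : (4096 / 4095 : ℝ) ^ 8001 ≤ 8 := by
    have h2 : (4096 / 4095 : ℝ) ≤ Real.exp (1 / 4095) := by
      have := Real.add_one_le_exp (1 / 4095 : ℝ)
      linarith
    have h3 : (4096 / 4095 : ℝ) ^ 8001 ≤ Real.exp (1 / 4095) ^ 8001 :=
      pow_le_pow_left₀ (by norm_num) h2 _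
    rw [← Real.exp_nat_mul] at h3
    have h4 : Real.exp (((8001 : ℕ) : ℝ) * (1 / 4095)) ≤ Real.exp 2 := by
      refine Real.exp_le_exp.mpr ?_
      norm_num
    have h5 : Real.exp 2 ≤ 8 := by
      have h6 := Real.exp_one_lt_d9
      have h7 : Real.exp 2 = Real.exp 1 * Real.exp 1 := by rw [← Real.exp_add]; norm_num
      rw [h7]
      nlinarith [Real.exp_pos 1]
    exact h3.trans (h4.trans h5)
  have h2 : ((4096 / 4095 : ℝ) ^ 8001) ^ v ≤ 8 ^ v := pow_le_pow_left₀ (by positivity) h1 _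
  rw [← pow_mul, div_pow, div_le_iff₀ (by positivity)] at h2
  exact h2

/-- the arithmetic -/
lemma arith (w r0 : ℕ) {ε : ℝ} (hε : 0 < ε) : ∃ N0 : ℕ, ∀ n ≥ N0,
    (1 : ℝ) ≤ n ∧ (100000 : ℝ) ≤ (n : ℝ) ^ (ε / 20) ∧ (r0 : ℝ) + 1 ≤ (n : ℝ) ^ (ε / 20) ∧
    w * (Real.log 3 + Real.log n) + ((n : ℝ) ^ (ε / 20)) ^ 2 * Real.log 2 + 1 ≤
      3 / 1000 * ((n : ℝ) ^ (ε / 20)) ^ 3 ∧
    w * (Real.log 3 + Real.log n) + ((n : ℝ) ^ (ε / 20)) ^ 2 * Real.log 2 + 47040 * Real.log 2 <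
      278 * ((n : ℝ) ^ (ε / 20)) ^ 5 * Real.log 2 := by
  obtain ⟨c, hc⟩ : ∃ c : ℝ, c = w * (2 + 20 / ε) + 2 := ⟨_, rfl⟩
  have hc0 : 2 ≤ c := by
    rw [hc]
    have : 0 ≤ w * (2 + 20 / ε) := by positivity
    linarith
  have e1 : ∀ᶠ x : ℝ in Filter.atTop, 1000 * (c + 1) + 100000 + (r0 + 1) ≤ x ^ (ε / 20) :=
    (tendsto_rpow_atTop (by positivity)).eventually_ge_atTop _
  obtain ⟨x0, hx0⟩ := Filter.eventually_atTop.mp (e1.and (Filter.eventually_ge_atTop 1))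
  refine ⟨⌈x0⌉₊, fun n hn => ?_⟩
  obtain ⟨h1, h2⟩ := hx0 n (Nat.ceil_le.mp hn)
  obtain ⟨y, hy⟩ : ∃ y : ℝ, y = (n : ℝ) ^ (ε / 20) := ⟨_, rfl⟩
  rw [← hy] at h1 ⊢
  have hr0 : (0 : ℝ) ≤ r0 := Nat.cast_nonneg _
  have hy1 : 100000 ≤ y := by linarith
  have hy2 : 1000 * (c + 1) ≤ y := by linarith
  have hlog : Real.log n ≤ 20 / ε * y := by
    have h3 := Real.log_le_rpow_div (x := (n : ℝ)) (by linarith) (show 0 < ε / 20 by positivity)
    rw [← hy] at h3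
    refine h3.trans (le_of_eq ?_)
    field_simp
  have hlog3 : Real.log 3 ≤ 2 := by
    have := Real.log_le_sub_one_of_pos (show (0 : ℝ) < 3 by norm_num)
    linarith
  have hlog2 : Real.log 2 ≤ 1 := by
    have := Real.log_le_sub_one_of_pos (show (0 : ℝ) < 2 by norm_num)
    linarith
  have hlog2' : (1 / 2 : ℝ) ≤ Real.log 2 := by
    have := Real.log_two_gt_d9
    linarith
  have h4 : (w : ℝ) * (Real.log 3 + Real.log n) ≤ (c - 2) * y := by
    have h5 : Real.log 3 + Real.log n ≤ (2 + 20 / ε) * y := by nlinarith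
    calc (w : ℝ) * (Real.log 3 + Real.log n) ≤ w * ((2 + 20 / ε) * y) := by gcongr
      _ = (c - 2) * y := by rw [hc]; ring
  have h5 : y ^ 2 * Real.log 2 ≤ y ^ 2 := by nlinarith [sq_nonneg y]
  have h6 : 1000 * (c + 1) * y ^ 2 ≤ y ^ 3 := by
    calc 1000 * (c + 1) * y ^ 2 ≤ y * y ^ 2 := by gcongr
      _ = y ^ 3 := by ring
  have h7 : y ≤ y ^ 2 := by nlinarith
  refine ⟨h2, hy1, by linarith, ?_, ?_⟩
  · nlinarith
  · have h8 : y ^ 3 ≤ y ^ 5 := pow_le_pow_right₀ (by linarith) (by norm_num)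
    have h9 : 47040 * Real.log 2 ≤ y ^ 2 := by nlinarith
    have h10 : y ^ 5 ≤ 278 * y ^ 5 * Real.log 2 / 100 := by nlinarith [pow_pos (show 0 < y by linarith) 5]
    nlinarith

lemma fin_arith {A Q t v c0 s w : ℕ} (hA : A = 8001 * v) (hQ : Q = 46758 * v)
    (ht : t = 4081 * v + 3920) {n y Wp : ℝ} (hn0 : 0 < n) (hFr : (c0 : ℝ) ≤ (3 * n) ^ w)
    (hW : 0 < Wp) (hlt : s * Wp < (2 : ℝ) ^ (y ^ 2))
    (h : (4095 : ℝ) ^ A ≤ c0 * ((s * (Wp * 2 ^ Q)) * (2 ^ v * 4096 ^ t))) (hv : y ^ 5 ≤ v)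
    (ha : w * (Real.log 3 + Real.log n) + y ^ 2 * Real.log 2 + 47040 * Real.log 2 <
      278 * y ^ 5 * Real.log 2) : False := by
  have hA1 : (4096 : ℝ) ^ A ≤ 8 ^ v * 4095 ^ A := by
    rw [hA]
    exact pow_4096 v
  have hA2 : (A : ℝ) = 8001 * v := by rw [hA]; push_cast; ring
  have hQ2 : (Q : ℝ) = 46758 * v := by rw [hQ]; push_cast; ring
  have ht2 : (t : ℝ) = 4081 * v + 3920 := by rw [ht]; push_cast; ring
  clear hA hQ ht
  have h3 : (4095 : ℝ) ^ A ≤ (3 * n) ^ w * ((s * (Wp * 2 ^ Q)) * (2 ^ v * 4096 ^ t)) :=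
    h.trans (mul_le_mul_of_nonneg_right hFr (by positivity))
  have h4 : (4096 : ℝ) ^ A < 8 ^ v * ((3 * n) ^ w * ((2 ^ (y ^ 2) * 2 ^ Q) *
      (2 ^ v * 4096 ^ t))) := by
    calc (4096 : ℝ) ^ A ≤ 8 ^ v * 4095 ^ A := hA1
      _ ≤ 8 ^ v * ((3 * n) ^ w * ((s * (Wp * 2 ^ Q)) * (2 ^ v * 4096 ^ t))) := by gcongr
      _ < _ := by
        rw [← mul_assoc (s : ℝ)]
        gcongr
  have h5 := Real.log_lt_log (by positivity) h4
  have hp2 : (0 : ℝ) < 2 ^ (y ^ 2) := Real.rpow_pos_of_pos (by norm_num) _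
  have l4096 : Real.log 4096 = 12 * Real.log 2 := by
    rw [show (4096 : ℝ) = 2 ^ 12 by norm_num, Real.log_pow]
    norm_num
  have l8 : Real.log 8 = 3 * Real.log 2 := by
    rw [show (8 : ℝ) = 2 ^ 3 by norm_num, Real.log_pow]
    norm_num
  rw [Real.log_mul (by positivity) (by positivity), Real.log_mul (by positivity) (by positivity),
    Real.log_mul (by positivity) (by positivity), Real.log_mul (by positivity) (by positivity),
    Real.log_mul (by positivity) (by positivity), Real.log_pow, Real.log_pow, Real.log_pow,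
    Real.log_pow, Real.log_pow, Real.log_pow, Real.log_mul (by norm_num) hn0.ne',
    Real.log_rpow (by norm_num), l4096, l8, hA2, hQ2, ht2] at h5
  have h6 : 278 * y ^ 5 * Real.log 2 ≤ 278 * v * Real.log 2 := by
    have : 0 ≤ Real.log 2 := Real.log_nonneg (by norm_num)
    gcongr
  linarith

/-- the part with the Tseitin contradiction -/
theorem tse_part {D r M n w : ℕ} (hD : D = 8000) (b : Ed D r → Fin (2 * r + 1))
    (hb1 : ∀ U : Finset (Fin (2 * r + 1)), U.card = r →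
      ((bd (Prod.snd : Ed D r → _) b U)ᶜ).card ≤ 4081 * (2 * r + 1) + 3920)
    (hb2 : ∀ U : Finset (Fin (2 * r + 1)), U.Nonempty → U.card ≤ r →
      (bd (Prod.snd : Ed D r → _) b U).Nonempty)
    (e : Var (Ed D r) M → Fin n) (he : Function.Injective e) {ε y : ℝ} (hn0 : (0 : ℝ) < n)
    (hyn : y ^ 20 ≤ n) (hn1e : (n : ℝ) ^ (1 - ε) * y ^ 20 = n) (hy1 : 100000 ≤ y)
    (ha1 : w * (Real.log 3 + Real.log n) + y ^ 2 * Real.log 2 + 1 ≤ 3 / 1000 * y ^ 3)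
    (ha2 : w * (Real.log 3 + Real.log n) + y ^ 2 * Real.log 2 + 47040 * Real.log 2 <
      278 * y ^ 5 * Real.log 2) (hr1 : (r : ℝ) ≤ y ^ 5) (hr2 : y ^ 5 < r + 1)
    (hM : n / 2 / (192024 * (2 * r + 1) + 1) = M + 1) {K : Type*} [Field K] (h2 : (2 : K) ≠ 0)
    {ι : Type*} [Fintype ι] {k κ ℓ s cp W : ℕ} (hι : Fintype.card ι = cp * s)
    (hk : (k : ℝ) ≤ y) (hκ : (4 : ℝ) ^ (κ * ℓ) ≤ y) (S : Fin ℓ → List (Fin n))
    (hS : ∀ j v, (S j).count v ≤ κ) (g : Finset (Fin n × Bool) → ι → (Fin n → Bool) → K)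
    (hg : ∀ C ∈ fml Prod.snd b e 0, ∀ i, ∃ j, Tm K ((n : ℝ) ^ (1 - ε)) k W (S j) (g C i))
    (hsum : ∀ x, (∀ v ∉ Set.range e, x v = false) →
      ∑ C ∈ fml Prod.snd b e 0 with Fals C x, ∑ i, g C i x = 1)
    (hFr : (((fml Prod.snd b e 0).card * cp : ℕ) : ℝ) ≤ (3 * n) ^ w)
    (hlt : s * (W : ℝ) ^ (2 * κ + 3) < (2 : ℝ) ^ (y ^ 2)) (hW : 1 ≤ W) : False := by
  have hy0 : 0 < y := by linarith
  obtain ⟨v, hv⟩ : ∃ v, v = 2 * r + 1 := ⟨_, rfl⟩
  have hv1 : y ^ 5 ≤ v := by rw [hv]; push_cast; linarith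
  have hy5 : y ≤ y ^ 5 := by
    calc y = y ^ 1 := (pow_one y).symm
      _ ≤ y ^ 5 := pow_le_pow_right₀ (by linarith) (by norm_num)
  have hv2 : (v : ℝ) ≤ 3 * y ^ 5 := by rw [hv]; push_cast; linarith
  rw [← hv] at hM
  obtain ⟨c0, hc0⟩ : ∃ c0, c0 = (fml Prod.snd b e 0).card := ⟨_, rfl⟩
  rw [← hc0] at hFr
  have hW1 : (1 : ℝ) ≤ (W : ℝ) ^ (2 * κ + 3) := one_le_pow₀ (by exact_mod_cast hW)
  have hs0 : (0 : ℝ) ≤ s := Nat.cast_nonneg _
  have hs1 : (s : ℝ) ≤ 2 ^ (y ^ 2) := by nlinarith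
  have hlog2' : (1 / 2 : ℝ) ≤ Real.log 2 := by
    have := Real.log_two_gt_d9
    linarith
  have e3n : ((3 : ℝ) * n) ^ w = Real.exp (w * (Real.log 3 + Real.log n)) := by
    rw [← Real.log_mul (by norm_num) hn0.ne', Real.exp_nat_mul, Real.exp_log (by positivity)]
  have e2y : (2 : ℝ) ^ (y ^ 2) = Real.exp (y ^ 2 * Real.log 2) := by
    rw [Real.rpow_def_of_pos (by norm_num), mul_comm]
  obtain ⟨L, hL⟩ : ∃ L, L = 1000 * ((96012 * v) * k * ⌊(n : ℝ) ^ (1 - ε)⌋₊) +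
    8 * (96012 * v) ^ 2 := ⟨_, rfl⟩
  have hML : 2 * (2 ^ (2 * κ * ℓ) * L) ≤ M + 1 := by
    rw [← hM, Nat.le_div_iff_mul_le (by omega)]
    have h3 : (4 * (2 * (2 ^ (2 * κ * ℓ) * L) * (192024 * v + 1)) : ℝ) ≤ n := by
      have h4 : (2 : ℝ) ^ (2 * κ * ℓ) ≤ y := by
        rw [mul_assoc, pow_mul]
        norm_num
        exact hκ
      obtain ⟨z, hz⟩ : ∃ z : ℝ, z = (n : ℝ) ^ (1 - ε) := ⟨_, rfl⟩
      have hz0 : 0 ≤ z := by rw [hz]; positivity
      have h5 : (⌊(n : ℝ) ^ (1 - ε)⌋₊ : ℝ) ≤ z := by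
        rw [hz]
        exact Nat.floor_le (by positivity)
      rw [← hz] at hn1e
      have h6 : (L : ℝ) ≤ 1000 * ((96012 * (3 * y ^ 5)) * y * z) + 8 * (96012 * (3 * y ^ 5)) ^ 2 := by
        rw [hL]
        push_cast
        gcongr
      have h7 : (192024 * v + 1 : ℝ) ≤ 600000 * y ^ 5 := by
        have : (1 : ℝ) ≤ y ^ 5 := by linarith
        linarith
      calc (4 * (2 * (2 ^ (2 * κ * ℓ) * L) * (192024 * v + 1)) : ℝ)
          ≤ 4 * (2 * (y * (1000 * ((96012 * (3 * y ^ 5)) * y * z) +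
            8 * (96012 * (3 * y ^ 5)) ^ 2)) * (600000 * y ^ 5)) := by gcongr
        _ = (4 * 2 * 1000 * 96012 * 3 * 600000) * (z * y ^ 12) +
            (4 * 2 * 8 * 96012 ^ 2 * 9 * 600000) * y ^ 16 := by ring
        _ ≤ n / 2 + n / 2 := by
            refine add_le_add ?_ ?_
            · rw [← hn1e]
              have h8 : (100000 : ℝ) ^ 8 ≤ y ^ 8 := pow_le_pow_left₀ (by norm_num) hy1 _
              have h9 : (0 : ℝ) ≤ z * y ^ 12 := by positivity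
              calc (4 * 2 * 1000 * 96012 * 3 * 600000) * (z * y ^ 12)
                  ≤ (100000 : ℝ) ^ 8 / 2 * (z * y ^ 12) := by
                    refine mul_le_mul_of_nonneg_right (by norm_num) h9
                _ ≤ y ^ 8 / 2 * (z * y ^ 12) := by gcongr
                _ = z * y ^ 20 / 2 := by ring
            · refine le_trans ?_ (div_le_div_of_nonneg_right hyn (by norm_num))
              have h8 : (100000 : ℝ) ^ 4 ≤ y ^ 4 := pow_le_pow_left₀ (by norm_num) hy1 _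
              calc (4 * 2 * 8 * 96012 ^ 2 * 9 * 600000) * y ^ 16
                  ≤ (100000 : ℝ) ^ 4 / 2 * y ^ 16 := by
                    refine mul_le_mul_of_nonneg_right (by norm_num) (by positivity)
                _ ≤ y ^ 4 / 2 * y ^ 16 := by gcongr
                _ = y ^ 20 / 2 := by ring
        _ = n := by ring
    have h4 : 4 * (2 * (2 ^ (2 * κ * ℓ) * L) * (192024 * v + 1)) ≤ n := by exact_mod_cast h3
    omega
  have hbad : (((fml Prod.snd b e 0).card * (cp * s) : ℕ) : ℝ) *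
      Real.exp (- ((96012 * (2 * r + 1) : ℕ) / (8000000 * ((k : ℝ) + 1) ^ 2))) < 3 / 4 := by
    rw [← hc0, ← hv, ← mul_assoc]
    have h3 : 3 / 1000 * y ^ 3 ≤ ((96012 * v : ℕ) : ℝ) / (8000000 * ((k : ℝ) + 1) ^ 2) := by
      rw [le_div_iff₀ (by positivity)]
      have h4 : ((k : ℝ) + 1) ^ 2 ≤ (2 * y) ^ 2 := pow_le_pow_left₀ (by positivity) (by linarith) _
      calc 3 / 1000 * y ^ 3 * (8000000 * ((k : ℝ) + 1) ^ 2)
          ≤ 3 / 1000 * y ^ 3 * (8000000 * (2 * y) ^ 2) := by gcongr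
        _ = 96000 * y ^ 5 := by ring
        _ ≤ ((96012 * v : ℕ) : ℝ) := by
            push_cast
            nlinarith [pow_pos hy0 5]
    have h4 : ((c0 * cp * s : ℕ) : ℝ) ≤
        Real.exp (w * (Real.log 3 + Real.log n) + y ^ 2 * Real.log 2) := by
      rw [Real.exp_add, ← e3n, ← e2y, Nat.cast_mul]
      exact mul_le_mul hFr hs1 hs0 (by positivity)
    calc ((c0 * cp * s : ℕ) : ℝ) *
          Real.exp (- (((96012 * v : ℕ) : ℝ) / (8000000 * ((k : ℝ) + 1) ^ 2)))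
        ≤ Real.exp (w * (Real.log 3 + Real.log n) + y ^ 2 * Real.log 2) *
          Real.exp (- (3 / 1000 * y ^ 3)) := by
          refine mul_le_mul h4 (Real.exp_le_exp.mpr (neg_le_neg h3)) (Real.exp_pos _).le
            (Real.exp_pos _).le
      _ = Real.exp (w * (Real.log 3 + Real.log n) + y ^ 2 * Real.log 2 - 3 / 1000 * y ^ 3) := by
          rw [← Real.exp_add]
          rfl
      _ ≤ Real.exp (-1) := Real.exp_le_exp.mpr (by linarith)
      _ < 3 / 4 := by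
          rw [Real.exp_neg, inv_lt_comm₀ (Real.exp_pos _) (by norm_num)]
          have := Real.exp_one_gt_d9
          norm_num
          linarith
  have hlow := lower (L := L) hD b hb1 hb2 e he h2 hι hML (by rw [← hv, hL]; omega)
    (by rw [← hv, hL]; omega) S hS g hg hsum hbad
  rw [← hc0, ← hv] at hlow
  refine fin_arith (A := 8001 * v) (Q := 46758 * v) (t := 4081 * v + 3920) (v := v)
    (c0 := c0 * cp) (s := s) (w := w) rfl rfl rfl hn0 hFr (zero_lt_one.trans_le hW1) hlt ?_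
    hv1 ha2
  have h5 : 4095 ^ (8001 * v) ≤ (c0 * cp) * ((s * (W ^ (2 * κ + 3) * 2 ^ (46758 * v))) *
      (2 ^ v * 4096 ^ (4081 * v + 3920))) := by
    refine hlow.trans (le_of_eq ?_)
    simp only [mul_assoc]
  exact_mod_cast h5

/-- the part with the pebbling contradiction -/
theorem peb_part {h M n w : ℕ} (e : Vr h (2 * Fintype.card (Ver h)) M → Fin n)
    (he : Function.Injective e) {ε y : ℝ} (hn0 : (0 : ℝ) < n) (hyn : y ^ 40 ≤ n)
    (hn1e : (n : ℝ) ^ (1 - ε) * y ^ 40 = n) (hy1 : 100000 ≤ y)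
    (ha3 : w * (Real.log 3 + Real.log n) + y ^ 2 * Real.log 2 + 2 ≤ (4 * y ^ 2 - 8) * Real.log 2)
    (ha4 : Real.log 3 + w * (Real.log 3 + Real.log n) + y ^ 2 * Real.log 2 +
      y ^ 3 / 2 * Real.log 2 < (y ^ 3 - 1) * Real.log 2)
    (hh1 : ((h + 1 : ℕ) : ℝ) ≤ y ^ 3) (hh2 : y ^ 3 < ((h + 1 : ℕ) : ℝ) + 1)
    (hM : n / 2 / (2 * (2 * (h + 1) ^ 4) + 1) = M + 1) {K : Type*} [Field K]
    {ι : Type*} [Fintype ι] {k κ ℓ s cp W : ℕ} (hι : Fintype.card ι = cp * s)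
    (hk : (k : ℝ) ≤ y) (hκ : (4 : ℝ) ^ (κ * ℓ) ≤ y) (S : Fin ℓ → List (Fin n))
    (hS : ∀ j v, (S j).count v ≤ κ) (g : Finset (Fin n × Bool) → ι → (Fin n → Bool) → K)
    (hg : ∀ C ∈ frm e, ∀ i, ∃ j, Few K ((n : ℝ) ^ (1 - ε)) k W (S j) (g C i))
    (hsum : ∀ x, (∀ v ∉ Set.range e, x v = false) →
      ∑ C ∈ frm e with Fals C x, ∑ i, g C i x = 1)
    (hFr : (((frm e).card * cp : ℕ) : ℝ) ≤ (3 * n) ^ w)
    (hlt : s * (W : ℝ) ^ (2 * κ + 3) < (2 : ℝ) ^ (y ^ 2)) (hW : 1 ≤ W) : False := by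
  have hy0 : 0 < y := by linarith
  obtain ⟨c0, hc0⟩ : ∃ c0, c0 = (frm e).card := ⟨_, rfl⟩
  rw [← hc0] at hFr
  have hW1 : (1 : ℝ) ≤ (W : ℝ) ^ (2 * κ + 3) := one_le_pow₀ (by exact_mod_cast hW)
  have hs0 : (0 : ℝ) ≤ s := Nat.cast_nonneg _
  have hs1 : (s : ℝ) ≤ 2 ^ (y ^ 2) := by nlinarith
  have hlog2' : (1 / 2 : ℝ) ≤ Real.log 2 := by
    have := Real.log_two_gt_d9
    linarith
  have e3n : ((3 : ℝ) * n) ^ w = Real.exp (w * (Real.log 3 + Real.log n)) := by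
    rw [← Real.log_mul (by norm_num) hn0.ne', Real.exp_nat_mul, Real.exp_log (by positivity)]
  have e2y : (2 : ℝ) ^ (y ^ 2) = Real.exp (y ^ 2 * Real.log 2) := by
    rw [Real.rpow_def_of_pos (by norm_num), mul_comm]
  obtain ⟨m, hm⟩ : ∃ m, m = 2 * (h + 1) ^ 4 := ⟨_, rfl⟩
  have hm1 : (m : ℝ) ≤ 2 * y ^ 12 := by
    rw [hm]
    push_cast at hh1 ⊢
    calc 2 * ((h : ℝ) + 1) ^ 4 ≤ 2 * (y ^ 3) ^ 4 := by gcongr
      _ = 2 * y ^ 12 := by ring
  rw [← hm] at hM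
  obtain ⟨t, ht⟩ : ∃ t, t = ⌊y ^ 2 / 2⌋₊ := ⟨_, rfl⟩
  have ht1 : (t : ℝ) ≤ y ^ 2 / 2 := by rw [ht]; exact Nat.floor_le (by positivity)
  have ht2 : y ^ 2 / 2 < t + 1 := by rw [ht]; exact Nat.lt_floor_add_one _
  obtain ⟨L, hL⟩ : ∃ L, L = 256 * (m * (m * k * ⌊(n : ℝ) ^ (1 - ε)⌋₊)) + 8 * m ^ 2 := ⟨_, rfl⟩
  have hML : 2 * (2 ^ (2 * κ * ℓ) * L) ≤ M + 1 := by
    rw [← hM, Nat.le_div_iff_mul_le (by omega)]
    have h3 : (4 * (2 * (2 ^ (2 * κ * ℓ) * L) * (2 * m + 1)) : ℝ) ≤ n := by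
      have h4 : (2 : ℝ) ^ (2 * κ * ℓ) ≤ y := by
        rw [mul_assoc, pow_mul]
        norm_num
        exact hκ
      obtain ⟨z, hz⟩ : ∃ z : ℝ, z = (n : ℝ) ^ (1 - ε) := ⟨_, rfl⟩
      have hz0 : 0 ≤ z := by rw [hz]; positivity
      have h5 : (⌊(n : ℝ) ^ (1 - ε)⌋₊ : ℝ) ≤ z := by
        rw [hz]
        exact Nat.floor_le (by positivity)
      rw [← hz] at hn1e
      have h6 : (L : ℝ) ≤ 256 * ((2 * y ^ 12) * ((2 * y ^ 12) * y * z)) + 8 * (2 * y ^ 12) ^ 2 := by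
        rw [hL]
        push_cast
        gcongr
      have h7 : (2 * m + 1 : ℝ) ≤ 5 * y ^ 12 := by
        have : (1 : ℝ) ≤ y ^ 12 := one_le_pow₀ (by linarith)
        linarith
      calc (4 * (2 * (2 ^ (2 * κ * ℓ) * L) * (2 * m + 1)) : ℝ)
          ≤ 4 * (2 * (y * (256 * ((2 * y ^ 12) * ((2 * y ^ 12) * y * z)) +
            8 * (2 * y ^ 12) ^ 2)) * (5 * y ^ 12)) := by gcongr
        _ = 40960 * (z * y ^ 38) + 1280 * y ^ 37 := by ring
        _ ≤ n / 2 + n / 2 := by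
            refine add_le_add ?_ ?_
            · rw [← hn1e]
              have h8 : (100000 : ℝ) ^ 2 ≤ y ^ 2 := pow_le_pow_left₀ (by norm_num) hy1 _
              have h9 : (0 : ℝ) ≤ z * y ^ 38 := by positivity
              calc 40960 * (z * y ^ 38)
                  ≤ (100000 : ℝ) ^ 2 / 2 * (z * y ^ 38) := by
                    refine mul_le_mul_of_nonneg_right (by norm_num) h9
                _ ≤ y ^ 2 / 2 * (z * y ^ 38) := by gcongr
                _ = z * y ^ 40 / 2 := by ring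
            · refine le_trans ?_ (div_le_div_of_nonneg_right hyn (by norm_num))
              have h8 : (100000 : ℝ) ^ 3 ≤ y ^ 3 := pow_le_pow_left₀ (by norm_num) hy1 _
              calc 1280 * y ^ 37
                  ≤ (100000 : ℝ) ^ 3 / 2 * y ^ 37 := by
                    refine mul_le_mul_of_nonneg_right (by norm_num) (by positivity)
                _ ≤ y ^ 3 / 2 * y ^ 37 := by gcongr
                _ = y ^ 40 / 2 := by ring
        _ = n := by ring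
    have h4 : 4 * (2 * (2 ^ (2 * κ * ℓ) * L) * (2 * m + 1)) ≤ n := by exact_mod_cast h3
    omega
  have e256 : (256 : ℝ) ^ t = Real.exp (8 * t * Real.log 2) := by
    rw [show (256 : ℝ) = 2 ^ 8 by norm_num, ← pow_mul, ← Real.exp_log (show (0 : ℝ) < 2 by norm_num),
      ← Real.exp_nat_mul, Real.exp_log (show (0 : ℝ) < 2 by norm_num)]
    push_cast
    ring_nf
  have hbad : (((frm e).card * (cp * s) : ℕ) : ℝ) * Real.exp 1 < 3 / 4 * 256 ^ t := by
    rw [← hc0, ← mul_assoc, e256]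
    have h4 : ((c0 * cp * s : ℕ) : ℝ) ≤
        Real.exp (w * (Real.log 3 + Real.log n) + y ^ 2 * Real.log 2) := by
      rw [Real.exp_add, ← e3n, ← e2y, Nat.cast_mul]
      exact mul_le_mul hFr hs1 hs0 (by positivity)
    have h5 : (4 * y ^ 2 - 8) * Real.log 2 ≤ 8 * t * Real.log 2 := by
      refine mul_le_mul_of_nonneg_right (by linarith) (by linarith)
    calc ((c0 * cp * s : ℕ) : ℝ) * Real.exp 1
        ≤ Real.exp (w * (Real.log 3 + Real.log n) + y ^ 2 * Real.log 2) * Real.exp 1 :=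
          mul_le_mul_of_nonneg_right h4 (Real.exp_pos _).le
      _ = Real.exp (w * (Real.log 3 + Real.log n) + y ^ 2 * Real.log 2 + 1) := by
          rw [← Real.exp_add]
      _ ≤ Real.exp (8 * t * Real.log 2 - 1) := Real.exp_le_exp.mpr (by linarith)
      _ = Real.exp (-1) * Real.exp (8 * t * Real.log 2) := by
          rw [← Real.exp_add]
          congr 1
          ring
      _ < 3 / 4 * Real.exp (8 * t * Real.log 2) := by
          refine mul_lt_mul_of_pos_right ?_ (Real.exp_pos _)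
          rw [Real.exp_neg, inv_lt_comm₀ (Real.exp_pos _) (by norm_num)]
          have := Real.exp_one_gt_d9
          norm_num
          linarith
  have hlow := peb_lower (L := L) (t := t) (l := 256) hm e he hι (by norm_num) hML
    (by rw [hL]; omega) (by
      have : 256 * (m * (m * k * ⌊(n : ℝ) ^ (1 - ε)⌋₊)) ≤ L := by rw [hL]; omega
      exact_mod_cast this) S hS g hg hsum hbad
  rw [← hc0] at hlow
  have h5 : 2 ^ (h + 1) ≤ 3 * ((c0 * cp) * ((s * W ^ (2 * κ + 3)) * 2 ^ (k * t))) := by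
    refine hlow.trans (le_of_eq ?_)
    ring
  have h6 : (2 : ℝ) ^ (h + 1) ≤ 3 * (((c0 * cp : ℕ) : ℝ) *
      ((s * (W : ℝ) ^ (2 * κ + 3)) * 2 ^ (k * t))) := by exact_mod_cast h5
  have hp2 : (0 : ℝ) < 2 ^ (y ^ 2) := Real.rpow_pos_of_pos (by norm_num) _
  have h7 : (2 : ℝ) ^ (h + 1) ≤ 3 * ((3 * n) ^ w * (2 ^ (y ^ 2) * 2 ^ (k * t))) := by
    refine h6.trans ?_
    gcongr
  have h8 := Real.log_le_log (by positivity) h7
  rw [Real.log_mul (by positivity) (by positivity), Real.log_mul (by positivity) (by positivity),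
    Real.log_mul (by positivity) (by positivity), Real.log_pow, Real.log_pow, Real.log_pow,
    Real.log_mul (by norm_num) hn0.ne', Real.log_rpow (by norm_num)] at h8
  have h9 : ((k * t : ℕ) : ℝ) * Real.log 2 ≤ y ^ 3 / 2 * Real.log 2 := by
    refine mul_le_mul_of_nonneg_right ?_ (by linarith)
    push_cast
    calc (k : ℝ) * t ≤ y * (y ^ 2 / 2) := by gcongr
      _ = y ^ 3 / 2 := by ring
  have h10 : (y ^ 3 - 1) * Real.log 2 ≤ ((h + 1 : ℕ) : ℝ) * Real.log 2 := by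
    refine mul_le_mul_of_nonneg_right (by linarith) (by linarith)
  linarith

end Pool.Agent.J4H24.D3
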