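import Mathlib

/-!
# The bounded differences inequality on finite powers
-/

namespace Pool.Agent.J4H24.D3

open Finset

/-- the average of a function on a finite type -/
noncomputable def av {Ω : Type*} [Fintype Ω] (f : Ω → ℝ) : ℝ := (∑ ω, f ω) / Fintype.card Ω

section

variable {Ω : Type*} [Fintype Ω]

lemma av_mono {f g : Ω → ℝ} (h : ∀ ω, f ω ≤ g ω) : av f ≤ av g := by
  unfold av
  exact div_le_div_of_nonneg_right (Finset.sum_le_sum fun ω _ => h ω) (Nat.cast_nonneg _)

lemma av_nonneg {f : Ω → ℝ} (h : ∀ ω, 0 ≤ f ω) : 0 ≤ av f :=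
  div_nonneg (Finset.sum_nonneg fun ω _ => h ω) (Nat.cast_nonneg _)

lemma av_add (f g : Ω → ℝ) : av (fun ω => f ω + g ω) = av f + av g := by
  unfold av
  rw [Finset.sum_add_distrib, add_div]

lemma av_sum {ι : Type*} (s : Finset ι) (f : ι → Ω → ℝ) :
    av (fun ω => ∑ i ∈ s, f i ω) = ∑ i ∈ s, av (f i) := by
  unfold av
  rw [Finset.sum_comm, Finset.sum_div]

lemma av_smul (c : ℝ) (f : Ω → ℝ) : av (fun ω => c * f ω) = c * av f := by
  unfold av
  rw [← Finset.mul_sum, mul_div_assoc]

lemma av_const [Nonempty Ω] (c : ℝ) : av (fun _ : Ω => c) = c := by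
  unfold av
  have : (0 : ℝ) < Fintype.card Ω := by exact_mod_cast Fintype.card_pos
  rw [Finset.sum_const, Finset.card_univ, nsmul_eq_mul]
  field_simp

lemma av_equiv {Ω' : Type*} [Fintype Ω'] (e : Ω ≃ Ω') (f : Ω' → ℝ) :
    av (fun ω => f (e ω)) = av f := by
  unfold av
  rw [Fintype.card_congr e, e.sum_comp]

lemma av_prod {Ω' : Type*} [Fintype Ω'] (f : Ω × Ω' → ℝ) :
    av f = av fun ω => av fun ω' => f (ω, ω') := by
  unfold av
  rw [Fintype.sum_prod_type, Fintype.card_prod, ← Finset.sum_div, div_div]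
  push_cast
  rw [mul_comm]

lemma av_mul {Ω' : Type*} [Fintype Ω'] (f : Ω → ℝ) (g : Ω' → ℝ) :
    av (fun ω : Ω × Ω' => f ω.1 * g ω.2) = av f * av g := by
  rw [av_prod]
  simp only [av_smul]
  unfold av
  rw [← Finset.sum_mul]
  ring

/-- centred bounded functions -/
lemma av_exp [Nonempty Ω] {h : Ω → ℝ} {c : ℝ} (hc : 0 < c) (h0 : av h = 0)
    (hb : ∀ ω, |h ω| ≤ c) (t : ℝ) : av (fun ω => Real.exp (t * h ω)) ≤ Real.exp ((t * c) ^ 2 / 2) := by
  have h1 : ∀ ω, Real.exp (t * h ω) ≤ Real.cosh (t * c) + Real.sinh (t * c) / c * h ω := by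
    intro ω
    have h2 : |h ω / c| ≤ 1 := by
      rw [abs_div, abs_of_pos hc, div_le_one hc]
      exact hb ω
    have h3 := Real.exp_mul_le_cosh_add_mul_sinh h2 (t * c)
    have e1 : h ω / c * (t * c) = t * h ω := by field_simp
    rw [e1] at h3
    refine h3.trans (le_of_eq ?_)
    ring
  refine (av_mono h1).trans ?_
  rw [av_add, av_const, av_smul, h0, mul_zero, add_zero]
  exact Real.cosh_le_exp_half_sq _

end

variable {A : Type*} [Fintype A] [Nonempty A]

lemma av_cons {n : ℕ} (f : (Fin (n + 1) → A) → ℝ) :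
    av f = av fun a => av fun ω => f (Fin.cons a ω) := by
  rw [← av_prod (fun p : A × (Fin n → A) => f (Fin.cons p.1 p.2)),
    ← av_equiv (Fin.consEquiv fun _ => A) f]
  rfl

theorem mgf (c t : ℝ) (hc : 0 < c) : ∀ (n : ℕ) (f : (Fin n → A) → ℝ),
    (∀ ω i a, f (Function.update ω i a) ≤ f ω + c) →
    av (fun ω => Real.exp (t * (f ω - av f))) ≤ Real.exp (n * ((t * c) ^ 2 / 2))
  | 0, f, _ => by
    have h1 : ∀ ω, f ω = av f := by
      intro ω
      have h2 : f = fun _ => f ω := by
        funext ω'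
        rw [Subsingleton.elim ω' ω]
      have h3 := av_const (Ω := Fin 0 → A) (f ω)
      rw [← h2] at h3
      exact h3.symm
    have h2 : (fun ω : Fin 0 → A => Real.exp (t * (f ω - av f))) = fun _ => 1 := by
      funext ω
      rw [h1 ω, sub_self, mul_zero, Real.exp_zero]
    rw [h2, av_const]
    simp
  | n + 1, f, hf => by
    obtain ⟨g, hg⟩ : ∃ g : A → ℝ, ∀ a, g a = av fun ω : Fin n → A => f (Fin.cons a ω) :=
      ⟨_, fun _ => rfl⟩
    have hav : av f = av g := by
      rw [av_cons]
      congr 1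
      funext a
      exact (hg a).symm
    have hfa : ∀ a, ∀ (ω : Fin n → A) i b,
        f (Fin.cons a (Function.update ω i b)) ≤ f (Fin.cons a ω) + c := by
      intro a ω i b
      have h1 := hf (Fin.cons a ω) i.succ b
      rwa [← Fin.cons_update] at h1
    have hga : ∀ a b, g a ≤ g b + c := by
      intro a b
      rw [hg, hg, ← av_const (Ω := Fin n → A) c, ← av_add]
      refine av_mono fun ω => ?_
      have h1 := hf (Fin.cons b ω) 0 a
      rwa [Fin.update_cons_zero] at h1
    have hgb : ∀ a, |g a - av g| ≤ c := by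
      intro a
      rw [abs_le]
      constructor
      · have h1 : av g ≤ g a + c := by
          rw [← av_const (Ω := A) (g a + c)]
          exact av_mono fun b => hga b a
        linarith
      · have h1 : g a - c ≤ av g := by
          rw [← av_const (Ω := A) (g a - c)]
          exact av_mono fun b => by linarith [hga a b]
        linarith
    have hg0 : av (fun a => g a - av g) = 0 := by
      have h1 := av_add (Ω := A) g (fun _ => - av g)
      rw [av_const] at h1
      rw [← sub_self (av g), sub_eq_add_neg (av g), ← h1]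
      congr 1
    rw [hav, av_cons]
    have h1 : ∀ a, av (fun ω : Fin n → A => Real.exp (t * (f (Fin.cons a ω) - av g))) ≤
        Real.exp (n * ((t * c) ^ 2 / 2)) * Real.exp (t * (g a - av g)) := by
      intro a
      have h2 := mgf c t hc n (fun ω => f (Fin.cons a ω)) (hfa a)
      rw [← hg a] at h2
      have h3 : (fun ω : Fin n → A => Real.exp (t * (f (Fin.cons a ω) - av g))) =
          fun ω => Real.exp (t * (g a - av g)) * Real.exp (t * (f (Fin.cons a ω) - g a)) := by
        funext ω
        rw [← Real.exp_add]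
        congr 1
        ring
      rw [h3, av_smul, mul_comm]
      exact mul_le_mul_of_nonneg_right h2 (Real.exp_pos _).le
    refine (av_mono h1).trans ?_
    rw [av_smul]
    have h2 := av_exp hc hg0 hgb t
    calc Real.exp (n * ((t * c) ^ 2 / 2)) * av (fun a => Real.exp (t * (g a - av g)))
        ≤ Real.exp (n * ((t * c) ^ 2 / 2)) * Real.exp ((t * c) ^ 2 / 2) :=
          mul_le_mul_of_nonneg_left h2 (Real.exp_pos _).le
      _ = Real.exp ((n + 1 : ℕ) * ((t * c) ^ 2 / 2)) := by
          rw [← Real.exp_add]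
          congr 1
          push_cast
          ring

/-- the bounded differences inequality -/
theorem mcd {n : ℕ} (hn : 0 < n) {c l : ℝ} (hc : 0 < c) (f : (Fin n → A) → ℝ)
    (hf : ∀ ω i a, f (Function.update ω i a) ≤ f ω + c) :
    (((univ.filter fun ω => av f + l ≤ f ω).card : ℕ) : ℝ) ≤
      Fintype.card (Fin n → A) * Real.exp (- (l ^ 2 / (2 * n * c ^ 2))) ∨ l < 0 := by
  rcases lt_or_ge l 0 with hl | hl
  · exact Or.inr hl
  left
  have hn' : (0 : ℝ) < n := by exact_mod_cast hn
  obtain ⟨t, ht⟩ : ∃ t, t = l / (n * c ^ 2) := ⟨_, rfl⟩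
  have ht0 : 0 ≤ t := by rw [ht]; positivity
  have h1 := mgf c t hc n f hf
  have hcard : (0 : ℝ) < Fintype.card (Fin n → A) := by exact_mod_cast Fintype.card_pos
  unfold av at h1
  rw [div_le_iff₀ hcard] at h1
  have h2 : ((univ.filter fun ω => av f + l ≤ f ω).card : ℝ) * Real.exp (t * l) ≤
      ∑ ω, Real.exp (t * (f ω - av f)) := by
    rw [← nsmul_eq_mul, ← Finset.sum_const]
    refine (Finset.sum_le_sum fun ω hω => ?_).trans
      (Finset.sum_le_sum_of_subset_of_nonneg (Finset.filter_subset _ _)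
        fun ω _ _ => (Real.exp_pos _).le)
    refine Real.exp_le_exp.mpr (mul_le_mul_of_nonneg_left ?_ ht0)
    have := (Finset.mem_filter.mp hω).2
    linarith
  have h3 : ((univ.filter fun ω => av f + l ≤ f ω).card : ℝ) * Real.exp (t * l) ≤
      Real.exp (n * ((t * c) ^ 2 / 2)) * Fintype.card (Fin n → A) := h2.trans h1
  have h4 : Real.exp (- (l ^ 2 / (2 * n * c ^ 2))) * Real.exp (t * l) =
      Real.exp (n * ((t * c) ^ 2 / 2)) := by
    rw [← Real.exp_add]
    congr 1
    rw [ht]
    field_simp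
    ring
  rw [← h4] at h3
  refine le_of_mul_le_mul_right ?_ (Real.exp_pos (t * l))
  linarith

end Pool.Agent.J4H24.D3
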