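import Pool.Agent.J4H24.D3.Pla

/-!
# The lower bound for the pebbling formula, over every field
-/

namespace Pool.Agent.J4H24.D3

open Finset Pool.Agent.J4H24.NS

theorem peb_lower {h M n L m : ℕ} (hm : m = 2 * (h + 1) ^ 4)
    (e : Vr h (2 * Fintype.card (Ver h)) M → Fin n) (he : Function.Injective e)
    {K : Type*} [Field K] {ι : Type*} [Fintype ι] {k κ ℓ s W t : ℕ} (hι : Fintype.card ι = s)
    {β l : ℝ} (hl : 1 ≤ l) (hM : 2 * (2 ^ (2 * κ * ℓ) * L) ≤ M + 1) (hL1 : 8 * m ^ 2 ≤ L)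
    (hL2 : l * (m * (m * k * ⌊β⌋₊ : ℕ)) ≤ L) (S : Fin ℓ → List (Fin n))
    (hS : ∀ j v, (S j).count v ≤ κ) (g : Finset (Fin n × Bool) → ι → (Fin n → Bool) → K)
    (hg : ∀ C ∈ frm e, ∀ i, ∃ j, Few K β k W (S j) (g C i))
    (hsum : ∀ x, (∀ v ∉ Set.range e, x v = false) →
      ∑ C ∈ frm e with Fals C x, ∑ i, g C i x = 1)
    (hbad : (((frm e).card * s : ℕ) : ℝ) * Real.exp 1 < 3 / 4 * l ^ t) :
    2 ^ (h + 1) ≤ 3 * ((frm e).card * (s * (W ^ (2 * κ + 3) * 2 ^ (k * t)))) := by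
  classical
  have hm0 : 0 < m := by rw [hm]; positivity
  have hL0 : 0 < L := by
    have : 0 < 8 * m ^ 2 := by positivity
    omega
  have hc : Function.Injective fun p : Fin (M + 1) => e (Sum.inr p) :=
    he.comp Sum.inr_injective
  obtain ⟨A0, B0, pa, pb, hblk, hpa, hpb, hab, hpaA, hpbB⟩ := exists_pairs _ hc S hS hM
  have hcV : Fintype.card (Ver h) = (h + 1) ^ 2 := by
    rw [Fintype.card_prod, Fintype.card_fin]
    ring
  obtain ⟨idx⟩ : Nonempty (Ver h × Fin (2 * Fintype.card (Ver h)) ≃ Fin m) :=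
    ⟨Fintype.equivFinOfCardEq (by
      rw [Fintype.card_prod, Fintype.card_fin, hcV, hm]
      ring)⟩
  have hex : ∀ (C : Finset (Fin n × Bool)) (i : ι),
      ∃ bad : Finset (Fin m → Fin L × Fin L), C ∈ frm e →
      ((bad.card : ℝ) * l ^ t ≤ Fintype.card (Fin m → Fin L × Fin L) * Real.exp 1 ∧
      ∀ ω ∉ bad, (Function.Injective fun t => (ω t).1) → (Function.Injective fun t => (ω t).2) →
        ∀ {X Y : Type} (Z : X → Y → Fin n → Bool),
          (∀ v ∉ liq (fun p => e (Sum.inr p)) idx pa pb ω false, ∀ x x' y, Z x y v = Z x' y v) →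
          (∀ v ∉ liq (fun p => e (Sum.inr p)) idx pa pb ω true, ∀ x y y', Z x y v = Z x y' v) →
          Rk (W ^ (2 * κ + 3) * 2 ^ (k * t)) (fun x y => g C i (Z x y))) := by
    intro C i
    by_cases hC : C ∈ frm e
    · obtain ⟨j, hj⟩ := hg C hC i
      obtain ⟨bad, h1⟩ := peb_bad idx pa pb hc hL0 hpa hpb hab hpaA hpbB hl hL2 (hblk j) hj t
      exact ⟨bad, fun _ => h1⟩
    · exact ⟨∅, fun h => absurd h hC⟩
  choose bad hbad1 using hex
  obtain ⟨Ω, hΩ⟩ : ∃ Ω : ℝ, Ω = Fintype.card (Fin m → Fin L × Fin L) := ⟨_, rfl⟩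
  have hΩ0 : 0 < Ω := by
    have : Nonempty (Fin L) := ⟨⟨0, hL0⟩⟩
    rw [hΩ]
    exact_mod_cast Fintype.card_pos
  have hlt0 : 0 < l ^ t := by positivity
  obtain ⟨ω, hω1, hω2⟩ : ∃ ω : Fin m → Fin L × Fin L,
      ((Function.Injective fun t => (ω t).1) ∧ Function.Injective fun t => (ω t).2) ∧
      ∀ C ∈ frm e, ∀ i, ω ∉ bad C i := by
    by_contra hcon
    push Not at hcon
    have h3 : (univ.filter fun ω : Fin m → Fin L × Fin L =>
        (Function.Injective fun t => (ω t).1) ∧ Function.Injective fun t => (ω t).2) ⊆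
        (frm e ×ˢ (univ : Finset ι)).biUnion fun q => bad q.1 q.2 := by
      intro ω hω
      obtain ⟨C, hC, i, hi⟩ := hcon ω (Finset.mem_filter.mp hω).2
      exact Finset.mem_biUnion.mpr ⟨(C, i), Finset.mem_product.mpr ⟨hC, mem_univ _⟩, hi⟩
    have h4 := (Finset.card_le_card h3).trans Finset.card_biUnion_le
    have h5 : ((∑ q ∈ frm e ×ˢ (univ : Finset ι), (bad q.1 q.2).card : ℕ) : ℝ) * l ^ t ≤
        (((frm e).card * s : ℕ) : ℝ) * (Ω * Real.exp 1) := by
      push_cast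
      rw [Finset.sum_mul]
      refine (Finset.sum_le_sum fun q hq =>
        (hbad1 q.1 q.2 (Finset.mem_product.mp hq).1).1).trans (le_of_eq ?_)
      rw [Finset.sum_const, Finset.card_product, Finset.card_univ, hι, nsmul_eq_mul, hΩ]
      push_cast
      ring
    have h6 := card_inj hL1 hm0
    have h7 : (3 : ℝ) * Ω ≤ 4 * ((univ.filter fun ω : Fin m → Fin L × Fin L =>
        (Function.Injective fun t => (ω t).1) ∧ Function.Injective fun t => (ω t).2).card : ℝ) := by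
      rw [hΩ]
      exact_mod_cast h6
    have h8 : ((univ.filter fun ω : Fin m → Fin L × Fin L =>
        (Function.Injective fun t => (ω t).1) ∧ Function.Injective fun t => (ω t).2).card : ℝ) ≤
        ((∑ q ∈ frm e ×ˢ (univ : Finset ι), (bad q.1 q.2).card : ℕ) : ℝ) := by
      exact_mod_cast h4
    have h9 : (((frm e).card * s : ℕ) : ℝ) * (Ω * Real.exp 1) < 3 / 4 * Ω * l ^ t := by
      calc _ = ((((frm e).card * s : ℕ) : ℝ) * Real.exp 1) * Ω := by ring
        _ < 3 / 4 * l ^ t * Ω := mul_lt_mul_of_pos_right hbad hΩ0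
        _ = _ := by ring
    have h10 : 3 / 4 * Ω * l ^ t ≤
        ((∑ q ∈ frm e ×ˢ (univ : Finset ι), (bad q.1 q.2).card : ℕ) : ℝ) * l ^ t :=
      mul_le_mul_of_nonneg_right (by linarith) hlt0.le
    linarith
  have hπ := ptq_inj idx pa pb hpa hpb hab hω1.1 hω1.2
  have h1 := frm_lower e rfl he hπ
    (A := liq (fun p => e (Sum.inr p)) idx pa pb ω false)
    (B := liq (fun p => e (Sum.inr p)) idx pa pb ω true)
    (fun v i => Finset.mem_image.mpr ⟨(v, i), mem_univ _, rfl⟩)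
    (fun v i => Finset.mem_image.mpr ⟨(v, i), mem_univ _, rfl⟩)
    (s * (W ^ (2 * κ + 3) * 2 ^ (k * t))) (fun C x => ∑ i, g C i x) (by
      intro Z hZA hZB C hC
      have h3 := Rk.sum (univ : Finset ι)
        (r := fun _ => W ^ (2 * κ + 3) * 2 ^ (k * t))
        (f := fun i x y => g C i (Z x y)) (fun i _ =>
          (hbad1 C i hC).2 ω (hω2 C hC i) hω1.1 hω1.2 Z hZA hZB)
      rw [Finset.sum_const, Finset.card_univ, hι, smul_eq_mul] at h3
      exact h3) hsum
  exact h1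

end Pool.Agent.J4H24.D3
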