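import Pool.Agent.J4H24.D3.Low

/-!
# Few collisions; places for the pebbling formula
-/

namespace Pool.Agent.J4H24.D3

open Finset Pool.Agent.J4H24.NS

section

variable {A : Type*} [Fintype A] [Nonempty A] [DecidableEq A] {I : Type*} [Fintype I]

omit [Nonempty A] [Fintype A] in
lemma pow_cn {m : ℕ} (D : Finset A) (l : ℝ) (ω : Fin m → A) :
    l ^ cn D ω = ∏ t, (if ω t ∈ D then l else 1) := by
  unfold cn
  rw [Finset.prod_ite, Finset.prod_const_one, mul_one, Finset.prod_const]

lemma av_pow_cn {m d : ℕ} (D : Finset A) (hD : D.card ≤ d) {l : ℝ} (hl : 1 ≤ l)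
    (hA : l * (m * d) ≤ Fintype.card A) : av (fun ω : Fin m → A => l ^ cn D ω) ≤ Real.exp 1 := by
  have hM : (0 : ℝ) < Fintype.card A := by exact_mod_cast Fintype.card_pos
  simp only [pow_cn]
  rw [av_pow (fun a => if a ∈ D then l else 1)]
  have h1 : av (fun a : A => if a ∈ D then l else 1) = 1 + (l - 1) * (D.card / Fintype.card A) := by
    have h3 : (fun a : A => if a ∈ D then l else 1) =
        fun a => 1 + (l - 1) * (if a ∈ D then (1 : ℝ) else 0) := by
      funext a
      split_ifs <;> ring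
    rw [h3, av_add, av_const, av_smul, av_ind]
  rw [h1]
  have h2 : 1 + (l - 1) * (D.card / Fintype.card A : ℝ) ≤
      Real.exp ((l - 1) * (D.card / Fintype.card A)) := by
    have := Real.add_one_le_exp ((l - 1) * (D.card / Fintype.card A : ℝ))
    linarith
  have h0 : 0 ≤ (l - 1) * (D.card / Fintype.card A : ℝ) :=
    mul_nonneg (by linarith) (by positivity)
  refine (pow_le_pow_left₀ (by linarith) h2 m).trans ?_
  rw [← Real.exp_nat_mul]
  refine Real.exp_le_exp.mpr ?_
  have h3 : (D.card : ℝ) ≤ d := by exact_mod_cast hD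
  have h4 : (0 : ℝ) ≤ m := Nat.cast_nonneg _
  calc (m : ℝ) * ((l - 1) * (D.card / Fintype.card A))
      = (l - 1) * (m * D.card) / Fintype.card A := by ring
    _ ≤ l * (m * d) / Fintype.card A := by
        refine div_le_div_of_nonneg_right ?_ hM.le
        refine mul_le_mul (by linarith) (by gcongr) (by positivity) (by linarith)
    _ ≤ 1 := by
        rw [div_le_one hM]
        exact hA

/-- the places of the second kind that share a block with a hit of the first kind -/
def dan {m : ℕ} (S S' : I → Finset A) (ω : Fin m → A) : Finset A :=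
  univ.filter fun q => ∃ i, 0 < cn (S i) ω ∧ q ∈ S' i

omit [Nonempty A] in
lemma card_dan {m k β : ℕ} {S S' : I → Finset A}
    (hS : ∀ p, (univ.filter fun i => p ∈ S i).card ≤ k) (hβ : ∀ i, (S' i).card ≤ β)
    (ω : Fin m → A) : (dan S S' ω).card ≤ m * k * β := by
  classical
  have h1 : dan S S' ω ⊆ (univ.filter fun i => 0 < cn (S i) ω).biUnion S' := by
    intro q hq
    obtain ⟨-, i, h2, h3⟩ := Finset.mem_filter.mp hq
    exact Finset.mem_biUnion.mpr ⟨i, Finset.mem_filter.mpr ⟨mem_univ _, h2⟩, h3⟩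
  have h2 : (univ.filter fun i => 0 < cn (S i) ω) ⊆
      (univ : Finset (Fin m)).biUnion fun t => univ.filter fun i => ω t ∈ S i := by
    intro i hi
    obtain ⟨t, ht⟩ := Finset.card_pos.mp (Finset.mem_filter.mp hi).2
    exact Finset.mem_biUnion.mpr ⟨t, mem_univ _, Finset.mem_filter.mpr ⟨mem_univ _,
      (Finset.mem_filter.mp ht).2⟩⟩
  have h3 : (univ.filter fun i => 0 < cn (S i) ω).card ≤ m * k := by
    refine (Finset.card_le_card h2).trans ((Finset.card_biUnion_le_card_mul _ _ k
      fun t _ => hS (ω t)).trans ?_)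
    rw [Finset.card_univ, Fintype.card_fin]
  refine (Finset.card_le_card h1).trans ((Finset.card_biUnion_le_card_mul _ _ β
    fun i _ => hβ i).trans ?_)
  exact Nat.mul_le_mul_right _ h3

omit [Nonempty A] in
lemma sum_min_le {m k : ℕ} {S S' : I → Finset A}
    (hS' : ∀ p, (univ.filter fun i => p ∈ S' i).card ≤ k) (ω ω' : Fin m → A) :
    ∑ i, min (cn (S i) ω) (cn (S' i) ω') ≤ k * cn (dan S S' ω) ω' := by
  classical
  calc ∑ i, min (cn (S i) ω) (cn (S' i) ω')
      ≤ ∑ i, ∑ t, (if ω' t ∈ dan S S' ω ∧ ω' t ∈ S' i then 1 else 0) := by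
        refine Finset.sum_le_sum fun i _ => ?_
        rcases Nat.eq_zero_or_pos (cn (S i) ω) with h | h
        · rw [h]
          simp
        · refine (min_le_right _ _).trans ?_
          rw [← Finset.card_filter]
          refine Finset.card_le_card fun t ht => ?_
          have h2 := (Finset.mem_filter.mp ht).2
          exact Finset.mem_filter.mpr ⟨mem_univ _,
            Finset.mem_filter.mpr ⟨mem_univ _, i, h, h2⟩, h2⟩
    _ = ∑ t, ∑ i, (if ω' t ∈ dan S S' ω ∧ ω' t ∈ S' i then 1 else 0) := Finset.sum_comm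
    _ ≤ ∑ t, (if ω' t ∈ dan S S' ω then k else 0) := by
        refine Finset.sum_le_sum fun t _ => ?_
        split_ifs with h
        · rw [← Finset.card_filter]
          refine le_trans (Finset.card_le_card fun i hi => ?_) (hS' (ω' t))
          exact Finset.mem_filter.mpr ⟨mem_univ _, (Finset.mem_filter.mp hi).2.2⟩
        · refine le_of_eq (Finset.sum_eq_zero fun i _ => if_neg fun h2 => h h2.1)
    _ = k * cn (dan S S' ω) ω' := by
        unfold cn
        rw [← Finset.sum_filter, Finset.sum_const, smul_eq_mul, mul_comm]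

/-- few choices of places have many collisions -/
lemma few_hits {m k β : ℕ} {S S' : I → Finset A}
    (hS : ∀ p, (univ.filter fun i => p ∈ S i).card ≤ k)
    (hS' : ∀ p, (univ.filter fun i => p ∈ S' i).card ≤ k) (hβ : ∀ i, (S' i).card ≤ β)
    {l : ℝ} (hl : 1 ≤ l) (hA : l * (m * (m * k * β : ℕ)) ≤ Fintype.card A) (t : ℕ) :
    (((univ.filter fun ω : Fin m → A × A =>
      k * t < ∑ i, min (c1 (S i) ω) (c2 (S' i) ω)).card : ℕ) : ℝ) * l ^ t ≤
      Fintype.card (Fin m → A × A) * Real.exp 1 := by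
  have h1 : av (fun ω : Fin m → A × A =>
      l ^ cn (dan S S' fun t => (ω t).1) fun t => (ω t).2) ≤ Real.exp 1 := by
    have h2 := av_equiv (Equiv.arrowProdEquivProdArrow (Fin m) (fun _ => A) (fun _ => A))
      (fun p : (Fin m → A) × (Fin m → A) => l ^ cn (dan S S' p.1) p.2)
    have h3 : av (fun p : (Fin m → A) × (Fin m → A) => l ^ cn (dan S S' p.1) p.2) ≤
        Real.exp 1 := by
      rw [av_prod, ← av_const (Ω := Fin m → A) (Real.exp 1)]
      exact av_mono fun ω => av_pow_cn _ (card_dan hS hβ ω) hl hA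
    rw [← h2] at h3
    exact h3
  have hc : (0 : ℝ) < Fintype.card (Fin m → A × A) := by exact_mod_cast Fintype.card_pos
  unfold av at h1
  rw [div_le_iff₀ hc, mul_comm (Real.exp 1)] at h1
  refine le_trans ?_ h1
  rw [← nsmul_eq_mul, ← Finset.sum_const]
  refine (Finset.sum_le_sum fun ω hω => ?_).trans
    (Finset.sum_le_sum_of_subset_of_nonneg (Finset.filter_subset _ _)
      fun ω _ _ => by positivity)
  refine pow_le_pow_right₀ hl ?_
  have h2 := (Finset.mem_filter.mp hω).2
  have h3 := h2.trans_le (sum_min_le (S := S) hS' (fun t => (ω t).1) fun t => (ω t).2)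
  exact (lt_of_mul_lt_mul_left h3 (Nat.zero_le k)).le

end

/-- two places -/
lemma exists_pairs {M n κ ℓ L : ℕ} (c : Fin (M + 1) → Fin n) (hc : Function.Injective c)
    (S : Fin ℓ → List (Fin n)) (hS : ∀ j v, (S j).count v ≤ κ)
    (hM : 2 * (2 ^ (2 * κ * ℓ) * L) ≤ M + 1) :
    ∃ (A B : Finset (Fin n)) (pa pb : Fin L → Fin (M + 1)), (∀ j, Blk A B (2 * κ + 1) (S j)) ∧
      Function.Injective pa ∧ Function.Injective pb ∧ (∀ i j, pa i ≠ pb j) ∧
      (∀ i, c (pa i) ∈ A) ∧ ∀ i, c (pb i) ∈ B := by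
  classical
  obtain ⟨m', hm'⟩ : ∃ m', m' = 2 ^ (2 * κ * ℓ) * L := ⟨_, rfl⟩
  rw [← hm'] at hM
  obtain ⟨a, ha⟩ : ∃ a : Fin m' → Fin (M + 1), ∀ i, (a i : ℕ) = i :=
    ⟨fun i => ⟨i, by have := i.2; omega⟩, fun i => rfl⟩
  obtain ⟨a', ha'⟩ : ∃ b : Fin m' → Fin (M + 1), ∀ i, (b i : ℕ) = m' + i :=
    ⟨fun i => ⟨m' + i, by have := i.2; omega⟩, fun i => rfl⟩
  have hea : ∀ p q, c p = c q → (p : ℕ) = q := fun p q hpq => congrArg Fin.val (hc hpq)
  have hAB : Disjoint (univ.image fun i => c (a i)) (univ.image fun i => c (a' i)) := by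
    rw [Finset.disjoint_left]
    intro v hv hv2
    obtain ⟨i, -, rfl⟩ := Finset.mem_image.mp hv
    obtain ⟨j, -, hj⟩ := Finset.mem_image.mp hv2
    have h1 := hea _ _ hj
    rw [ha, ha'] at h1
    have := i.2
    omega
  have hcA : (univ.image fun i => c (a i)).card = m' := by
    rw [Finset.card_image_of_injective, Finset.card_univ, Fintype.card_fin]
    intro i j hij
    have h1 := hea _ _ hij
    rw [ha, ha] at h1
    exact Fin.ext h1
  have hcB : (univ.image fun i => c (a' i)).card = m' := by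
    rw [Finset.card_image_of_injective, Finset.card_univ, Fintype.card_fin]
    intro i j hij
    have h1 := hea _ _ hij
    rw [ha', ha'] at h1
    exact Fin.ext (by omega)
  obtain ⟨A0, hA0, B0, hB0, hmA, hmB, hblk⟩ := exists_blks κ L (List.ofFn S) _ _ hAB
    (by
      intro s hs v
      obtain ⟨j, rfl⟩ := (List.mem_ofFn' S s).mp hs
      exact hS j v)
    (by rw [List.length_ofFn, hcA, hm']) (by rw [List.length_ofFn, hcB, hm'])
  have hplace : ∀ (A : Finset (Fin n)) (d : Fin m' → Fin (M + 1)),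
      A ⊆ (univ.image fun i => c (d i)) → L ≤ A.card →
      ∃ p : Fin L → Fin (M + 1), Function.Injective p ∧ ∀ i, c (p i) ∈ A := by
    intro A d hA hLA
    obtain ⟨f⟩ : Nonempty (Fin L ↪ A) := Function.Embedding.nonempty_of_card_le (by
      rw [Fintype.card_coe, Fintype.card_fin]
      exact hLA)
    have h1 : ∀ i, ∃ p, c p = f i := fun i => by
      obtain ⟨t, -, h2⟩ := Finset.mem_image.mp (hA (f i).2)
      exact ⟨_, h2⟩
    choose p hp using h1
    refine ⟨p, fun i j hij => ?_, fun i => ?_⟩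
    · refine f.injective (Subtype.ext ?_)
      rw [← hp, ← hp, hij]
    · rw [hp]
      exact (f i).2
  obtain ⟨pa, hpa, hpaA⟩ := hplace A0 a hA0 hmA
  obtain ⟨pb, hpb, hpbB⟩ := hplace B0 a' hB0 hmB
  refine ⟨A0, B0, pa, pb, fun j => hblk (S j) ((List.mem_ofFn' S _).mpr ⟨j, rfl⟩), hpa, hpb, ?_,
    hpaA, hpbB⟩
  intro i j hij
  have h1 := hA0 (hpaA i)
  rw [hij] at h1
  exact Finset.disjoint_left.mp hAB h1 (hB0 (hpbB j))

section place

variable {N : Type*} [Fintype N] {q M n L m : ℕ} (c : Fin (M + 1) → Fin n)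
variable (idx : N × Fin q ≃ Fin m) (pa pb : Fin L → Fin (M + 1))

/-- the pointers that belong to a choice of places -/
def ptq (ω : Fin m → Fin L × Fin L) (l : N × Bool × Fin q) : Fin (M + 1) :=
  bif l.2.1 then pb (ω (idx (l.1, l.2.2))).2 else pa (ω (idx (l.1, l.2.2))).1

omit [Fintype N] in
lemma ptq_inj {ω : Fin m → Fin L × Fin L} (hpa : Function.Injective pa)
    (hpb : Function.Injective pb) (hab : ∀ i j, pa i ≠ pb j)
    (h1 : Function.Injective fun t => (ω t).1) (h2 : Function.Injective fun t => (ω t).2) :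
    Function.Injective (ptq idx pa pb ω) := by
  rintro ⟨f, s, i⟩ ⟨f', s', i'⟩ hl
  unfold ptq at hl
  cases s <;> cases s'
  · simp only [cond_false] at hl
    have h3 := idx.injective (h1 (hpa hl))
    rw [Prod.mk.injEq] at h3
    rw [h3.1, h3.2]
  · simp only [cond_false, cond_true] at hl
    exact absurd hl (hab _ _)
  · simp only [cond_false, cond_true] at hl
    exact absurd hl.symm (hab _ _)
  · simp only [cond_true] at hl
    have h3 := idx.injective (h2 (hpb hl))
    rw [Prod.mk.injEq] at h3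
    rw [h3.1, h3.2]

/-- the places whose cells are in `P` -/
def prq (a : Fin L → Fin (M + 1)) (P : Finset (Fin n)) : Finset (Fin L) :=
  univ.filter fun p => c (a p) ∈ P

/-- the live cells of one side -/
def liq (ω : Fin m → Fin L × Fin L) (s : Bool) : Finset (Fin n) :=
  (univ : Finset (N × Fin q)).image fun p => c (ptq idx pa pb ω (p.1, s, p.2))

lemma card_liq_false {ω : Fin m → Fin L × Fin L} (P : Finset (Fin n)) :
    (P ∩ liq c idx pa pb ω false).card ≤ c1 (prq c pa P) ω := by
  have h1 : P ∩ liq c idx pa pb ω false ⊆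
      (univ.filter fun t => (ω t).1 ∈ prq c pa P).image fun t => c (pa (ω t).1) := by
    intro v hv
    rw [Finset.mem_inter] at hv
    obtain ⟨⟨f, i⟩, -, rfl⟩ := Finset.mem_image.mp hv.2
    refine Finset.mem_image.mpr ⟨idx (f, i), ?_, rfl⟩
    rw [Finset.mem_filter]
    exact ⟨mem_univ _, Finset.mem_filter.mpr ⟨mem_univ _, hv.1⟩⟩
  exact (Finset.card_le_card h1).trans Finset.card_image_le

lemma card_liq_true {ω : Fin m → Fin L × Fin L} (P : Finset (Fin n)) :
    (P ∩ liq c idx pa pb ω true).card ≤ c2 (prq c pb P) ω := by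
  have h1 : P ∩ liq c idx pa pb ω true ⊆
      (univ.filter fun t => (ω t).2 ∈ prq c pb P).image fun t => c (pb (ω t).2) := by
    intro v hv
    rw [Finset.mem_inter] at hv
    obtain ⟨⟨f, i⟩, -, rfl⟩ := Finset.mem_image.mp hv.2
    refine Finset.mem_image.mpr ⟨idx (f, i), ?_, rfl⟩
    rw [Finset.mem_filter]
    exact ⟨mem_univ _, Finset.mem_filter.mpr ⟨mem_univ _, hv.1⟩⟩
  exact (Finset.card_le_card h1).trans Finset.card_image_le

lemma card_prq {c : Fin (M + 1) → Fin n} (hc : Function.Injective c)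
    {a : Fin L → Fin (M + 1)} (ha : Function.Injective a) (P : Finset (Fin n)) :
    (prq c a P).card ≤ P.card := by
  refine Finset.card_le_card_of_injOn (fun p => c (a p)) ?_ ?_
  · intro p hp
    exact (Finset.mem_filter.mp hp).2
  · intro p _ p' _ h
    exact ha (hc h)

lemma disj_liq {c : Fin (M + 1) → Fin n} (hc : Function.Injective c)
    {ω : Fin m → Fin L × Fin L} (hπ : Function.Injective (ptq idx pa pb ω)) :
    Disjoint (liq c idx pa pb ω false) (liq c idx pa pb ω true) := by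
  rw [Finset.disjoint_left]
  intro v hv hv2
  obtain ⟨⟨f, i⟩, -, rfl⟩ := Finset.mem_image.mp hv
  obtain ⟨⟨f', i'⟩, -, h1⟩ := Finset.mem_image.mp hv2
  have h2 := hπ (hc h1)
  simp at h2

/-- most choices of places are good for a term without factors of the third kind -/
lemma peb_bad {c : Fin (M + 1) → Fin n} (hc : Function.Injective c) (hL0 : 0 < L)
    (hpa : Function.Injective pa) (hpb : Function.Injective pb) (hab : ∀ i j, pa i ≠ pb j)
    {A0 B0 : Finset (Fin n)} (hA0 : ∀ p, c (pa p) ∈ A0) (hB0 : ∀ p, c (pb p) ∈ B0)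
    {K : Type*} [Field K] {β l : ℝ} {k κ W : ℕ} (hl : 1 ≤ l)
    (hL : l * (m * (m * k * ⌊β⌋₊ : ℕ)) ≤ L) {s : List (Fin n)}
    (hs : Blk A0 B0 (2 * κ + 1) s) {g : (Fin n → Bool) → K} (hg : Few K β k W s g) (t : ℕ) :
    ∃ bad : Finset (Fin m → Fin L × Fin L),
      (bad.card : ℝ) * l ^ t ≤ Fintype.card (Fin m → Fin L × Fin L) * Real.exp 1 ∧
      ∀ ω ∉ bad, (Function.Injective fun t => (ω t).1) → (Function.Injective fun t => (ω t).2) →
        ∀ {X Y : Type} (Z : X → Y → Fin n → Bool),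
          (∀ v ∉ liq c idx pa pb ω false, ∀ x x' y, Z x y v = Z x' y v) →
          (∀ v ∉ liq c idx pa pb ω true, ∀ x y y', Z x y v = Z x y' v) →
          Rk (W ^ (2 * κ + 3) * 2 ^ (k * t)) (fun x y => g (Z x y)) := by
  obtain ⟨o, d, P, p, ho, hp, hP, hg⟩ := hg
  have : Nonempty (Fin L) := ⟨⟨0, hL0⟩⟩
  have hin : ∀ a : Fin L → Fin (M + 1),
      ∀ z, (univ.filter fun i => z ∈ prq c a (P i)).card ≤ k := by
    intro a z
    refine le_trans (le_of_eq ?_) (hP (c (a z)))
    congr 1
    refine Finset.filter_congr fun i _ => ?_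
    unfold prq
    rw [Finset.mem_filter]
    exact ⟨fun h => h.2, fun h => ⟨mem_univ _, h⟩⟩
  have h1 := few_hits (A := Fin L) (m := m) (k := k) (β := ⌊β⌋₊)
    (S := fun i => prq c pa (P i)) (S' := fun i => prq c pb (P i)) (hin pa) (hin pb)
    (fun i => (card_prq hc hpb (P i)).trans (Nat.le_floor (hp i).2)) hl
    (by rw [Fintype.card_fin]; exact hL) t
  refine ⟨_, h1, ?_⟩
  intro ω hω hi1 hi2 X Y Z hZA hZB
  have hπ := ptq_inj idx pa pb hpa hpb hab hi1 hi2
  have hsub1 : liq c idx pa pb ω false ⊆ A0 := by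
    intro v hv
    obtain ⟨⟨f, i⟩, -, rfl⟩ := Finset.mem_image.mp hv
    exact hA0 _
  have hsub2 : liq c idx pa pb ω true ⊆ B0 := by
    intro v hv
    obtain ⟨⟨f, i⟩, -, rfl⟩ := Finset.mem_image.mp hv
    exact hB0 _
  have h2 := (rk_obp Z hZA hZB (hs.mono hsub1 hsub2) ho).mul (rk_prod' univ fun i _ =>
    rk_small (disj_liq idx pa pb hc hπ) Z hZA hZB (hp i).1)
  rw [Finset.prod_pow_eq_pow_sum] at h2
  refine (h2.congr fun x y => (hg _).symm).mono (Nat.mul_le_mul_left _
    (Nat.pow_le_pow_right (by norm_num) ?_))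
  rw [Finset.mem_filter, not_and, not_lt] at hω
  refine le_trans (Finset.sum_le_sum fun i _ => ?_) (hω (mem_univ _))
  exact min_le_min (card_liq_false c idx pa pb (P i)) (card_liq_true c idx pa pb (P i))

end place

end Pool.Agent.J4H24.D3
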