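import Pool.Agent.J4H24.D3.Peb

/-!
# Products of formulas
-/

namespace Pool.Agent.J4H24.D3

open Finset Pool.Agent.J4H24.NS

variable {T : Type*} [DecidableEq T]

/-- the clauses that are unions of a clause of `F1` and a clause of `F2` -/
def prd (F1 F2 : Finset (Finset (T × Bool))) : Finset (Finset (T × Bool)) :=
  (F1 ×ˢ F2).image fun p => p.1 ∪ p.2

lemma mem_prd {F1 F2 : Finset (Finset (T × Bool))} {C : Finset (T × Bool)} :
    C ∈ prd F1 F2 ↔ ∃ p : Finset (T × Bool) × Finset (T × Bool),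
      (p.1 ∈ F1 ∧ p.2 ∈ F2) ∧ p.1 ∪ p.2 = C := by
  unfold prd
  rw [Finset.mem_image]
  simp only [Finset.mem_product]

lemma prd_comm (F1 F2 : Finset (Finset (T × Bool))) : prd F1 F2 = prd F2 F1 := by
  ext C
  rw [mem_prd, mem_prd]
  constructor
  · rintro ⟨p, ⟨h1, h2⟩, h3⟩
    exact ⟨p.swap, ⟨h2, h1⟩, by rw [← h3, Prod.fst_swap, Prod.snd_swap, Finset.union_comm]⟩
  · rintro ⟨p, ⟨h1, h2⟩, h3⟩
    exact ⟨p.swap, ⟨h2, h1⟩, by rw [← h3, Prod.fst_swap, Prod.snd_swap, Finset.union_comm]⟩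

lemma fals_union {C C' : Finset (T × Bool)} {x : T → Bool} :
    Fals (C ∪ C') x ↔ Fals C x ∧ Fals C' x := by
  unfold Fals
  rw [Finset.forall_mem_union]

lemma prd_unsat {F1 F2 : Finset (Finset (T × Bool))} {x : T → Bool}
    (h1 : ∃ C ∈ F1, Fals C x) (h2 : ∃ C ∈ F2, Fals C x) : ∃ C ∈ prd F1 F2, Fals C x := by
  obtain ⟨C, hC, hx⟩ := h1
  obtain ⟨C', hC', hx'⟩ := h2
  exact ⟨C ∪ C', mem_prd.mpr ⟨(C, C'), ⟨hC, hC'⟩, rfl⟩, fals_union.mpr ⟨hx, hx'⟩⟩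

lemma prd_width {F1 F2 : Finset (Finset (T × Bool))} {w1 w2 : ℕ} (h1 : ∀ C ∈ F1, C.card ≤ w1)
    (h2 : ∀ C ∈ F2, C.card ≤ w2) : ∀ C ∈ prd F1 F2, C.card ≤ w1 + w2 := by
  intro C hC
  obtain ⟨p, ⟨h3, h4⟩, rfl⟩ := mem_prd.mp hC
  exact (Finset.card_union_le _ _).trans (add_le_add (h1 _ h3) (h2 _ h4))

/-- a refutation of the product gives a refutation of the first formula -/
lemma split_sum {K ι : Type*} [Field K] [Fintype ι] {F1 F2 : Finset (Finset (T × Bool))}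
    {R1 R2 : Set T} (hF2 : ∀ C ∈ F2, ∀ l ∈ C, l.1 ∈ R2) (hR : Disjoint R1 R2)
    (g : Finset (T × Bool) → ι → (T → Bool) → K)
    (hsum : ∀ x, ∑ C ∈ prd F1 F2 with Fals C x, ∑ i, g C i x = 1)
    (cls : ((T → Bool) → K) → Prop) (hcls : ∀ C ∈ prd F1 F2, ∀ i, cls (g C i))
    (hsm : ∀ (f : (T → Bool) → K) (c : K), cls f → cls fun x => c * f x) :
    ∃ g' : Finset (T × Bool) → ({C // C ∈ prd F1 F2} × ι) → (T → Bool) → K,
      (∀ C ∈ F1, ∀ q, cls (g' C q)) ∧ ∀ x, (∀ v ∉ R1, x v = false) →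
        ∑ C ∈ F1 with Fals C x, ∑ q, g' C q x = 1 := by
  classical
  have hex : ∀ C : {C // C ∈ prd F1 F2}, ∃ p : Finset (T × Bool) × Finset (T × Bool),
      (p.1 ∈ F1 ∧ p.2 ∈ F2) ∧ p.1 ∪ p.2 = C.1 := fun C => mem_prd.mp C.2
  choose φ hφ hφ2 using hex
  refine ⟨fun C1 q x => (if (φ q.1).1 = C1 ∧ Fals (φ q.1).2 (fun _ => false) then 1 else 0) *
    g q.1.1 q.2 x, fun C1 _ q => hsm _ _ (hcls q.1.1 q.1.2 q.2), fun x hx => ?_⟩
  refine Eq.trans ?_ (hsum x)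
  rw [Finset.sum_comm, Finset.sum_filter, ← Finset.sum_attach (prd F1 F2),
    Fintype.sum_prod_type]
  rw [Finset.univ_eq_attach]
  refine Finset.sum_congr rfl fun C _ => ?_
  have hf2 : Fals (φ C).2 (fun _ => false) ↔ Fals (φ C).2 x := by
    unfold Fals
    refine forall₂_congr fun l hl => ?_
    have h1 : x l.1 = false := hx l.1 fun h => Set.disjoint_left.mp hR h (hF2 _ (hφ C).2 l hl)
    rw [h1]
  have h1 : ∀ i : ι, ∑ C1 ∈ F1 with Fals C1 x,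
      (if (φ C).1 = C1 ∧ Fals (φ C).2 (fun _ => false) then (1 : K) else 0) * g C.1 i x =
      if Fals C.1 x then g C.1 i x else 0 := by
    intro i
    rw [← hφ2 C]
    by_cases h3 : Fals (φ C).1 x ∧ Fals (φ C).2 x
    · rw [if_pos (fals_union.mpr h3), Finset.sum_eq_single_of_mem (φ C).1
        (Finset.mem_filter.mpr ⟨(hφ C).1, h3.1⟩)]
      · rw [if_pos ⟨rfl, hf2.mpr h3.2⟩, one_mul]
      · intro C1 _ hne
        rw [if_neg (fun h => hne h.1.symm), zero_mul]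
    · rw [if_neg (fun h => h3 (fals_union.mp h))]
      refine Finset.sum_eq_zero fun C1 hC1 => ?_
      rw [if_neg, zero_mul]
      rintro ⟨rfl, h4⟩
      exact h3 ⟨(Finset.mem_filter.mp hC1).2, hf2.mp h4⟩
  simp only [h1]
  split_ifs
  · rfl
  · exact Finset.sum_const_zero

lemma obp_smul {K : Type*} [Field K] {W : ℕ} {s : List T} {f : (T → Bool) → K} (c : K)
    (h : OBP K W s f) : OBP K W s fun x => c * f x := by
  obtain ⟨M, u, v, h1, h2⟩ := h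
  refine ⟨M, fun i => c * u i, v, h1, fun x => ?_⟩
  beta_reduce
  rw [h2, Finset.mul_sum]
  refine Finset.sum_congr rfl fun i _ => ?_
  rw [Finset.mul_sum]
  exact Finset.sum_congr rfl fun j _ => by ring

lemma few_smul {K : Type*} [Field K] {n : ℕ} {β : ℝ} {k W : ℕ} {s : List (Fin n)}
    {f : (Fin n → Bool) → K} (c : K) (h : Few K β k W s f) :
    Few K β k W s fun x => c * f x := by
  obtain ⟨o, d, P, p, h1, h2, h3, h4⟩ := h
  exact ⟨fun x => c * o x, d, P, p, obp_smul c h1, h2, h3, fun x => by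
    beta_reduce
    rw [h4]
    ring⟩

lemma tm_smul {K : Type*} [Field K] {n : ℕ} {β : ℝ} {k W : ℕ} {s : List (Fin n)}
    {f : (Fin n → Bool) → K} (c : K) (h : Tm K β k W s f) :
    Tm K β k W s fun x => c * f x := by
  obtain ⟨g1, g2, h1, h2, h3⟩ := h
  exact ⟨fun x => c * g1 x, g2, few_smul c h1, h2, fun x => by
    beta_reduce
    rw [h3]
    ring⟩

lemma fml_range {V E : Type*} [Fintype V] [DecidableEq V] [Fintype E] [DecidableEq E]
    {a b : E → V} {M : ℕ} {e : Var E M → T} {w0 : V} {C : Finset (T × Bool)}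
    (hC : C ∈ fml a b e w0) {l : T × Bool} (hl : l ∈ C) : l.1 ∈ Set.range e := by
  obtain ⟨w, ξ, P, -, rfl⟩ := (mem_fml a b e).mp hC
  obtain ⟨f, -, hl⟩ := Finset.mem_biUnion.mp hl
  obtain ⟨s, -, hl⟩ := Finset.mem_biUnion.mp hl
  obtain ⟨i, -, hl⟩ := Finset.mem_biUnion.mp hl
  rcases Finset.mem_insert.mp hl with rfl | hl
  · exact ⟨_, rfl⟩
  · obtain ⟨q, -, rfl⟩ := Finset.mem_image.mp hl
    exact ⟨_, rfl⟩

lemma frm_range {h Q M : ℕ} {e : Vr h Q M → T} {C : Finset (T × Bool)}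
    (hC : C ∈ frm e) {l : T × Bool} (hl : l ∈ C) : l.1 ∈ Set.range e := by
  obtain ⟨w, ξ, P, -, rfl⟩ := (mem_frm e).mp hC
  obtain ⟨f, -, hl⟩ := Finset.mem_biUnion.mp hl
  obtain ⟨s, -, hl⟩ := Finset.mem_biUnion.mp hl
  obtain ⟨q, -, hl⟩ := Finset.mem_biUnion.mp hl
  rcases Finset.mem_insert.mp hl with rfl | hl
  · exact ⟨_, rfl⟩
  · obtain ⟨q, -, rfl⟩ := Finset.mem_image.mp hl
    exact ⟨_, rfl⟩

end Pool.Agent.J4H24.D3
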