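import Pool.Agent.J4H24.D3.Defs
import Pool.Agent.J4H24.D3.Hit
import Pool.Agent.J4H24.D3.Cnf

/-!
# The rank of a term
-/

namespace Pool.Agent.J4H24.D3

open Finset Pool.Agent.J4H24.NS

section

variable {V K X Y : Type*} [Field K]

lemma rk_swap {r : ℕ} {f : X → Y → K} (h : Rk r f) : Rk r (fun y x => f x y) := by
  obtain ⟨n, a, b, hn, h⟩ := h
  exact ⟨n, b, a, hn, fun y x => (h x y).trans (Finset.sum_congr rfl fun i _ => mul_comm _ _)⟩

lemma rk_empty {f : X → Y → K} {r : ℕ} (h : IsEmpty X ∨ IsEmpty Y) : Rk r f := by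
  rcases h with h | h
  · exact ((Rk.zero (K := K) (X := X) (Y := Y)).congr fun x => h.elim x).mono (Nat.zero_le _)
  · exact ((Rk.zero (K := K) (X := X) (Y := Y)).congr fun _ y => h.elim y).mono (Nat.zero_le _)

lemma rk_prod' {ι : Type*} (s : Finset ι) {r : ι → ℕ} {f : ι → X → Y → K}
    (h : ∀ i ∈ s, Rk (r i) (f i)) : Rk (∏ i ∈ s, r i) (fun x y => ∏ i ∈ s, f i x y) := by
  classical
  induction s using Finset.induction_on with
  | empty => simpa using Rk.left (K := K) (X := X) (Y := Y) (fun _ => 1)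
  | insert i s hi ih =>
    rw [Finset.prod_insert hi]
    refine ((h i (Finset.mem_insert_self _ _)).mul
      (ih fun j hj => h j (Finset.mem_insert_of_mem hj))).congr fun x y => ?_
    rw [Finset.prod_insert hi]

variable [DecidableEq V] {A B : Finset V}

/-- functions of few live variables of the first kind -/
lemma rk_small1 (hAB : Disjoint A B) (Z : X → Y → V → Bool)
    (hA : ∀ v ∉ A, ∀ x x' y, Z x y v = Z x' y v) (hB : ∀ v ∉ B, ∀ x y y', Z x y v = Z x y' v)
    {P : Finset V} {h : (V → Bool) → K} (hP : Dep (P : Set V) h) :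
    Rk (2 ^ (P ∩ A).card) (fun x y => h (Z x y)) := by
  classical
  rcases isEmpty_or_nonempty X with hX | ⟨⟨x0⟩⟩
  · exact rk_empty (Or.inl hX)
  rcases isEmpty_or_nonempty Y with hY | ⟨⟨y0⟩⟩
  · exact rk_empty (Or.inr hY)
  have h1 := Rk.of_fintype (K := K) (f := fun x y => h (Z x y)) (ι := (↥(P ∩ A) → Bool))
    (fun τ x => if (fun v : ↥(P ∩ A) => Z x y0 v) = τ then 1 else 0)
    (fun τ y => h (fun v => if hv : v ∈ P ∩ A then τ ⟨v, hv⟩ else Z x0 y v)) (fun x y => by
      simp only [ite_mul, one_mul, zero_mul]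
      rw [Finset.sum_ite_eq univ]
      simp only [Finset.mem_univ, if_true]
      refine hP _ _ fun v hv => ?_
      have hv' : v ∈ P := hv
      by_cases h2 : v ∈ A
      · rw [dif_pos (Finset.mem_inter.mpr ⟨hv', h2⟩)]
        exact hB v (Finset.disjoint_left.mp hAB h2) x y y0
      · rw [dif_neg (fun h3 => h2 (Finset.mem_inter.mp h3).2)]
        exact hA v h2 x x0 y)
  rwa [Fintype.card_fun, Fintype.card_bool, Fintype.card_coe] at h1

lemma rk_small (hAB : Disjoint A B) (Z : X → Y → V → Bool)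
    (hA : ∀ v ∉ A, ∀ x x' y, Z x y v = Z x' y v) (hB : ∀ v ∉ B, ∀ x y y', Z x y v = Z x y' v)
    {P : Finset V} {h : (V → Bool) → K} (hP : Dep (P : Set V) h) :
    Rk (2 ^ (min (P ∩ A).card (P ∩ B).card)) (fun x y => h (Z x y)) := by
  rcases le_total (P ∩ A).card (P ∩ B).card with h1 | h1
  · rw [min_eq_left h1]
    exact rk_small1 hAB Z hA hB hP
  · rw [min_eq_right h1]
    exact rk_swap (rk_small1 hAB.symm (fun y x => Z x y) (fun v hv y y' x => hB v hv x y y')
      (fun v hv y x x' => hA v hv x x' y) hP)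

omit [DecidableEq V] in
lemma rk_two (hAB : Disjoint A B) (Z : X → Y → V → Bool)
    (hA : ∀ v ∉ A, ∀ x x' y, Z x y v = Z x' y v) (hB : ∀ v ∉ B, ∀ x y y', Z x y v = Z x y' v)
    {h : (V → Bool) → K} (h2 : Two h) : Rk 2 (fun x y => h (Z x y)) := by
  rcases isEmpty_or_nonempty X with hX | ⟨⟨x0⟩⟩
  · exact rk_empty (Or.inl hX)
  rcases isEmpty_or_nonempty Y with hY | ⟨⟨y0⟩⟩
  · exact rk_empty (Or.inr hY)
  obtain ⟨a, a', b, b', ha, ha', hb, hb', h3⟩ := h2 (A : Set V)
  have h4 := ((Rk.left (K := K) (Y := Y) fun x => a (Z x y0)).mul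
    (Rk.right (K := K) (X := X) fun y => b (Z x0 y))).add
    ((Rk.left (K := K) (Y := Y) fun x => a' (Z x y0)).mul
    (Rk.right (K := K) (X := X) fun y => b' (Z x0 y)))
  refine (h4.congr fun x y => ?_).mono (by norm_num)
  have e1 : ∀ v ∈ (A : Set V), Z x y0 v = Z x y v := fun v hv =>
    hB v (Finset.disjoint_left.mp hAB hv) x y0 y
  have e2 : ∀ v ∈ ((A : Set V)ᶜ), Z x0 y v = Z x y v := fun v hv => hA v hv x0 x y
  rw [h3, ha _ _ e1, ha' _ _ e1, hb _ _ e2, hb' _ _ e2]

lemma rk_two' (hAB : Disjoint A B) (Z : X → Y → V → Bool)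
    (hA : ∀ v ∉ A, ∀ x x' y, Z x y v = Z x' y v) (hB : ∀ v ∉ B, ∀ x y y', Z x y v = Z x y' v)
    {Q : Finset V} {h : (V → Bool) → K} (hQ : Dep (Q : Set V) h) (h2 : Two h) :
    Rk (2 ^ (min (min (Q ∩ A).card (Q ∩ B).card) 1)) (fun x y => h (Z x y)) := by
  rcases le_total (min (Q ∩ A).card (Q ∩ B).card) 1 with h1 | h1
  · rw [min_eq_left h1]
    exact rk_small hAB Z hA hB hQ
  · rw [min_eq_right h1, pow_one]
    exact rk_two hAB Z hA hB h2

end

/-- the rank of a term -/
lemma rk_tm {n : ℕ} {K X Y : Type*} [Field K] {A B : Finset (Fin n)} (hAB : Disjoint A B)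
    (Z : X → Y → Fin n → Bool) (hA : ∀ v ∉ A, ∀ x x' y, Z x y v = Z x' y v)
    (hB : ∀ v ∉ B, ∀ x y y', Z x y v = Z x y' v) {W m c d : ℕ} {s : List (Fin n)}
    (hs : Blk A B m s) {o : (Fin n → Bool) → K} {P : Fin c → Finset (Fin n)}
    {p : Fin c → (Fin n → Bool) → K} {Q : Fin d → Finset (Fin n)}
    {q : Fin d → (Fin n → Bool) → K} (ho : OBP K W s o)
    (hp : ∀ i, Dep (P i : Set (Fin n)) (p i))
    (hq : ∀ j, Dep (Q j : Set (Fin n)) (q j) ∧ Two (q j)) :
    Rk (W ^ (m + 2) * 2 ^ (∑ i, min (P i ∩ A).card (P i ∩ B).card +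
      ∑ j, min (min (Q j ∩ A).card (Q j ∩ B).card) 1))
      (fun x y => o (Z x y) * (∏ i, p i (Z x y)) * ∏ j, q j (Z x y)) := by
  have h1 := ((rk_obp Z hA hB hs ho).mul (rk_prod' univ fun i _ => rk_small hAB Z hA hB (hp i))).mul
    (rk_prod' univ fun j _ => rk_two' hAB Z hA hB (hq j).1 (hq j).2)
  rw [Finset.prod_pow_eq_pow_sum, Finset.prod_pow_eq_pow_sum, mul_assoc, ← pow_add] at h1
  exact h1

section place

variable {E : Type*} [Fintype E] [DecidableEq E] {M n L : ℕ} (e : Var E M → Fin n)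
variable {m : ℕ} (idx : E × Fin 12 ≃ Fin m) (pa pb : Fin L → Fin (M + 1))

/-- the pointers that belong to a choice of places -/
def ptr (ω : Fin m → Fin L × Fin L) (l : Lab E) : Fin (M + 1) :=
  bif l.2.1 then pb (ω (idx (l.1, l.2.2))).2 else pa (ω (idx (l.1, l.2.2))).1

omit [Fintype E] [DecidableEq E] in
lemma ptr_inj {ω : Fin m → Fin L × Fin L} (hpa : Function.Injective pa)
    (hpb : Function.Injective pb) (hab : ∀ i j, pa i ≠ pb j)
    (h1 : Function.Injective fun t => (ω t).1) (h2 : Function.Injective fun t => (ω t).2) :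
    Function.Injective (ptr idx pa pb ω) := by
  rintro ⟨f, s, i⟩ ⟨f', s', i'⟩ hl
  unfold ptr at hl
  cases s <;> cases s'
  · simp only [cond_false] at hl
    have h3 := idx.injective (h1 (hpa hl))
    rw [Prod.mk.injEq] at h3
    rw [h3.1, h3.2]
  · simp only [cond_false, cond_true] at hl
    exact absurd hl (hab _ _)
  · simp only [cond_false, cond_true] at hl
    exact absurd hl.symm (hab _ _)
  · simp only [cond_true] at hl
    have h3 := idx.injective (h2 (hpb hl))
    rw [Prod.mk.injEq] at h3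
    rw [h3.1, h3.2]

/-- the places whose cells are in `P` -/
def pre (q : Fin L → Fin (M + 1)) (P : Finset (Fin n)) : Finset (Fin L) :=
  univ.filter fun p => e (Sum.inr (q p)) ∈ P

omit [DecidableEq E] in
lemma card_liv_false {ω : Fin m → Fin L × Fin L} (P : Finset (Fin n)) :
    (P ∩ liv e (ptr idx pa pb ω) false).card ≤ c1 (pre e pa P) ω := by
  have h1 : P ∩ liv e (ptr idx pa pb ω) false ⊆
      (univ.filter fun t => (ω t).1 ∈ pre e pa P).image fun t => e (Sum.inr (pa (ω t).1)) := by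
    intro v hv
    rw [Finset.mem_inter] at hv
    obtain ⟨⟨f, i⟩, -, rfl⟩ := Finset.mem_image.mp hv.2
    refine Finset.mem_image.mpr ⟨idx (f, i), ?_, rfl⟩
    rw [Finset.mem_filter]
    exact ⟨mem_univ _, Finset.mem_filter.mpr ⟨mem_univ _, hv.1⟩⟩
  exact (Finset.card_le_card h1).trans Finset.card_image_le

omit [DecidableEq E] in
lemma card_liv_true {ω : Fin m → Fin L × Fin L} (P : Finset (Fin n)) :
    (P ∩ liv e (ptr idx pa pb ω) true).card ≤ c2 (pre e pb P) ω := by
  have h1 : P ∩ liv e (ptr idx pa pb ω) true ⊆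
      (univ.filter fun t => (ω t).2 ∈ pre e pb P).image fun t => e (Sum.inr (pb (ω t).2)) := by
    intro v hv
    rw [Finset.mem_inter] at hv
    obtain ⟨⟨f, i⟩, -, rfl⟩ := Finset.mem_image.mp hv.2
    refine Finset.mem_image.mpr ⟨idx (f, i), ?_, rfl⟩
    rw [Finset.mem_filter]
    exact ⟨mem_univ _, Finset.mem_filter.mpr ⟨mem_univ _, hv.1⟩⟩
  exact (Finset.card_le_card h1).trans Finset.card_image_le

omit [DecidableEq E] [Fintype E] in
lemma card_pre (he : Function.Injective e) {q : Fin L → Fin (M + 1)} (hq : Function.Injective q)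
    (P : Finset (Fin n)) : (pre e q P).card ≤ P.card := by
  refine Finset.card_le_card_of_injOn (fun p => e (Sum.inr (q p))) ?_ ?_
  · intro p hp
    exact (Finset.mem_filter.mp hp).2
  · intro p _ p' _ h
    exact hq (Sum.inr_injective (he h))

end place

/-- most choices of places are injective -/
lemma card_inj {m L : ℕ} (hmL : 8 * m ^ 2 ≤ L) (hm : 0 < m) :
    3 * Fintype.card (Fin m → Fin L × Fin L) ≤ 4 * (univ.filter fun ω : Fin m → Fin L × Fin L =>
      (Function.Injective fun t => (ω t).1) ∧ Function.Injective fun t => (ω t).2).card := by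
  classical
  have h1 : L.descFactorial m * L.descFactorial m ≤ (univ.filter fun ω : Fin m → Fin L × Fin L =>
      (Function.Injective fun t => (ω t).1) ∧ Function.Injective fun t => (ω t).2).card := by
    have h2 : Fintype.card ((Fin m ↪ Fin L) × (Fin m ↪ Fin L)) =
        L.descFactorial m * L.descFactorial m := by
      rw [Fintype.card_prod, Fintype.card_embedding_eq, Fintype.card_fin, Fintype.card_fin]
    rw [← h2, ← Finset.card_univ]
    refine Finset.card_le_card_of_injOn (fun p t => (p.1 t, p.2 t)) ?_ ?_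
    · intro p _
      exact Finset.mem_coe.mpr (Finset.mem_filter.mpr ⟨mem_univ _, p.1.injective, p.2.injective⟩)
    · intro p _ p' _ h
      refine Prod.ext (Function.Embedding.ext fun t => ?_) (Function.Embedding.ext fun t => ?_)
      · exact congrArg Prod.fst (congrFun h t)
      · exact congrArg Prod.snd (congrFun h t)
  refine le_trans ?_ (Nat.mul_le_mul_left 4 h1)
  rw [Fintype.card_fun, Fintype.card_prod, Fintype.card_fin, Fintype.card_fin]
  have h3 : (L - m) ^ m ≤ L.descFactorial m := by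
    refine le_trans (Nat.pow_le_pow_left (by omega) m) (Nat.pow_sub_le_descFactorial L m)
  have hmL' : m ≤ L := by nlinarith
  have hL0 : (0 : ℝ) < L := by
    have : 0 < L := by nlinarith
    exact_mod_cast this
  have h4 : (3 : ℝ) * ((L : ℝ) * L) ^ m ≤ 4 * (((L - m : ℕ) : ℝ) ^ m * ((L - m : ℕ) : ℝ) ^ m) := by
    rw [Nat.cast_sub hmL', ← mul_pow]
    have h5 : 1 + ((m + m : ℕ) : ℝ) * (-(m / L)) ≤ (1 + (-(m / L : ℝ))) ^ (m + m) := by
      refine one_add_mul_le_pow ?_ _
      have : (m : ℝ) / L ≤ 1 := by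
        rw [div_le_one hL0]
        exact_mod_cast hmL'
      linarith
    have h6 : (8 * m ^ 2 : ℝ) ≤ L := by exact_mod_cast hmL
    have h7 : ((m + m : ℕ) : ℝ) * (m / L) ≤ 1 / 4 := by
      push_cast
      rw [← mul_div_assoc, div_le_iff₀ hL0]
      nlinarith
    have h8 : (3 / 4 : ℝ) ≤ (1 + (-(m / L : ℝ))) ^ (m + m) := by
      refine le_trans ?_ h5
      linarith
    have e1 : (((L : ℝ) - m) * ((L : ℝ) - m)) ^ m = (L * L) ^ m * (1 + (-(m / L : ℝ))) ^ (m + m) := by
      rw [← two_mul, pow_mul, ← mul_pow]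
      congr 1
      field_simp
      ring
    rw [e1]
    have h9 : (0 : ℝ) < ((L : ℝ) * L) ^ m := by positivity
    nlinarith
  have h10 : 3 * (L * L) ^ m ≤ 4 * ((L - m) ^ m * (L - m) ^ m) := by exact_mod_cast h4
  refine h10.trans (Nat.mul_le_mul_left 4 (Nat.mul_le_mul h3 h3))

end Pool.Agent.J4H24.D3
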