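import Pool.Agent.J4H24.D3.Cut
import Pool.Agent.J4H24.NS.Rank

/-!
# Tseitin contradictions and a certificate whose rank drops on every violated vertex
-/

namespace Pool.Agent.J4H24.D3

open Finset Pool.Agent.J4H24.NS

section graph

variable {V E : Type*} [Fintype V] [DecidableEq V] [Fintype E] [DecidableEq E] (a b : E → V)

/-- the edges with exactly one end in `U` -/
def bd (U : Finset V) : Finset E := univ.filter fun e => ¬ (a e ∈ U ↔ b e ∈ U)

variable {R : Type*} [CommRing R]

/-- the product of the signs of the edges with exactly one end in `U`, with the sign of `U` -/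
def ts (w0 : V) (s : E → R) (U : Finset V) : R :=
  (∏ w ∈ U, if w = w0 then -1 else 1) * ∏ e ∈ bd a b U, s e

omit [Fintype V] [DecidableEq E] in
lemma ts_insert {w0 : V} {s : E → R} (hs : ∀ e, s e * s e = 1) {U : Finset V} {w : V}
    (hw : w ∉ U) : ts a b w0 s (insert w U) = ts a b w0 s U * ts a b w0 s {w} := by
  have h1 : ∏ e ∈ bd a b (insert w U), s e = (∏ e ∈ bd a b U, s e) * ∏ e ∈ bd a b {w}, s e := by
    unfold bd
    rw [Finset.prod_filter, Finset.prod_filter, Finset.prod_filter, ← Finset.prod_mul_distrib]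
    refine Finset.prod_congr rfl fun e _ => ?_
    simp only [Finset.mem_insert, Finset.mem_singleton]
    by_cases h1 : a e = w
    · by_cases h2 : b e = w
      · simp [h1, h2]
      · by_cases h4 : b e ∈ U
        · simp [h1, h2, h4, hw, hs]
        · simp [h1, h2, h4, hw]
    · by_cases h2 : b e = w
      · by_cases h3 : a e ∈ U
        · simp [h1, h2, h3, hw, hs]
        · simp [h1, h2, h3, hw]
      · simp [h1, h2]
  unfold ts
  rw [Finset.prod_insert hw, Finset.prod_singleton, h1]
  ring

omit [Fintype V] [DecidableEq E] in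
lemma ts_empty (w0 : V) (s : E → R) : ts a b w0 s ∅ = 1 := by
  unfold ts bd
  simp

omit [DecidableEq E] in
lemma ts_univ (w0 : V) (s : E → R) : ts a b w0 s univ = -1 := by
  unfold ts bd
  simp

omit [Fintype V] [DecidableEq E] in
lemma ts_sq {w0 : V} {s : E → R} (hs : ∀ e, s e * s e = 1) (U : Finset V) :
    ts a b w0 s U * ts a b w0 s U = 1 := by
  unfold ts
  rw [mul_mul_mul_comm, ← Finset.prod_mul_distrib, ← Finset.prod_mul_distrib,
    Finset.prod_congr rfl fun e _ => hs e]
  rw [Finset.prod_eq_one fun w _ => ?_]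
  · simp
  · split_ifs <;> ring

omit [DecidableEq E] in
/-- some vertex is violated -/
lemma exists_viol (w0 : V) {s : E → ℤ} (hs : ∀ e, s e * s e = 1) :
    ∃ w, ts a b w0 s {w} = -1 := by
  by_contra hc
  push Not at hc
  have h1 : ∀ w, ts a b w0 s {w} = 1 := fun w =>
    (mul_self_eq_one_iff.mp (ts_sq a b hs {w})).resolve_right (hc w)
  have h2 : ∀ U : Finset V, ts a b w0 s U = 1 := by
    intro U
    induction U using Finset.induction_on with
    | empty => exact ts_empty a b w0 s
    | insert w U hw ih => rw [ts_insert a b hs hw, ih, h1, mul_one]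
  have h3 := h2 univ
  rw [ts_univ] at h3
  norm_num at h3

omit [DecidableEq E] in
lemma cancel {w0 : V} {s : E → R} (hs : ∀ e, s e * s e = 1) {w : V}
    (hw : ts a b w0 s {w} = -1) (r : ℕ) :
    ∑ U ∈ univ.filter (fun U : Finset V => U.card ≤ r), ts a b w0 s U =
      ∑ U ∈ univ.filter (fun U : Finset V => U.card = r ∧ w ∉ U), ts a b w0 s U := by
  have h1 : ∑ U ∈ univ.filter (fun U : Finset V => U.card ≤ r ∧ w ∈ U), ts a b w0 s U =
      ∑ U ∈ univ.filter (fun U : Finset V => U.card < r ∧ w ∉ U), - ts a b w0 s U := by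
    refine Finset.sum_nbij' (fun U => U.erase w) (fun U => insert w U) ?_ ?_ ?_ ?_ ?_
    · intro U hU
      rw [Finset.mem_filter] at hU ⊢
      refine ⟨mem_univ _, ?_, Finset.notMem_erase _ _⟩
      rw [Finset.card_erase_of_mem hU.2.2]
      have := Finset.card_pos.mpr ⟨w, hU.2.2⟩
      omega
    · intro U hU
      rw [Finset.mem_filter] at hU ⊢
      refine ⟨mem_univ _, ?_, Finset.mem_insert_self _ _⟩
      rw [Finset.card_insert_of_notMem hU.2.2]
      omega
    · intro U hU
      exact Finset.insert_erase (Finset.mem_filter.mp hU).2.2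
    · intro U hU
      exact Finset.erase_insert (Finset.mem_filter.mp hU).2.2
    · intro U hU
      have h2 := ts_insert a b (w0 := w0) hs (Finset.notMem_erase w U)
      rw [Finset.insert_erase (Finset.mem_filter.mp hU).2.2, hw] at h2
      rw [h2]
      ring
  rw [← Finset.sum_filter_add_sum_filter_not _ (fun U : Finset V => w ∈ U), Finset.filter_filter,
    Finset.filter_filter, h1, ← Finset.sum_filter_add_sum_filter_not
      (univ.filter fun U : Finset V => U.card ≤ r ∧ w ∉ U) (fun U : Finset V => U.card < r),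
    Finset.filter_filter, Finset.filter_filter, ← add_assoc]
  have h2 : (univ.filter fun U : Finset V => (U.card ≤ r ∧ w ∉ U) ∧ U.card < r) =
      univ.filter fun U : Finset V => U.card < r ∧ w ∉ U := by
    refine Finset.filter_congr fun U _ => ?_
    constructor
    · rintro ⟨⟨-, h3⟩, h4⟩
      exact ⟨h4, h3⟩
    · rintro ⟨h3, h4⟩
      exact ⟨⟨h3.le, h4⟩, h3⟩
  have h3 : (univ.filter fun U : Finset V => (U.card ≤ r ∧ w ∉ U) ∧ ¬ U.card < r) =
      univ.filter fun U : Finset V => U.card = r ∧ w ∉ U := by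
    refine Finset.filter_congr fun U _ => ?_
    constructor
    · rintro ⟨⟨h3, h4⟩, h5⟩
      exact ⟨by omega, h4⟩
    · rintro ⟨h3, h4⟩
      exact ⟨⟨h3.le, h4⟩, by omega⟩
  rw [h2, h3, Finset.sum_neg_distrib, neg_add_cancel, zero_add]

omit [Fintype V] in
/-- the product with the signs of all edges -/
lemma prod_ts {w0 : V} {s : E → R} (hs : ∀ e, s e * s e = 1) (U : Finset V) :
    (∏ e, s e) * ts a b w0 s U =
      (∏ w ∈ U, if w = w0 then -1 else 1) * ∏ e ∈ (bd a b U)ᶜ, s e := by
  unfold ts
  rw [← Finset.prod_mul_prod_compl (bd a b U) s]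
  have h1 : (∏ e ∈ bd a b U, s e) * ∏ e ∈ bd a b U, s e = 1 := by
    rw [← Finset.prod_mul_distrib, Finset.prod_congr rfl fun e _ => hs e, Finset.prod_const_one]
  calc (∏ e ∈ bd a b U, s e) * (∏ e ∈ (bd a b U)ᶜ, s e) *
        ((∏ w ∈ U, if w = w0 then -1 else 1) * ∏ e ∈ bd a b U, s e)
      = ((∏ e ∈ bd a b U, s e) * ∏ e ∈ bd a b U, s e) *
        ((∏ w ∈ U, if w = w0 then -1 else 1) * ∏ e ∈ (bd a b U)ᶜ, s e) := by ring
    _ = _ := by rw [h1, one_mul]

end graph

/-- the bits of an edge -/
abbrev B := Fin 12 → Bool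

/-- the sign of the inner product -/
def hh {R : Type*} [CommRing R] (x y : B) : R := ∏ i, if x i && y i then -1 else 1

section

variable {R : Type*} [CommRing R]

lemma hh_sq (x y : B) : (hh x y : R) * hh x y = 1 := by
  unfold hh
  rw [← Finset.prod_mul_distrib]
  refine Finset.prod_eq_one fun i _ => ?_
  split_ifs <;> ring

lemma hh_cast (x y : B) : (((hh x y : ℤ)) : R) = hh x y := by
  unfold hh
  push_cast
  refine Finset.prod_congr rfl fun i _ => ?_
  split_ifs <;> simp

lemma hh_zero (y : B) : (hh (fun _ => false) y : R) = 1 := by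
  unfold hh
  simp

lemma hh_orth (z t : B) : ∑ y : B, (hh z y : R) * hh t y = if z = t then 4096 else 0 := by
  unfold hh
  simp only [← Finset.prod_mul_distrib]
  have h1 := Finset.prod_univ_sum (fun _ : Fin 12 => (univ : Finset Bool))
    (fun i c => (if z i && c then (-1 : R) else 1) * if t i && c then -1 else 1)
  rw [Fintype.piFinset_univ] at h1
  rw [← h1]
  have h2 : ∀ i, ∑ c : Bool, (if z i && c then (-1 : R) else 1) * (if t i && c then -1 else 1) =
      if z i = t i then 2 else 0 := by
    intro i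
    rw [Fintype.sum_bool]
    cases z i <;> cases t i <;> norm_num
  rw [Finset.prod_congr rfl fun i _ => h2 i]
  split_ifs with h
  · subst h
    simp
    norm_num
  · obtain ⟨i, hi⟩ := Function.ne_iff.mp h
    exact Finset.prod_eq_zero (mem_univ i) (if_neg hi)

end

section dual

variable {K X Y : Type*} [Field K]

lemma rk_dual {S T : Type*} [Fintype X] [Fintype Y] {r : ℕ} {f : X → Y → K} (h : Rk r f)
    (u : S → X → K) (w : Y → T → K) :
    Rk r (fun s t => ∑ x, ∑ y, u s x * f x y * w y t) := by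
  obtain ⟨n, a, b, hn, h⟩ := h
  refine ⟨n, fun i s => ∑ x, u s x * a i x, fun i t => ∑ y, b i y * w y t, hn, fun s t => ?_⟩
  simp only [h]
  calc ∑ x, ∑ y, u s x * (∑ i, a i x * b i y) * w y t
      = ∑ x, ∑ y, ∑ i, (u s x * a i x) * (b i y * w y t) := by
        refine Finset.sum_congr rfl fun x _ => Finset.sum_congr rfl fun y _ => ?_
        rw [Finset.mul_sum, Finset.sum_mul]
        exact Finset.sum_congr rfl fun i _ => by ring
    _ = ∑ x, ∑ i, ∑ y, (u s x * a i x) * (b i y * w y t) :=
        Finset.sum_congr rfl fun x _ => Finset.sum_comm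
    _ = ∑ i, ∑ x, ∑ y, (u s x * a i x) * (b i y * w y t) := Finset.sum_comm
    _ = _ := Finset.sum_congr rfl fun i _ => by rw [Finset.sum_mul_sum]

lemma prod_sum2 {E B : Type*} [Fintype E] [DecidableEq E] [Fintype B]
    (f : E → B → B → K) :
    ∑ x : E → B, ∑ y : E → B, ∏ e, f e (x e) (y e) = ∏ e, ∑ x, ∑ y, f e x y := by
  have h1 := Finset.prod_univ_sum (fun _ : E => (univ : Finset B)) (fun e x => ∑ y, f e x y)
  rw [h1, Fintype.piFinset_univ]
  refine Finset.sum_congr rfl fun x _ => ?_
  have h2 := Finset.prod_univ_sum (fun _ : E => (univ : Finset B)) (fun e y => f e (x e) y)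
  rw [h2, Fintype.piFinset_univ]

/-- nonzero vectors -/
abbrev Z := {z : B // z ≠ fun _ => false}

lemma card_Z : Fintype.card Z = 4095 := by
  have h1 := Fintype.card_subtype_compl (fun z : B => z = fun _ => false)
  rw [Fintype.card_subtype_eq] at h1
  have h2 : Fintype.card B = 4096 := by simp
  rw [h2] at h1
  exact h1

/-- the row functional -/
def u0 (z : Z) (x : B) : K := (if x = z.1 then 1 else 0) - if x = fun _ => false then 1 else 0

lemma loc0 (z t : Z) (w : B → Z → K) : ∑ x : B, ∑ y : B, (u0 z x : K) * 1 * w y t = 0 := by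
  have h1 : ∑ x : B, (u0 z x : K) = 0 := by
    unfold u0
    rw [Finset.sum_sub_distrib, Finset.sum_ite_eq' univ, Finset.sum_ite_eq' univ]
    simp
  rw [Finset.sum_comm]
  refine Finset.sum_eq_zero fun y _ => ?_
  rw [← Finset.sum_mul]
  simp only [mul_one]
  rw [h1, zero_mul]

lemma loc1 (h2 : (2 : K) ≠ 0) (z t : Z) :
    ∑ x : B, ∑ y : B, (u0 z x : K) * hh x y * (hh t.1 y / 4096) = if z = t then 1 else 0 := by
  have h4 : (4096 : K) ≠ 0 := by
    rw [show (4096 : K) = 2 ^ 12 by norm_num]
    exact pow_ne_zero _ h2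
  have h1 : ∀ y : B, ∑ x : B, (u0 z x : K) * hh x y = hh z.1 y - 1 := by
    intro y
    unfold u0
    simp only [sub_mul, ite_mul, one_mul, zero_mul]
    rw [Finset.sum_sub_distrib, Finset.sum_ite_eq' univ, Finset.sum_ite_eq' univ]
    simp [hh_zero]
  rw [Finset.sum_comm]
  have h3 : ∀ y : B, ∑ x : B, (u0 z x : K) * hh x y * (hh t.1 y / 4096) =
      (hh z.1 y * hh t.1 y - hh (fun _ => false) y * hh t.1 y) / 4096 := by
    intro y
    rw [← Finset.sum_mul, h1, hh_zero]
    ring
  have h6 : ¬ (fun _ => false) = t.1 := fun h => t.2 h.symm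
  rw [Finset.sum_congr rfl fun y _ => h3 y, ← Finset.sum_div, Finset.sum_sub_distrib, hh_orth,
    hh_orth, if_neg h6, sub_zero]
  by_cases h5 : z = t
  · rw [if_pos h5, if_pos (congrArg _ h5), div_self h4]
  · rw [if_neg h5, if_neg (fun h => h5 (Subtype.ext h)), zero_div]

end dual

section core

variable {V E : Type*} [Fintype V] [DecidableEq V] [Fintype E] [DecidableEq E] (a b : E → V)
variable {K : Type*} [Field K]

/-- the certificate -/
noncomputable def ct (K : Type*) [Field K] (w0 : V) (r : ℕ) (x y : E → B) : K :=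
  (∏ e, hh (x e) (y e)) * ∑ U ∈ univ.filter (fun U : Finset V => U.card ≤ r),
    ts a b w0 (fun e => hh (x e) (y e)) U

omit [Fintype E] [DecidableEq E] in
lemma rk_hh (e : E) : Rk 4096 (fun x y : E → B => (hh (x e) (y e) : K)) := by
  have h1 := Rk.of_fintype (f := fun x y : E → B => (hh (x e) (y e) : K)) (ι := B)
    (fun z x => if x e = z then 1 else 0) (fun z y => hh z (y e)) (fun x y => by
      simp only [ite_mul, one_mul, zero_mul]
      rw [Finset.sum_ite_eq univ]
      simp)
  simpa using h1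

/-- the rank is small where a vertex is violated -/
lemma rk_viol {w0 : V} {r t : ℕ} (ht : ∀ U : Finset V, U.card = r → ((bd a b U)ᶜ).card ≤ t)
    (w : V) : Rk (2 ^ Fintype.card V * 4096 ^ t) (fun x y : E → B =>
      ∑ U ∈ univ.filter (fun U : Finset V => U.card = r ∧ w ∉ U),
        (∏ w ∈ U, if w = w0 then (-1 : K) else 1) * ∏ e ∈ (bd a b U)ᶜ, hh (x e) (y e)) := by
  have h1 := Rk.sum (univ.filter (fun U : Finset V => U.card = r ∧ w ∉ U))
    (r := fun _ => 4096 ^ t)
    (f := fun U (x y : E → B) => (∏ w ∈ U, if w = w0 then (-1 : K) else 1) *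
      ∏ e ∈ (bd a b U)ᶜ, hh (x e) (y e)) (fun U hU => by
      have h2 := (Rk.prod (K := K) (bd a b U)ᶜ fun e _ => rk_hh e).smul
        (∏ w ∈ U, if w = w0 then (-1 : K) else 1)
      exact h2.mono (Nat.pow_le_pow_right (by norm_num) (ht U (Finset.mem_filter.mp hU).2.1)))
  refine h1.mono ?_
  rw [Finset.sum_const, smul_eq_mul]
  refine Nat.mul_le_mul_right _ ?_
  refine (Finset.card_le_univ _).trans ?_
  rw [Fintype.card_finset]

lemma ct_viol {w0 : V} {r : ℕ} {w : V} {x y : E → B}
    (hw : ts a b w0 (fun e => (hh (x e) (y e) : K)) {w} = -1) : ct a b K w0 r x y =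
      ∑ U ∈ univ.filter (fun U : Finset V => U.card = r ∧ w ∉ U),
        (∏ w ∈ U, if w = w0 then (-1 : K) else 1) * ∏ e ∈ (bd a b U)ᶜ, hh (x e) (y e) := by
  unfold ct
  have hs : ∀ e, (hh (x e) (y e) : K) * hh (x e) (y e) = 1 := fun e => hh_sq _ _
  rw [cancel a b hs hw, Finset.mul_sum]
  exact Finset.sum_congr rfl fun U _ => prod_ts a b hs U

/-- the rank of the certificate is large -/
lemma ct_large (h2 : (2 : K) ≠ 0) {w0 : V} {r : ℕ}
    (hc : ∀ U : Finset V, U.Nonempty → U.card ≤ r → (bd a b U).Nonempty) {N : ℕ}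
    (h : Rk N (ct a b K w0 r : (E → B) → (E → B) → K)) : 4095 ^ Fintype.card E ≤ N := by
  have h1 := rk_dual h (fun (s : E → Z) (x : E → B) => ∏ e, (u0 (s e) (x e) : K))
    (fun (y : E → B) (t : E → Z) => ∏ e, (hh (t e).1 (y e) / 4096 : K))
  have h3 : ∀ s t : E → Z, ∑ x : E → B, ∑ y : E → B, (∏ e, (u0 (s e) (x e) : K)) *
      ct a b K w0 r x y * (∏ e, (hh (t e).1 (y e) / 4096 : K)) = if s = t then 1 else 0 := by
    intro s t
    have e1 : ∀ x y : E → B, (∏ e, (u0 (s e) (x e) : K)) * ct a b K w0 r x y *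
        (∏ e, (hh (t e).1 (y e) / 4096 : K)) =
        ∑ U ∈ univ.filter (fun U : Finset V => U.card ≤ r),
          (∏ w ∈ U, if w = w0 then (-1 : K) else 1) *
          ∏ e, ((u0 (s e) (x e) : K) * (if e ∈ bd a b U then 1 else hh (x e) (y e)) *
            (hh (t e).1 (y e) / 4096)) := by
      intro x y
      have hs : ∀ e, (hh (x e) (y e) : K) * hh (x e) (y e) = 1 := fun e => hh_sq _ _
      unfold ct
      rw [Finset.mul_sum, Finset.mul_sum, Finset.sum_mul]
      refine Finset.sum_congr rfl fun U _ => ?_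
      rw [prod_ts a b hs U, Finset.prod_mul_distrib, Finset.prod_mul_distrib]
      have e2 : ∏ e, (if e ∈ bd a b U then (1 : K) else hh (x e) (y e)) =
          ∏ e ∈ (bd a b U)ᶜ, hh (x e) (y e) := by
        rw [Finset.prod_ite, Finset.prod_const_one, one_mul]
        refine Finset.prod_congr ?_ fun _ _ => rfl
        ext e
        simp
      rw [e2]
      ring
    simp only [e1]
    have e3 : ∀ x : E → B, ∑ y : E → B, ∑ U ∈ univ.filter (fun U : Finset V => U.card ≤ r),
          (∏ w ∈ U, if w = w0 then (-1 : K) else 1) *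
          ∏ e, ((u0 (s e) (x e) : K) * (if e ∈ bd a b U then 1 else hh (x e) (y e)) *
            (hh (t e).1 (y e) / 4096)) = ∑ U ∈ univ.filter (fun U : Finset V => U.card ≤ r),
          ∑ y : E → B, (∏ w ∈ U, if w = w0 then (-1 : K) else 1) *
          ∏ e, ((u0 (s e) (x e) : K) * (if e ∈ bd a b U then 1 else hh (x e) (y e)) *
            (hh (t e).1 (y e) / 4096)) := fun x => Finset.sum_comm
    rw [Finset.sum_congr rfl fun x _ => e3 x, Finset.sum_comm]
    have e4 : ∀ U : Finset V, ∑ x : E → B, ∑ y : E → B,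
          (∏ w ∈ U, if w = w0 then (-1 : K) else 1) *
          ∏ e, ((u0 (s e) (x e) : K) * (if e ∈ bd a b U then 1 else hh (x e) (y e)) *
            (hh (t e).1 (y e) / 4096)) = (∏ w ∈ U, if w = w0 then (-1 : K) else 1) *
          ∏ e, (if e ∈ bd a b U then 0 else if s e = t e then 1 else 0) := by
      intro U
      simp only [← Finset.mul_sum]
      congr 1
      rw [prod_sum2 (fun e (x y : B) => (u0 (s e) x : K) *
        (if e ∈ bd a b U then 1 else hh x y) * (hh (t e).1 y / 4096))]
      refine Finset.prod_congr rfl fun e _ => ?_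
      split_ifs with h5 h6
      · exact loc0 (s e) (t e) fun y t => hh t.1 y / 4096
      · rw [loc1 h2, if_pos h6]
      · rw [loc1 h2, if_neg h6]
    rw [Finset.sum_congr rfl fun U _ => e4 U]
    rw [Finset.sum_eq_single ∅]
    · have e5 : bd a b (∅ : Finset V) = (∅ : Finset E) := by
        unfold bd
        simp
      rw [e5]
      simp only [Finset.prod_empty, one_mul, Finset.notMem_empty, if_false]
      by_cases h6 : s = t
      · rw [if_pos h6]
        exact Finset.prod_eq_one fun e _ => if_pos (congrFun h6 e)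
      · rw [if_neg h6]
        obtain ⟨e, he⟩ := Function.ne_iff.mp h6
        exact Finset.prod_eq_zero (mem_univ e) (if_neg he)
    · intro U hU hne
      obtain ⟨e, he⟩ := hc U (Finset.nonempty_iff_ne_empty.mpr hne) (Finset.mem_filter.mp hU).2
      rw [Finset.prod_eq_zero (f := fun e => if e ∈ bd a b U then (0 : K) else
        if s e = t e then 1 else 0) (mem_univ e) (if_pos he), mul_zero]
    · intro h7
      exact absurd (Finset.mem_filter.mpr ⟨mem_univ _, by simp⟩) h7
  have h4 := Rk.card_le (h1.congr h3)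
  rwa [Fintype.card_fun, card_Z] at h4

/-- the main inequality -/
theorem core (h2 : (2 : K) ≠ 0) {w0 : V} {r t : ℕ}
    (ht : ∀ U : Finset V, U.card = r → ((bd a b U)ᶜ).card ≤ t)
    (hc : ∀ U : Finset V, U.Nonempty → U.card ≤ r → (bd a b U).Nonempty)
    {ι : Type*} (F : Finset ι) (α β : ι → (E → B) → K) (g : ι → (E → B) → (E → B) → K) (N : ℕ)
    (hg : ∀ C ∈ F, Rk N (g C))
    (hv : ∀ C ∈ F, ∃ w, ∀ x y, α C x * β C y ≠ 0 →
      ts a b w0 (fun e => (hh (x e) (y e) : K)) {w} = -1)
    (hsum : ∀ x y, ∑ C ∈ F, α C x * β C y * g C x y = 1) :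
    4095 ^ Fintype.card E ≤ F.card * (N * (2 ^ Fintype.card V * 4096 ^ t)) := by
  refine ct_large a b h2 (w0 := w0) hc ?_
  have h1 := Rk.sum F (r := fun _ => N * (2 ^ Fintype.card V * 4096 ^ t))
    (f := fun C x y => α C x * β C y * g C x y * ct a b K w0 r x y) (fun C hC => by
      obtain ⟨w, hw⟩ := hv C hC
      have h3 := (((Rk.left (Y := E → B) (α C)).mul (Rk.right (X := E → B) (β C))).mul
        (hg C hC)).mul (rk_viol a b (K := K) (w0 := w0) ht w)
      rw [one_mul, one_mul] at h3
      refine h3.congr fun x y => ?_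
      by_cases h4 : α C x * β C y = 0
      · rw [h4, zero_mul, zero_mul, zero_mul]
      · rw [ct_viol a b (hw x y h4)])
  rw [Finset.sum_const, smul_eq_mul] at h1
  refine h1.congr fun x y => ?_
  rw [← Finset.sum_mul, hsum, one_mul]

end core

end Pool.Agent.J4H24.D3
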